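import Mathlib
import Pool.Agent.H373R2.T7.Cnt

set_option autoImplicit false

/-! The truncated Ramanujan expansion of the von Mangoldt function: algebra. -/

namespace Pool.Agent.K1H51.LP

open Finset ArithmeticFunction

/-- `μ(r)² / φ(r)` -/
noncomputable def hh (r : ℕ) : ℝ := if Squarefree r then 1 / (Nat.totient r : ℝ) else 0

/-- the coefficient of the divisor `d` -/
noncomputable def aR (R d : ℕ) : ℝ := d * ((ArithmeticFunction.moebius d : ℤ) : ℝ) * ∑ r ∈ (Icc 1 R).filter (fun r => d ∣ r), hh r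

/-- the model: the sum of `μ(r) c_r(n) / φ(r)` over the `r ≤ R` -/
noncomputable def lamR (R n : ℕ) : ℝ := ∑ d ∈ (Icc 1 R).filter (fun d => d ∣ n), aR R d

lemma hh_nonneg (r : ℕ) : 0 ≤ hh r := by
  unfold hh
  split_ifs <;> positivity

lemma sum_mu (n : ℕ) (hn : 1 ≤ n) : ∑ d ∈ n.divisors, ((ArithmeticFunction.moebius d : ℤ) : ℝ) = if n = 1 then 1 else 0 := by
  have h := congrArg (fun f : ArithmeticFunction ℤ => f n) ArithmeticFunction.moebius_mul_coe_zeta
  simp only [ArithmeticFunction.coe_mul_zeta_apply, ArithmeticFunction.one_apply] at h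
  have h2 : ((∑ d ∈ n.divisors, ArithmeticFunction.moebius d : ℤ) : ℝ) = if n = 1 then 1 else 0 := by
    rw [h]
    split_ifs <;> simp
  rw [← h2]
  push_cast
  rfl

/-- lower bound for a product over integers -/
lemma prod_ge (S : Finset ℕ) (hS : ∀ p ∈ S, 2 ≤ p) : 1 / ((S.card : ℝ) + 1) ≤ ∏ p ∈ S, (1 - 1 / (p : ℝ)) := by
  induction S using Finset.induction_on_max with
  | empty => simp
  | insert a s has ih =>
    have ha : a ∉ s := fun h => lt_irrefl _ (has a h)
    have h2 : s.card + 2 ≤ a := by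
      have h3 : s ⊆ Ico 2 a := by
        intro x hx
        rw [mem_Ico]
        exact ⟨hS x (mem_insert_of_mem hx), has x hx⟩
      have h4 := card_le_card h3
      rw [Nat.card_Ico] at h4
      have := hS a (mem_insert_self _ _)
      omega
    have ih' := ih (fun p hp => hS p (mem_insert_of_mem hp))
    rw [prod_insert ha, card_insert_of_notMem ha]
    have ha2 : ((s.card : ℝ) + 2) ≤ a := by exact_mod_cast h2
    have hc : (0 : ℝ) ≤ s.card := Nat.cast_nonneg _
    have h5 : ((s.card : ℝ) + 1) / (s.card + 2) ≤ 1 - 1 / (a : ℝ) := by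
      have h6 : 1 / (a : ℝ) ≤ 1 / ((s.card : ℝ) + 2) := one_div_le_one_div_of_le (by positivity) ha2
      have h7 : ((s.card : ℝ) + 1) / (s.card + 2) = 1 - 1 / ((s.card : ℝ) + 2) := by field_simp; ring
      linarith
    calc 1 / (((s.card + 1 : ℕ) : ℝ) + 1) = ((s.card : ℝ) + 1) / (s.card + 2) * (1 / (s.card + 1)) := by
          push_cast
          field_simp
          ring
      _ ≤ (1 - 1 / (a : ℝ)) * ∏ p ∈ s, (1 - 1 / (p : ℝ)) := by
          apply mul_le_mul h5 ih' (by positivity)
          exact le_trans (by positivity) h5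

lemma card_primeFactors_le (n : ℕ) (hn : n ≠ 0) : n.primeFactors.card ≤ Nat.log 2 n := by
  apply Nat.le_log_of_pow_le (by norm_num)
  calc 2 ^ n.primeFactors.card ≤ ∏ p ∈ n.primeFactors, p := by
        apply Finset.pow_card_le_prod
        intro p hp
        exact (Nat.prime_of_mem_primeFactors hp).two_le
    _ ≤ n := Nat.le_of_dvd (Nat.pos_of_ne_zero hn) (Nat.prod_primeFactors_dvd n)

/-- `n / φ(n) ≤ log_2 n + 1` -/
lemma ratio_phi (n : ℕ) (hn : 1 ≤ n) : (n : ℝ) ≤ (Nat.log 2 n + 1) * Nat.totient n := by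
  have h1 : (Nat.totient n : ℝ) = n * ∏ p ∈ n.primeFactors, (1 - 1 / (p : ℝ)) := by
    have h := Nat.totient_eq_mul_prod_factors n
    have h2 : (((Nat.totient n : ℚ)) : ℝ) = ((n * ∏ p ∈ n.primeFactors, (1 - (p : ℚ)⁻¹) : ℚ) : ℝ) := by rw [h]
    push_cast at h2
    rw [h2]
    simp only [one_div]
  have h2 := prod_ge n.primeFactors (fun p hp => (Nat.prime_of_mem_primeFactors hp).two_le)
  have h3 : (n.primeFactors.card : ℝ) ≤ Nat.log 2 n := by exact_mod_cast card_primeFactors_le n (by omega)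
  have hn0 : (0 : ℝ) ≤ n := Nat.cast_nonneg _
  have hl : (0 : ℝ) ≤ Nat.log 2 n := Nat.cast_nonneg _
  rw [h1]
  have h4 : 1 / ((Nat.log 2 n : ℝ) + 1) ≤ ∏ p ∈ n.primeFactors, (1 - 1 / (p : ℝ)) := by
    refine le_trans ?_ h2
    apply one_div_le_one_div_of_le (by positivity)
    linarith
  calc (n : ℝ) = ((Nat.log 2 n : ℝ) + 1) * (n * (1 / ((Nat.log 2 n : ℝ) + 1))) := by field_simp
    _ ≤ ((Nat.log 2 n : ℝ) + 1) * (n * ∏ p ∈ n.primeFactors, (1 - 1 / (p : ℝ))) := by
        gcongr

lemma inv_phi_log (n X : ℕ) (hn : 1 ≤ n) (hX : n ≤ X) : 1 / (Nat.totient n : ℝ) ≤ (Nat.log 2 X + 1) * (1 / n) := by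
  have h1 := ratio_phi n hn
  have h2 : (Nat.log 2 n : ℝ) ≤ Nat.log 2 X := by exact_mod_cast Nat.log_mono_right hX
  have h3 : (0 : ℝ) < Nat.totient n := by exact_mod_cast Nat.totient_pos.2 hn
  have hn0 : (0 : ℝ) < n := by exact_mod_cast hn
  rw [div_le_iff₀ h3, mul_one_div, div_mul_eq_mul_div, le_div_iff₀ hn0, one_mul]
  refine h1.trans ?_
  gcongr

lemma hh_le (n X : ℕ) (hn : 1 ≤ n) (hX : n ≤ X) : hh n ≤ (Nat.log 2 X + 1) * (1 / n) := by
  unfold hh
  split_ifs
  · exact inv_phi_log n X hn hX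
  · positivity

lemma sum_inv_Icc' (X : ℕ) : ∑ q ∈ Icc 1 X, 1 / (q : ℝ) ≤ 1 + Real.log X := by
  rcases Nat.eq_zero_or_pos X with h | h
  · subst h; simp
  · have h2 : ∑ n ∈ Icc 1 X, 1 / (n : ℝ) = ((harmonic X : ℚ) : ℝ) := by
      rw [harmonic_eq_sum_Icc]
      push_cast
      simp
    rw [h2]
    exact harmonic_le_one_add_log X

lemma sum_hh (X : ℕ) : ∑ r ∈ Icc 1 X, hh r ≤ (Nat.log 2 X + 1) * (1 + Real.log X) := by
  have h1 : ∀ r ∈ Icc 1 X, hh r ≤ (Nat.log 2 X + 1) * (1 / (r : ℝ)) := by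
    intro r hr
    rw [mem_Icc] at hr
    exact hh_le r X hr.1 hr.2
  refine (sum_le_sum h1).trans ?_
  rw [← mul_sum]
  exact mul_le_mul_of_nonneg_left (sum_inv_Icc' X) (by positivity)

/-- reindexing of the multiples -/
lemma sum_multR (N d : ℕ) (hd : 1 ≤ d) (G : ℕ → ℝ) :
    ∑ n ∈ (Icc 1 N).filter (fun n => d ∣ n), G n = ∑ m ∈ Icc 1 (N / d), G (d * m) := by
  symm
  apply sum_bij (fun m _ => d * m)
  · intro m hm
    rw [mem_Icc] at hm
    rw [mem_filter, mem_Icc]
    refine ⟨⟨Nat.mul_pos hd hm.1, ?_⟩, dvd_mul_right _ _⟩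
    calc d * m ≤ d * (N / d) := Nat.mul_le_mul_left _ hm.2
      _ ≤ N := Nat.mul_div_le _ _
  · intro a _ b _ h
    exact Nat.eq_of_mul_eq_mul_left hd h
  · intro n hn
    rw [mem_filter, mem_Icc] at hn
    obtain ⟨m, rfl⟩ := hn.2
    refine ⟨m, ?_, rfl⟩
    rw [mem_Icc]
    constructor
    · rcases Nat.eq_zero_or_pos m with h | h
      · rw [h] at hn; omega
      · exact h
    · rw [Nat.le_div_iff_mul_le hd]
      linarith [mul_comm d m]
  · intro m _; rfl

/-- the size of the coefficients -/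
noncomputable def cR (R : ℕ) : ℝ := (Nat.log 2 R + 1) ^ 2 * (1 + Real.log R)

lemma cR_nonneg (R : ℕ) : 0 ≤ cR R := by
  unfold cR
  have := Real.log_natCast_nonneg R
  positivity

lemma aR_le (R d : ℕ) (hd : 1 ≤ d) (hdR : d ≤ R) : |aR R d| ≤ cR R := by
  have hlog := Real.log_natCast_nonneg R
  have hs0 : 0 ≤ ∑ r ∈ (Icc 1 R).filter (fun r => d ∣ r), hh r := sum_nonneg fun _ _ => hh_nonneg _
  have hphi : (0 : ℝ) < Nat.totient d := by exact_mod_cast Nat.totient_pos.2 hd
  have h1 : ∑ r ∈ (Icc 1 R).filter (fun r => d ∣ r), hh r ≤ (1 / (Nat.totient d : ℝ)) * ((Nat.log 2 R + 1) * (1 + Real.log R)) := by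
    rw [sum_multR R d hd]
    have h2 : ∀ m ∈ Icc 1 (R / d), hh (d * m) ≤ (1 / (Nat.totient d : ℝ)) * ((Nat.log 2 R + 1) * (1 / (m : ℝ))) := by
      intro m hm
      rw [mem_Icc] at hm
      have hmR : m ≤ R := hm.2.trans (Nat.div_le_self _ _)
      have hphim : (0 : ℝ) < Nat.totient m := by exact_mod_cast Nat.totient_pos.2 hm.1
      have h3 : hh (d * m) ≤ 1 / (Nat.totient (d * m) : ℝ) := by
        unfold hh
        split_ifs
        · exact le_rfl
        · positivity
      have h4 : (Nat.totient d : ℝ) * Nat.totient m ≤ Nat.totient (d * m) := by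
        exact_mod_cast Nat.totient_super_multiplicative d m
      calc hh (d * m) ≤ 1 / (Nat.totient (d * m) : ℝ) := h3
        _ ≤ 1 / ((Nat.totient d : ℝ) * Nat.totient m) := one_div_le_one_div_of_le (by positivity) h4
        _ = (1 / (Nat.totient d : ℝ)) * (1 / Nat.totient m) := by field_simp
        _ ≤ _ := mul_le_mul_of_nonneg_left (inv_phi_log m R hm.1 hmR) (by positivity)
    refine (sum_le_sum h2).trans ?_
    rw [← mul_sum, ← mul_sum]
    have h5 : ∑ m ∈ Icc 1 (R / d), 1 / (m : ℝ) ≤ 1 + Real.log R := by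
      refine le_trans (sum_le_sum_of_subset_of_nonneg (Icc_subset_Icc_right (Nat.div_le_self _ _)) (fun _ _ _ => by positivity)) (sum_inv_Icc' R)
    gcongr
  unfold aR
  rw [abs_mul, abs_mul, abs_of_nonneg hs0, Nat.abs_cast]
  have hmu : |((ArithmeticFunction.moebius d : ℤ) : ℝ)| ≤ 1 := by
    exact_mod_cast ArithmeticFunction.abs_moebius_le_one (n := d)
  calc (d : ℝ) * |((ArithmeticFunction.moebius d : ℤ) : ℝ)| * ∑ r ∈ (Icc 1 R).filter (fun r => d ∣ r), hh r
      ≤ d * 1 * ((1 / (Nat.totient d : ℝ)) * ((Nat.log 2 R + 1) * (1 + Real.log R))) := by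
        gcongr
    _ = (d * (1 / (Nat.totient d : ℝ))) * ((Nat.log 2 R + 1) * (1 + Real.log R)) := by ring
    _ ≤ (Nat.log 2 R + 1) * ((Nat.log 2 R + 1) * (1 + Real.log R)) := by
        apply mul_le_mul_of_nonneg_right _ (by positivity)
        have h6 := inv_phi_log d R hd hdR
        have hd0 : (0 : ℝ) < d := by exact_mod_cast hd
        calc (d : ℝ) * (1 / (Nat.totient d : ℝ)) ≤ d * ((Nat.log 2 R + 1) * (1 / d)) := mul_le_mul_of_nonneg_left h6 hd0.le
          _ = _ := by field_simp
    _ = cR R := by unfold cR; ring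

lemma lamR_le (R n : ℕ) (hn : 1 ≤ n) : |lamR R n| ≤ cR R * n.divisors.card := by
  unfold lamR
  refine (abs_sum_le_sum_abs _ _).trans ?_
  have h1 : ∀ d ∈ (Icc 1 R).filter (fun d => d ∣ n), |aR R d| ≤ cR R := by
    intro d hd
    rw [mem_filter, mem_Icc] at hd
    exact aR_le R d hd.1.1 hd.1.2
  refine (sum_le_sum h1).trans ?_
  rw [sum_const, nsmul_eq_mul, mul_comm]
  apply mul_le_mul_of_nonneg_left _ (cR_nonneg R)
  have : ((Icc 1 R).filter (fun d => d ∣ n)).card ≤ n.divisors.card := by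
    apply card_le_card
    intro d hd
    rw [mem_filter] at hd
    rw [Nat.mem_divisors]
    exact ⟨hd.2, by omega⟩
  exact_mod_cast this

lemma lamR_le' (R n : ℕ) : |lamR R n| ≤ cR R * R := by
  unfold lamR
  refine (abs_sum_le_sum_abs _ _).trans ?_
  have h1 : ∀ d ∈ (Icc 1 R).filter (fun d => d ∣ n), |aR R d| ≤ cR R := by
    intro d hd
    rw [mem_filter, mem_Icc] at hd
    exact aR_le R d hd.1.1 hd.1.2
  refine (sum_le_sum h1).trans ?_
  rw [sum_const, nsmul_eq_mul, mul_comm]
  apply mul_le_mul_of_nonneg_left _ (cR_nonneg R)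
  have : ((Icc 1 R).filter (fun d => d ∣ n)).card ≤ R := by
    refine (card_filter_le _ _).trans ?_
    rw [Nat.card_Icc]
    omega
  exact_mod_cast this

lemma sum_aR_le (R : ℕ) (S : Finset ℕ) (hS : S ⊆ Icc 1 R) : ∑ d ∈ S, |aR R d| ≤ cR R * R := by
  have h1 : ∀ d ∈ S, |aR R d| ≤ cR R := by
    intro d hd
    have := hS hd
    rw [mem_Icc] at this
    exact aR_le R d this.1 this.2
  refine (sum_le_sum h1).trans ?_
  rw [sum_const, nsmul_eq_mul, mul_comm]
  apply mul_le_mul_of_nonneg_left _ (cR_nonneg R)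
  have : S.card ≤ R := by
    refine (card_le_card hS).trans ?_
    rw [Nat.card_Icc]
    omega
  exact_mod_cast this

/-- interchange of the summations -/
lemma sum_aR (R : ℕ) (P : ℕ → Prop) [DecidablePred P] :
    ∑ d ∈ (Icc 1 R).filter P, aR R d / d = ∑ r ∈ Icc 1 R, hh r * ∑ d ∈ r.divisors.filter P, ((ArithmeticFunction.moebius d : ℤ) : ℝ) := by
  have h1 : ∀ d ∈ (Icc 1 R).filter P, aR R d / d = ∑ r ∈ Icc 1 R, if d ∣ r then ((ArithmeticFunction.moebius d : ℤ) : ℝ) * hh r else 0 := by
    intro d hd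
    rw [mem_filter, mem_Icc] at hd
    have hd0 : (d : ℝ) ≠ 0 := by
      have : (0 : ℝ) < d := by exact_mod_cast hd.1.1
      exact this.ne'
    unfold aR
    rw [← sum_filter, ← mul_sum]
    field_simp
  rw [sum_congr rfl h1, sum_comm]
  apply sum_congr rfl
  intro r hr
  rw [mem_Icc] at hr
  rw [← sum_filter, mul_sum, filter_filter]
  have h2 : (Icc 1 R).filter (fun d => P d ∧ d ∣ r) = r.divisors.filter P := by
    ext d
    rw [mem_filter, mem_Icc, mem_filter, Nat.mem_divisors]
    constructor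
    · rintro ⟨_, h3, h4⟩
      exact ⟨⟨h4, by omega⟩, h3⟩
    · rintro ⟨⟨h3, _⟩, h4⟩
      exact ⟨⟨Nat.pos_of_dvd_of_pos h3 (by omega), (Nat.le_of_dvd (by omega) h3).trans hr.2⟩, h4, h3⟩
  rw [h2]
  apply sum_congr rfl
  intro d _
  ring

/-- coprime to the modulus -/
lemma aR_coprime (R q : ℕ) (hq : 1 ≤ q) :
    ∑ d ∈ (Icc 1 R).filter (fun d => d.Coprime q), aR R d / d = ∑ r ∈ (Icc 1 R).filter (fun r => r ∣ q), hh r := by
  rw [sum_aR, sum_filter]
  apply sum_congr rfl
  intro r hr
  rw [mem_Icc] at hr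
  by_cases hsq : Squarefree r
  · have hg : r.gcd q ∣ r := Nat.gcd_dvd_left _ _
    have hr0 : 0 < r := by omega
    have hcop : (r / r.gcd q).Coprime q := by
      have h1 : r = r.gcd q * (r / r.gcd q) := (Nat.mul_div_cancel' hg).symm
      have h2 : (r.gcd q).Coprime (r / r.gcd q) := by
        rw [h1] at hsq
        exact Nat.coprime_of_squarefree_mul hsq
      by_contra hcon
      obtain ⟨p, hp, hp1, hp2⟩ := Nat.Prime.not_coprime_iff_dvd.1 hcon
      have h3 : p ∣ r := hp1.trans (Nat.div_dvd_of_dvd hg)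
      have h4 : p ∣ r.gcd q := Nat.dvd_gcd h3 hp2
      have h5 : p ∣ 1 := by
        have := Nat.dvd_gcd h4 hp1
        rwa [h2] at this
      exact hp.one_lt.ne' (Nat.dvd_one.1 h5)
    have hset : r.divisors.filter (fun d => d.Coprime q) = (r / r.gcd q).divisors := by
      ext d
      rw [mem_filter, Nat.mem_divisors, Nat.mem_divisors]
      constructor
      · rintro ⟨⟨h1, _⟩, h2⟩
        refine ⟨?_, (Nat.div_pos (Nat.le_of_dvd hr0 hg) (Nat.gcd_pos_of_pos_left _ hr0)).ne'⟩
        have h3 : d ∣ r.gcd q * (r / r.gcd q) := by rw [Nat.mul_div_cancel' hg]; exact h1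
        have h4 : d.Coprime (r.gcd q) := Nat.Coprime.coprime_dvd_right (Nat.gcd_dvd_right _ _) h2
        exact h4.dvd_of_dvd_mul_left h3
      · rintro ⟨h1, _⟩
        exact ⟨⟨h1.trans (Nat.div_dvd_of_dvd hg), by omega⟩, Nat.Coprime.coprime_dvd_left h1 hcop⟩
    rw [hset, sum_mu _ (Nat.div_pos (Nat.le_of_dvd hr0 hg) (Nat.gcd_pos_of_pos_left _ hr0))]
    by_cases hd : r ∣ q
    · rw [if_pos hd, if_pos, mul_one]
      rw [Nat.gcd_eq_left hd, Nat.div_self hr0]
    · rw [if_neg hd, if_neg, mul_zero]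
      intro h
      apply hd
      have h1 : r = r.gcd q * (r / r.gcd q) := (Nat.mul_div_cancel' hg).symm
      rw [h, mul_one] at h1
      rw [h1]
      exact Nat.gcd_dvd_right _ _
  · unfold hh
    rw [if_neg hsq, zero_mul]
    split_ifs <;> rfl

/-- divisible by the modulus -/
lemma aR_dvd (R q : ℕ) (hq : 1 ≤ q) :
    ∑ d ∈ (Icc 1 R).filter (fun d => q ∣ d), aR R d / d = if q ≤ R then ((ArithmeticFunction.moebius q : ℤ) : ℝ) / (Nat.totient q : ℝ) else 0 := by
  rw [sum_aR]
  have h1 : ∀ r ∈ Icc 1 R, hh r * ∑ d ∈ r.divisors.filter (fun d => q ∣ d), ((ArithmeticFunction.moebius d : ℤ) : ℝ) =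
      if r = q then ((ArithmeticFunction.moebius q : ℤ) : ℝ) / (Nat.totient q : ℝ) else 0 := by
    intro r hr
    rw [mem_Icc] at hr
    have hr0 : 0 < r := by omega
    by_cases hsq : Squarefree r
    · by_cases hqr : q ∣ r
      · obtain ⟨e, he⟩ := hqr
        have he0 : 0 < e := by
          rcases Nat.eq_zero_or_pos e with h | h
          · rw [h] at he; omega
          · exact h
        have hcop : q.Coprime e := by
          rw [he] at hsq
          exact Nat.coprime_of_squarefree_mul hsq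
        have hset : ∑ d ∈ r.divisors.filter (fun d => q ∣ d), ((ArithmeticFunction.moebius d : ℤ) : ℝ) =
            ∑ c ∈ e.divisors, ((ArithmeticFunction.moebius q : ℤ) : ℝ) * ((ArithmeticFunction.moebius c : ℤ) : ℝ) := by
          symm
          apply sum_bij (fun c _ => q * c)
          · intro c hc
            rw [Nat.mem_divisors] at hc
            rw [mem_filter, Nat.mem_divisors, he]
            exact ⟨⟨Nat.mul_dvd_mul_left _ hc.1, by rw [← he]; omega⟩, dvd_mul_right _ _⟩
          · intro c _ c' _ h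
            exact Nat.eq_of_mul_eq_mul_left (by omega) h
          · intro d hd
            rw [mem_filter, Nat.mem_divisors] at hd
            obtain ⟨⟨h2, _⟩, c, hc⟩ := hd
            refine ⟨c, ?_, hc.symm⟩
            rw [Nat.mem_divisors]
            refine ⟨?_, by omega⟩
            rw [he, hc] at h2
            exact Nat.dvd_of_mul_dvd_mul_left (by omega) h2
          · intro c hc
            have hcc : q.Coprime c := Nat.Coprime.coprime_dvd_right (Nat.dvd_of_mem_divisors hc) hcop
            rw [ArithmeticFunction.isMultiplicative_moebius.map_mul_of_coprime hcc]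
            push_cast
            rfl
        rw [hset, ← mul_sum, sum_mu e he0]
        by_cases h1 : e = 1
        · rw [if_pos h1, if_pos (by rw [he, h1, mul_one]), mul_one]
          unfold hh
          rw [if_pos hsq, he, h1, mul_one]
          ring
        · rw [if_neg h1, if_neg, mul_zero, mul_zero]
          intro h2
          apply h1
          rw [h2] at he
          exact Nat.eq_of_mul_eq_mul_left (by omega : 0 < q) (by rw [mul_one]; exact he.symm)
      · rw [if_neg (fun h => hqr (by rw [h])), filter_eq_empty_iff.2, sum_empty, mul_zero]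
        intro d hd h2
        exact hqr (h2.trans (Nat.dvd_of_mem_divisors hd))
    · unfold hh
      rw [if_neg hsq, zero_mul]
      split_ifs with h
      · rw [← h, ArithmeticFunction.moebius_eq_zero_of_not_squarefree hsq]
        simp
      · rfl
  rw [sum_congr rfl h1, sum_ite_eq']
  by_cases h : q ≤ R
  · rw [if_pos h, if_pos (mem_Icc.2 ⟨hq, h⟩)]
  · rw [if_neg h, if_neg]
    rw [mem_Icc]
    omega

/-- `q / φ(q)` is the sum of `μ(r)² / φ(r)` over the divisors -/
lemma sum_hh_div (q : ℕ) (hq : 1 ≤ q) : ∑ r ∈ q.divisors, hh r = (q : ℝ) / Nat.totient q := by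
  obtain ⟨F, hF⟩ : ∃ F : ArithmeticFunction ℝ, ∀ n, 1 ≤ n → F n = hh n := by
    refine ⟨⟨fun n => if n = 0 then 0 else hh n, by simp⟩, ?_⟩
    intro n hn
    simp only [ArithmeticFunction.coe_mk]
    rw [if_neg (by omega)]
  have hFm : F.IsMultiplicative := by
    rw [ArithmeticFunction.IsMultiplicative.iff_ne_zero]
    constructor
    · rw [hF 1 le_rfl]
      unfold hh
      simp
    · intro m n hm hn hmn
      rw [hF m (by omega), hF n (by omega), hF (m * n) (Nat.mul_pos (by omega) (by omega))]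
      unfold hh
      by_cases h1 : Squarefree m ∧ Squarefree n
      · rw [if_pos h1.1, if_pos h1.2, if_pos ((Nat.squarefree_mul hmn).2 h1), Nat.totient_mul hmn]
        push_cast
        field_simp
      · rw [if_neg (fun h => h1 ((Nat.squarefree_mul hmn).1 h))]
        rw [not_and_or] at h1
        rcases h1 with h | h
        · rw [if_neg h, zero_mul]
        · rw [if_neg h, mul_zero]
  obtain ⟨G, hG⟩ : ∃ G : ArithmeticFunction ℝ, ∀ n, 1 ≤ n → G n = (n : ℝ) / Nat.totient n := by
    refine ⟨⟨fun n => if n = 0 then 0 else (n : ℝ) / Nat.totient n, by simp⟩, ?_⟩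
    intro n hn
    simp only [ArithmeticFunction.coe_mk]
    rw [if_neg (by omega)]
  have hGm : G.IsMultiplicative := by
    rw [ArithmeticFunction.IsMultiplicative.iff_ne_zero]
    constructor
    · rw [hG 1 le_rfl]
      simp
    · intro m n hm hn hmn
      rw [hG m (by omega), hG n (by omega), hG (m * n) (Nat.mul_pos (by omega) (by omega)), Nat.totient_mul hmn]
      push_cast
      rw [mul_div_mul_comm]
  have hFz : (F * (ArithmeticFunction.zeta : ArithmeticFunction ℝ)).IsMultiplicative :=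
    hFm.mul ArithmeticFunction.isMultiplicative_zeta.natCast
  have key : F * (ArithmeticFunction.zeta : ArithmeticFunction ℝ) = G := by
    rw [ArithmeticFunction.IsMultiplicative.eq_iff_eq_on_prime_powers _ hFz _ hGm]
    intro p i hp
    rw [ArithmeticFunction.coe_mul_zeta_apply, hG _ (Nat.pos_of_ne_zero (pow_ne_zero _ hp.ne_zero)),
      Nat.sum_divisors_prime_pow hp]
    have hp2 : (2 : ℝ) ≤ p := by exact_mod_cast hp.two_le
    rcases Nat.eq_zero_or_pos i with h | h
    · subst h
      simp only [zero_add, sum_range_one, pow_zero]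
      rw [hF 1 le_rfl]
      unfold hh
      simp
    · have h1 : ∀ k ∈ range (i + 1), F (p ^ k) = if k = 0 then 1 else if k = 1 then 1 / ((p : ℝ) - 1) else 0 := by
        intro k _
        rw [hF _ (Nat.pos_of_ne_zero (pow_ne_zero _ hp.ne_zero))]
        unfold hh
        rcases Nat.lt_or_ge k 2 with h2 | h2
        · interval_cases k
          · simp
          · rw [pow_one, if_pos hp.prime.squarefree, Nat.totient_prime hp]
            rw [Nat.cast_sub hp.one_le]
            simp
        · rw [if_neg, if_neg (by omega), if_neg (by omega)]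
          intro h3
          rw [Nat.squarefree_pow_iff hp.ne_one (by omega)] at h3
          omega
      rw [sum_congr rfl h1]
      have h2 : ∑ k ∈ range (i + 1), (if k = 0 then (1 : ℝ) else if k = 1 then 1 / ((p : ℝ) - 1) else 0) = 1 + 1 / ((p : ℝ) - 1) := by
        obtain ⟨j, rfl⟩ : ∃ j, i = j + 1 := ⟨i - 1, by omega⟩
        rw [sum_range_succ', sum_range_succ']
        simp
        ring
      rw [h2, Nat.totient_prime_pow hp h]
      push_cast
      rw [Nat.cast_sub hp.one_le]
      have hpp : (p : ℝ) ^ i = p ^ (i - 1) * p := by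
        rw [← pow_succ]
        congr 1
        omega
      rw [hpp]
      have hp1 : (p : ℝ) - 1 ≠ 0 := by
        have : (0 : ℝ) < p - 1 := by linarith
        exact this.ne'
      have hp0 : (p : ℝ) ^ (i - 1) ≠ 0 := by positivity
      push_cast
      field_simp
      ring
  have h3 := congrArg (fun f : ArithmeticFunction ℝ => f q) key
  simp only [ArithmeticFunction.coe_mul_zeta_apply] at h3
  rw [hG q hq] at h3
  rw [← h3]
  apply sum_congr rfl
  intro r hr
  rw [hF r (Nat.pos_of_mem_divisors hr)]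

end Pool.Agent.K1H51.LP
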