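import Pool.Agent.K1H51.LP.Alg
import Pool.Agent.K1H51.LD.Rsw
import Pool.Agent.H373R2.T7.SupE2

set_option autoImplicit false

/-! The truncated Ramanujan expansion of the von Mangoldt function: progressions and exponential sums. -/

namespace Pool.Agent.K1H51.LP

open Finset
open Pool.Agent.H373R2.T7
open Pool.Agent.H807R2.Dav
open Pool.Agent.K1H51.LD (geo_small div_mod_real)

lemma count_two (y q d a : ℕ) (hq : 1 ≤ q) (hd : 1 ≤ d) (h : q.Coprime d) :
    |((((Icc 1 y).filter (fun n => n ≡ a [MOD q])).filter (fun n => d ∣ n)).card : ℝ) - y / (q * d)| ≤ 1 := by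
  obtain ⟨c, hc1, hc2⟩ := Nat.chineseRemainder h a 0
  have h1 := count_class y (q * d) c (Nat.mul_pos hq hd)
  have h2 : ((Icc 1 y).filter (fun n => n ≡ a [MOD q])).filter (fun n => d ∣ n) = (Icc 1 y).filter (fun n => n ≡ c [MOD q * d]) := by
    rw [filter_filter]
    apply filter_congr
    intro n _
    rw [← Nat.modEq_and_modEq_iff_modEq_mul h]
    constructor
    · rintro ⟨h3, h4⟩
      exact ⟨h3.trans hc1.symm, ((Nat.modEq_zero_iff_dvd).2 h4).trans hc2.symm⟩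
    · rintro ⟨h3, h4⟩
      exact ⟨h3.trans hc1, (Nat.modEq_zero_iff_dvd).1 (h4.trans hc2)⟩
  rw [h2]
  push_cast at h1
  exact h1

lemma lamR_swap (R : ℕ) (S : Finset ℕ) :
    ∑ n ∈ S, lamR R n = ∑ d ∈ Icc 1 R, aR R d * ((S.filter (fun n => d ∣ n)).card : ℝ) := by
  unfold lamR
  simp only [sum_filter]
  rw [sum_comm]
  apply sum_congr rfl
  intro d _
  rw [← sum_filter, sum_const, nsmul_eq_mul, mul_comm]

/-- the model in a reduced progression -/
lemma lamR_ap (R q y a : ℕ) (hq : 1 ≤ q) (hcop : a.Coprime q) :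
    |∑ n ∈ (Icc 1 y).filter (fun n => n ≡ a [MOD q]), lamR R n - (y : ℝ) / q * ∑ r ∈ (Icc 1 R).filter (fun r => r ∣ q), hh r| ≤
      cR R * R := by
  have hq0 : (0 : ℝ) < q := by exact_mod_cast hq
  rw [lamR_swap, ← aR_coprime R q hq]
  have h1 : ∑ d ∈ Icc 1 R, aR R d * ((((Icc 1 y).filter (fun n => n ≡ a [MOD q])).filter (fun n => d ∣ n)).card : ℝ) =
      ∑ d ∈ (Icc 1 R).filter (fun d => d.Coprime q), aR R d * ((((Icc 1 y).filter (fun n => n ≡ a [MOD q])).filter (fun n => d ∣ n)).card : ℝ) := by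
    symm
    apply sum_filter_of_ne
    intro d hd hne
    by_contra hcon
    apply hne
    have h2 : ((Icc 1 y).filter (fun n => n ≡ a [MOD q])).filter (fun n => d ∣ n) = ∅ := by
      rw [filter_eq_empty_iff]
      intro n hn hdn
      rw [mem_filter] at hn
      obtain ⟨p, hp, hp1, hp2⟩ := Nat.Prime.not_coprime_iff_dvd.1 hcon
      have h3 : p ∣ a := (hn.2.dvd_iff hp2).1 (hp1.trans hdn)
      have h4 := Nat.dvd_gcd h3 hp2
      rw [hcop] at h4
      exact hp.one_lt.ne' (Nat.dvd_one.1 h4)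
    rw [h2]
    simp
  rw [h1, mul_sum, ← sum_sub_distrib]
  refine (abs_sum_le_sum_abs _ _).trans ?_
  have h2 : ∀ d ∈ (Icc 1 R).filter (fun d => d.Coprime q), |aR R d * ((((Icc 1 y).filter (fun n => n ≡ a [MOD q])).filter (fun n => d ∣ n)).card : ℝ) -
      (y : ℝ) / q * (aR R d / d)| ≤ |aR R d| := by
    intro d hd
    rw [mem_filter, mem_Icc] at hd
    have hd0 : (0 : ℝ) < d := by exact_mod_cast hd.1.1
    have h3 := count_two y q d a hq hd.1.1 hd.2.symm
    have h4 : aR R d * ((((Icc 1 y).filter (fun n => n ≡ a [MOD q])).filter (fun n => d ∣ n)).card : ℝ) - (y : ℝ) / q * (aR R d / d) =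
        aR R d * (((((Icc 1 y).filter (fun n => n ≡ a [MOD q])).filter (fun n => d ∣ n)).card : ℝ) - y / (q * d)) := by
      field_simp
    rw [h4, abs_mul]
    exact mul_le_of_le_one_right (abs_nonneg _) h3
  refine (sum_le_sum h2).trans (sum_aR_le R _ (filter_subset _ _))

/-- divisor sums twisted by a rational frequency -/
lemma twist (D : Finset ℕ) (hD : ∀ d ∈ D, 1 ≤ d) (w : ℕ → ℝ) (q y : ℕ) (hq : 1 ≤ q) (b : ℤ) (hb : IsCoprime b (q : ℤ)) :
    ‖∑ n ∈ Icc 1 y, ((∑ d ∈ D.filter (fun d => d ∣ n), w d : ℝ) : ℂ) * ee ((n : ℝ) * ((b : ℝ) / q)) -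
      ((y * ∑ d ∈ D.filter (fun d => q ∣ d), w d / d : ℝ) : ℂ)‖ ≤ q * ∑ d ∈ D, |w d| := by
  have hq0 : (0 : ℝ) < q := by exact_mod_cast hq
  have hq1 : (1 : ℝ) ≤ q := by exact_mod_cast hq
  obtain ⟨E, hE⟩ : ∃ E : ℕ → ℂ, E = fun d : ℕ => ∑ m ∈ Icc 1 (y / d), ee ((m : ℝ) * (d * ((b : ℝ) / q))) := ⟨_, rfl⟩
  have h1 : ∑ n ∈ Icc 1 y, ((∑ d ∈ D.filter (fun d => d ∣ n), w d : ℝ) : ℂ) * ee ((n : ℝ) * ((b : ℝ) / q)) =
      ∑ d ∈ D, (w d : ℂ) * E d := by
    have h2 : ∀ n ∈ Icc 1 y, ((∑ d ∈ D.filter (fun d => d ∣ n), w d : ℝ) : ℂ) * ee ((n : ℝ) * ((b : ℝ) / q)) =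
        ∑ d ∈ D, if d ∣ n then (w d : ℂ) * ee ((n : ℝ) * ((b : ℝ) / q)) else 0 := by
      intro n _
      rw [← sum_filter]
      push_cast
      rw [sum_mul]
    rw [sum_congr rfl h2, sum_comm]
    apply sum_congr rfl
    intro d hd
    rw [← sum_filter, ← mul_sum, sum_mult y d (hD d hd), hE]
    congr 1
    apply sum_congr rfl
    intro m _
    congr 1
    push_cast
    ring
  have h3 : ((y * ∑ d ∈ D.filter (fun d => q ∣ d), w d / d : ℝ) : ℂ) = ∑ d ∈ D, (w d : ℂ) * (if q ∣ d then (((y : ℝ) / d : ℝ) : ℂ) else 0) := by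
    rw [mul_sum, sum_filter]
    push_cast
    apply sum_congr rfl
    intro d _
    split_ifs
    · push_cast
      ring
    · simp
  rw [h1, h3, ← sum_sub_distrib]
  refine (norm_sum_le _ _).trans ?_
  rw [mul_sum]
  apply sum_le_sum
  intro d hd
  rw [← mul_sub, norm_mul, Complex.norm_real, Real.norm_eq_abs, mul_comm]
  apply mul_le_mul_of_nonneg_right _ (abs_nonneg _)
  have hd1 := hD d hd
  have hd0 : (0 : ℝ) < d := by exact_mod_cast hd1
  by_cases hqd : q ∣ d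
  · rw [if_pos hqd]
    have h4 : E d = ((y / d : ℕ) : ℂ) := by
      rw [hE]
      simp only
      have h5 : ∀ m ∈ Icc 1 (y / d), ee ((m : ℝ) * (d * ((b : ℝ) / q))) = 1 := by
        intro m _
        obtain ⟨e, he⟩ := hqd
        have h6 : (m : ℝ) * (d * ((b : ℝ) / q)) = ((m * e * b : ℤ) : ℝ) := by
          rw [he]
          push_cast
          field_simp
        rw [h6, ee_int]
      rw [sum_congr rfl h5, sum_const, Nat.card_Icc]
      simp
    have h7 : E d - (((y : ℝ) / d : ℝ) : ℂ) = (((((y / d : ℕ) : ℝ) - (y : ℝ) / d : ℝ)) : ℂ) := by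
      rw [h4]
      push_cast
      rfl
    rw [h7, Complex.norm_real, Real.norm_eq_abs]
    have h8 : ((y / d : ℕ) : ℝ) ≤ (y : ℝ) / d := Nat.cast_div_le
    have h9 : (y : ℝ) / d < ((y / d : ℕ) : ℝ) + 1 := by
      have := Nat.lt_floor_add_one ((y : ℝ) / d)
      rwa [Nat.floor_div_natCast, Nat.floor_natCast] at this
    rw [abs_le]
    constructor <;> linarith
  · rw [if_neg hqd, sub_zero, hE]
    simp only
    apply geo_small _ _ q hq0
    -- the fractional part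
    obtain ⟨r, hr⟩ : ∃ r : ℤ, r = (d * b) % q := ⟨_, rfl⟩
    have hqz : (0 : ℤ) < q := by exact_mod_cast hq
    have hr1 : 0 ≤ r := by rw [hr]; exact Int.emod_nonneg _ hqz.ne'
    have hr2 : r < q := by rw [hr]; exact Int.emod_lt_of_pos _ hqz
    have hr0 : r ≠ 0 := by
      intro h0
      rw [hr] at h0
      have h4 : (q : ℤ) ∣ d * b := Int.dvd_of_emod_eq_zero h0
      have h5 : (q : ℤ) ∣ d := hb.symm.dvd_of_dvd_mul_right h4
      exact hqd (by exact_mod_cast h5)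
    have h6 : (d : ℝ) * ((b : ℝ) / q) = (r : ℝ) / q + (((d * b) / q : ℤ) : ℝ) := by
      have h7 := Int.emod_add_mul_ediv ((d : ℤ) * b) q
      rw [← hr] at h7
      have h8 : (d : ℝ) * b = (r : ℝ) + q * (((d * b) / q : ℤ) : ℝ) := by exact_mod_cast h7.symm
      rw [mul_div_assoc', h8]
      field_simp
    rw [h6, dd_add_int]
    have hr1' : (1 : ℝ) ≤ r := by
      have : (1 : ℤ) ≤ r := by omega
      exact_mod_cast this
    have hr2' : (r : ℝ) ≤ q - 1 := by
      have : r ≤ (q : ℤ) - 1 := by omega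
      exact_mod_cast this
    have h9 := dd_ge (t := (r : ℝ) / q) (by positivity) (by
      rw [div_le_one hq0]
      linarith)
    refine le_trans ?_ h9
    have h10 : 1 / (q : ℝ) ≤ min ((r : ℝ) / q) (1 - (r : ℝ) / q) := by
      rw [le_min_iff]
      constructor
      · apply div_le_div_of_nonneg_right hr1' hq0.le
      · rw [le_sub_iff_add_le, ← add_div, div_le_one hq0]
        linarith
    calc 3 / (q : ℝ) ≤ 4 * (1 / (q : ℝ)) := by
          rw [mul_one_div]
          apply div_le_div_of_nonneg_right _ hq0.le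
          norm_num
      _ ≤ _ := by linarith

/-- the model at a rational frequency -/
lemma lamR_twist (R q y : ℕ) (hq : 1 ≤ q) (hqR : q ≤ R) (b : ℤ) (hb : IsCoprime b (q : ℤ)) :
    ‖∑ n ∈ Icc 1 y, ((lamR R n : ℝ) : ℂ) * ee ((n : ℝ) * ((b : ℝ) / q)) -
      ((y * (((ArithmeticFunction.moebius q : ℤ) : ℝ) / (Nat.totient q : ℝ)) : ℝ) : ℂ)‖ ≤ q * (cR R * R) := by
  have h := twist (Icc 1 R) (fun d hd => (mem_Icc.1 hd).1) (aR R) q y hq b hb
  rw [aR_dvd R q hq, if_pos hqR] at h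
  unfold lamR
  refine h.trans ?_
  apply mul_le_mul_of_nonneg_left _ (Nat.cast_nonneg _)
  exact sum_aR_le R _ (Subset.refl _)

/-- the local model at a rational frequency -/
lemma loc_twist (q y : ℕ) (hq : 1 ≤ q) (b : ℤ) (hb : IsCoprime b (q : ℤ)) :
    ‖∑ n ∈ Icc 1 y, (((if n.Coprime q then (q : ℝ) / Nat.totient q else 0) : ℝ) : ℂ) * ee ((n : ℝ) * ((b : ℝ) / q)) -
      ((y * (((ArithmeticFunction.moebius q : ℤ) : ℝ) / (Nat.totient q : ℝ)) : ℝ) : ℂ)‖ ≤ (q : ℝ) ^ 3 := by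
  have hq0 : (0 : ℝ) < q := by exact_mod_cast hq
  have hphi : (1 : ℝ) ≤ Nat.totient q := by exact_mod_cast Nat.totient_pos.2 hq
  have h := twist q.divisors (fun d hd => Nat.pos_of_mem_divisors hd)
    (fun d => (q : ℝ) / Nat.totient q * ((ArithmeticFunction.moebius d : ℤ) : ℝ)) q y hq b hb
  have h1 : ∀ n : ℕ, 1 ≤ n → ∑ d ∈ q.divisors.filter (fun d => d ∣ n), (q : ℝ) / Nat.totient q * ((ArithmeticFunction.moebius d : ℤ) : ℝ) =
      if n.Coprime q then (q : ℝ) / Nat.totient q else 0 := by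
    intro n hn
    have h2 : q.divisors.filter (fun d => d ∣ n) = (n.gcd q).divisors := by
      ext d
      rw [mem_filter, Nat.mem_divisors, Nat.mem_divisors, Nat.dvd_gcd_iff]
      constructor
      · rintro ⟨⟨h3, _⟩, h4⟩
        exact ⟨⟨h4, h3⟩, (Nat.gcd_pos_of_pos_left _ hn).ne'⟩
      · rintro ⟨⟨h3, h4⟩, _⟩
        exact ⟨⟨h4, by omega⟩, h3⟩
    rw [h2, ← mul_sum, sum_mu _ (Nat.gcd_pos_of_pos_left _ hn)]
    unfold Nat.Coprime
    split_ifs <;> simp
  have h3 : ∑ d ∈ q.divisors.filter (fun d => q ∣ d), (q : ℝ) / Nat.totient q * ((ArithmeticFunction.moebius d : ℤ) : ℝ) / d =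
      ((ArithmeticFunction.moebius q : ℤ) : ℝ) / (Nat.totient q : ℝ) := by
    have h4 : q.divisors.filter (fun d => q ∣ d) = {q} := by
      ext d
      rw [mem_filter, Nat.mem_divisors, mem_singleton]
      constructor
      · rintro ⟨⟨h5, _⟩, h6⟩
        exact Nat.dvd_antisymm h5 h6
      · rintro rfl
        exact ⟨⟨dvd_rfl, by omega⟩, dvd_rfl⟩
    rw [h4, sum_singleton]
    field_simp
  rw [h3] at h
  have h5 : ∑ n ∈ Icc 1 y, ((∑ d ∈ q.divisors.filter (fun d => d ∣ n), (q : ℝ) / Nat.totient q * ((ArithmeticFunction.moebius d : ℤ) : ℝ) : ℝ) : ℂ) *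
      ee ((n : ℝ) * ((b : ℝ) / q)) = ∑ n ∈ Icc 1 y, (((if n.Coprime q then (q : ℝ) / Nat.totient q else 0) : ℝ) : ℂ) * ee ((n : ℝ) * ((b : ℝ) / q)) := by
    apply sum_congr rfl
    intro n hn
    rw [h1 n (mem_Icc.1 hn).1]
  rw [h5] at h
  refine h.trans ?_
  have h6 : ∀ d ∈ q.divisors, |(q : ℝ) / Nat.totient q * ((ArithmeticFunction.moebius d : ℤ) : ℝ)| ≤ q := by
    intro d _
    rw [abs_mul, abs_of_nonneg (by positivity)]
    have hmu : |((ArithmeticFunction.moebius d : ℤ) : ℝ)| ≤ 1 := by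
      exact_mod_cast ArithmeticFunction.abs_moebius_le_one (n := d)
    have h7 : (q : ℝ) / Nat.totient q ≤ q := div_le_self hq0.le hphi
    calc (q : ℝ) / Nat.totient q * |((ArithmeticFunction.moebius d : ℤ) : ℝ)| ≤ q * 1 := mul_le_mul h7 hmu (abs_nonneg _) hq0.le
      _ = q := mul_one _
  have h7 : ∑ d ∈ q.divisors, |(q : ℝ) / Nat.totient q * ((ArithmeticFunction.moebius d : ℤ) : ℝ)| ≤ q * q := by
    refine (sum_le_sum h6).trans ?_
    rw [sum_const, nsmul_eq_mul]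
    apply mul_le_mul_of_nonneg_right _ hq0.le
    exact_mod_cast Nat.card_divisors_le_self q
  calc (q : ℝ) * ∑ d ∈ q.divisors, |(q : ℝ) / Nat.totient q * ((ArithmeticFunction.moebius d : ℤ) : ℝ)| ≤ q * (q * q) :=
        mul_le_mul_of_nonneg_left h7 hq0.le
    _ = _ := by ring

end Pool.Agent.K1H51.LP
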