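import Mathlib
import Pool.Agent.K1H51.LD.Core

set_option autoImplicit false

/-! The second moment of a correlation along a family with a small large spectrum. -/

namespace Pool.Agent.K1H51.LP

open Finset Pool.Agent.H373R2.T7
open Pool.Agent.H807R2.Dav
open Pool.Agent.K1H51.LD (sum_zmod conv_le ee_per)

open Classical in
/-- the large spectrum of the family `s i`, `i ∈ I`, modulo `M` -/
noncomputable def spec {ι : Type*} (M : ℕ) (I : Finset ι) (s : ι → ℤ) (η : ℝ) : Finset ℕ :=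
  (range M).filter (fun t => η * I.card < ‖∑ i ∈ I, ee ((t : ℝ) * ((s i : ℝ) / M))‖)

lemma parseval_Z (J : Finset ℤ) (G : ℤ → ℂ) (M : ℕ) (hM : 1 ≤ M) (hJ : ∀ k ∈ J, ∀ k' ∈ J, (M : ℤ) ∣ k - k' → k = k')
    (σ : ℤ) (hσ : σ = 1 ∨ σ = -1) :
    ∑ t ∈ range M, ‖∑ k ∈ J, G k * ee ((t : ℝ) * (((σ * k : ℤ) : ℝ) / M))‖ ^ 2 = M * ∑ k ∈ J, ‖G k‖ ^ 2 := by
  have h1 := sq_expand J G (fun k => σ * k) M hM
  have h2 : ∑ i ∈ J, ∑ j ∈ J, G i * (starRingEnd ℂ) (G j) * (if (M : ℤ) ∣ σ * i - σ * j then (M : ℂ) else 0) =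
      ∑ i ∈ J, (M : ℂ) * ((‖G i‖ ^ 2 : ℝ) : ℂ) := by
    apply sum_congr rfl
    intro i hi
    rw [sum_eq_single i]
    · rw [sub_self, if_pos (dvd_zero _), Complex.mul_conj']
      push_cast
      ring
    · intro j hj hne
      rw [if_neg, mul_zero]
      intro hd
      have h3 : (M : ℤ) ∣ i - j := by
        rcases hσ with h | h
        · rw [h] at hd; simpa using hd
        · rw [h] at hd
          have : (-1 : ℤ) * i - -1 * j = -(i - j) := by ring
          rw [this] at hd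
          exact (dvd_neg).1 hd
      exact hne (hJ i hi j hj h3).symm
    · intro h; exact absurd hi h
  rw [h2, ← mul_sum] at h1
  have h3 : (((∑ t ∈ range M, ‖∑ k ∈ J, G k * ee ((t : ℝ) * (((σ * k : ℤ) : ℝ) / M))‖ ^ 2 : ℝ)) : ℂ) =
      ((M * ∑ k ∈ J, ‖G k‖ ^ 2 : ℝ) : ℂ) := by
    rw [h1]
    push_cast
    rfl
  exact_mod_cast h3

set_option maxHeartbeats 4000000 in
/-- `J` is the set of the shifts, `N1` the set of the arguments of `f` -/
theorem core2 {ι : Type*} (I : Finset ι) (s : ι → ℤ) (M : ℕ) (hM1 : 1 ≤ M) (J N1 : Finset ℤ)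
    (hJN : ∀ k ∈ J, ∀ k' ∈ J, ∀ n ∈ N1, ∀ n' ∈ N1, |(k - k') + (n' - n)| < M)
    (hJ : ∀ k ∈ J, ∀ k' ∈ J, |k - k'| < M) (hN1 : ∀ n ∈ N1, ∀ n' ∈ N1, |n - n'| < M)
    (f G : ℤ → ℂ) (η δ W V : ℝ) (hη : 0 ≤ η)
    (hf : ∀ α : ℝ, ‖∑ n ∈ N1, f n * ee ((n : ℝ) * α)‖ ≤ δ)
    (hW : ∑ n ∈ N1, ‖f n‖ ^ 2 ≤ W) (hV : ∑ k ∈ J, ‖G k‖ ^ 2 ≤ V) :
    ∑ i ∈ I, ‖∑ k ∈ J, if s i + k ∈ N1 then G k * f (s i + k) else 0‖ ^ 2 ≤
      η * I.card * W * V + (spec M I s η).card * I.card * δ ^ 2 * V / M := by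
  classical
  have : NeZero M := ⟨by omega⟩
  have hM0 : (0 : ℝ) < M := by exact_mod_cast hM1
  have hδ : 0 ≤ δ := (norm_nonneg _).trans (hf 0)
  have hW0 : 0 ≤ W := (sum_nonneg fun _ _ => by positivity).trans hW
  have hV0 : 0 ≤ V := (sum_nonneg fun _ _ => by positivity).trans hV
  obtain ⟨fh, hfh⟩ : ∃ fh : ℕ → ℂ, fh = fun t : ℕ => ∑ n ∈ N1, f n * ee ((t : ℝ) * ((((-1 : ℤ) * n : ℤ) : ℝ) / M)) := ⟨_, rfl⟩
  obtain ⟨Gh, hGh⟩ : ∃ Gh : ℕ → ℂ, Gh = fun t : ℕ => ∑ k ∈ J, G k * ee ((t : ℝ) * ((((1 : ℤ) * k : ℤ) : ℝ) / M)) := ⟨_, rfl⟩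
  -- the periodic version
  obtain ⟨P, hP⟩ : ∃ P : ℕ → ℂ, P = fun t => fh t * Gh t := ⟨_, rfl⟩
  have hper : ∀ v : ℤ, ∑ t ∈ range M, P t * ee ((t : ℝ) * ((v : ℝ) / M)) =
      M * ∑ k ∈ J, ∑ n ∈ N1, if (M : ℤ) ∣ k + v - n then G k * f n else 0 := by
    intro v
    have h1 : ∀ t ∈ range M, P t * ee ((t : ℝ) * ((v : ℝ) / M)) = ∑ k ∈ J, ∑ n ∈ N1,
        G k * f n * ee ((t : ℝ) * (((k + v - n : ℤ) : ℝ) / M)) := by
      intro t _
      rw [hP, hfh, hGh]
      simp only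
      rw [mul_comm (∑ n ∈ N1, _) (∑ k ∈ J, _), sum_mul_sum, sum_mul]
      apply sum_congr rfl
      intro k _
      rw [sum_mul]
      apply sum_congr rfl
      intro n _
      have h2 : ee ((t : ℝ) * (((k + v - n : ℤ) : ℝ) / M)) =
          ee ((t : ℝ) * ((((1 : ℤ) * k : ℤ) : ℝ) / M)) * ee ((t : ℝ) * ((((-1 : ℤ) * n : ℤ) : ℝ) / M)) * ee ((t : ℝ) * ((v : ℝ) / M)) := by
        rw [← ee_add, ← ee_add]
        congr 1
        push_cast
        ring
      rw [h2]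
      ring
    rw [sum_congr rfl h1, sum_comm, mul_sum]
    apply sum_congr rfl
    intro k _
    rw [sum_comm, mul_sum]
    apply sum_congr rfl
    intro n _
    rw [← mul_sum, orth M hM1]
    split_ifs <;> ring
  -- comparison
  have hcomp : ∀ v : ℤ, ‖∑ k ∈ J, if v + k ∈ N1 then G k * f (v + k) else 0‖ ≤ ‖∑ t ∈ range M, P t * ee ((t : ℝ) * ((v : ℝ) / M))‖ / M := by
    intro v
    have hT : (∑ k ∈ J, if v + k ∈ N1 then G k * f (v + k) else 0) = ∑ k ∈ J, ∑ n ∈ N1, if n = k + v then G k * f n else 0 := by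
      apply sum_congr rfl
      intro k _
      have h3 : ∀ n ∈ N1, (if n = k + v then G k * f n else 0) = if n = v + k then G k * f (v + k) else 0 := by
        intro n _
        by_cases h : n = k + v
        · rw [if_pos h, if_pos (by rw [h]; ring), h, add_comm k v]
        · rw [if_neg h, if_neg (fun h2 => h (by rw [h2]; ring))]
      rw [sum_congr rfl h3, sum_ite_eq']
    by_cases hex : ∃ k ∈ J, ∃ n ∈ N1, n = k + v
    · obtain ⟨k0, hk0, n0, hn0, h0⟩ := hex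
      rw [hper v, norm_mul, Complex.norm_natCast, mul_div_cancel_left₀ _ hM0.ne', hT]
      apply le_of_eq
      congr 1
      apply sum_congr rfl
      intro k hk
      apply sum_congr rfl
      intro n hn
      by_cases h : n = k + v
      · rw [if_pos h, if_pos]
        rw [show k + v - n = 0 by omega]
        exact dvd_zero _
      · rw [if_neg h, if_neg]
        intro hd
        apply h
        have h1 : |k + v - n| < M := by
          have h2 := hJN k hk k0 hk0 n hn n0 hn0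
          rwa [show k - k0 + (n0 - n) = k + v - n by omega] at h2
        have := Int.eq_zero_of_abs_lt_dvd hd h1
        omega
    · have h0 : (∑ k ∈ J, if v + k ∈ N1 then G k * f (v + k) else 0) = 0 := by
        rw [hT]
        apply sum_eq_zero
        intro k hk
        apply sum_eq_zero
        intro n hn
        rw [if_neg]
        intro h
        exact hex ⟨k, hk, n, hn, h⟩
      rw [h0, norm_zero]
      positivity
  -- expansion of the square
  obtain ⟨R, hR⟩ : ∃ R : ℤ → ℂ, R = fun k : ℤ => ∑ i ∈ I, ee ((k : ℝ) * ((s i : ℝ) / M)) := ⟨_, rfl⟩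
  have hRx : ∀ k, ‖R k‖ ≤ I.card := by
    intro k
    rw [hR]
    refine (norm_sum_le _ _).trans ?_
    have : ∀ i ∈ I, ‖ee ((k : ℝ) * ((s i : ℝ) / M))‖ ≤ 1 := by
      intro i _
      rw [norm_ee]
    refine (sum_le_sum this).trans ?_
    rw [sum_const, nsmul_eq_mul, mul_one]
  have hRper : ∀ k j : ℤ, (M : ℤ) ∣ k - j → R k = R j := by
    intro k j h
    rw [hR]
    apply sum_congr rfl
    intro i _
    exact ee_per M hM1 _ _ _ h
  have hsq : (((∑ i ∈ I, ‖∑ t ∈ range M, P t * ee ((t : ℝ) * ((s i : ℝ) / M))‖ ^ 2 : ℝ)) : ℂ) =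
      ∑ t ∈ range M, ∑ t' ∈ range M, P t * (starRingEnd ℂ) (P t') * R ((t : ℤ) - t') := by
    push_cast
    have h1 : ∀ i ∈ I, (‖∑ t ∈ range M, P t * ee ((t : ℝ) * ((s i : ℝ) / M))‖ : ℂ) ^ 2 =
        ∑ t ∈ range M, ∑ t' ∈ range M, P t * (starRingEnd ℂ) (P t') * ee ((((t : ℤ) - t' : ℤ) : ℝ) * ((s i : ℝ) / M)) := by
      intro i _
      rw [← Complex.mul_conj', map_sum, sum_mul_sum]
      apply sum_congr rfl
      intro t _
      apply sum_congr rfl
      intro t' _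
      rw [map_mul, conj_ee]
      have h2 : ee ((((t : ℤ) - t' : ℤ) : ℝ) * ((s i : ℝ) / M)) = ee ((t : ℝ) * ((s i : ℝ) / M)) * ee (-((t' : ℝ) * ((s i : ℝ) / M))) := by
        rw [← ee_add]
        congr 1
        push_cast
        ring
      rw [h2]
      ring
    rw [sum_congr rfl h1, sum_comm]
    apply sum_congr rfl
    intro t _
    rw [sum_comm]
    apply sum_congr rfl
    intro t' _
    rw [← mul_sum, hR]
  have hsq2 : ∑ i ∈ I, ‖∑ t ∈ range M, P t * ee ((t : ℝ) * ((s i : ℝ) / M))‖ ^ 2 ≤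
      ∑ t ∈ range M, ∑ t' ∈ range M, ‖P t‖ * ‖P t'‖ * ‖R ((t : ℤ) - t')‖ := by
    have h1 : ∑ i ∈ I, ‖∑ t ∈ range M, P t * ee ((t : ℝ) * ((s i : ℝ) / M))‖ ^ 2 =
        ‖∑ t ∈ range M, ∑ t' ∈ range M, P t * (starRingEnd ℂ) (P t') * R ((t : ℤ) - t')‖ := by
      rw [← hsq, Complex.norm_real, Real.norm_of_nonneg (sum_nonneg fun _ _ => by positivity)]
    rw [h1]
    refine (norm_sum_le _ _).trans (sum_le_sum fun t _ => ?_)
    refine (norm_sum_le _ _).trans (sum_le_sum fun t' _ => ?_)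
    rw [norm_mul, norm_mul, RCLike.norm_conj]
  -- passage to the residues modulo M
  have hz : ∑ t ∈ range M, ∑ t' ∈ range M, ‖P t‖ * ‖P t'‖ * ‖R ((t : ℤ) - t')‖ =
      ∑ t : ZMod M, ∑ t' : ZMod M, ‖P t.val‖ * ‖P t'.val‖ * ‖R ((t - t').val : ℤ)‖ := by
    rw [← sum_zmod M (fun t => ∑ t' ∈ range M, ‖P t‖ * ‖P t'‖ * ‖R ((t : ℤ) - t')‖)]
    apply sum_congr rfl
    intro t _
    rw [← sum_zmod M (fun t' => ‖P t.val‖ * ‖P t'‖ * ‖R ((t.val : ℤ) - t')‖)]
    apply sum_congr rfl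
    intro t' _
    congr 2
    apply hRper
    rw [← ZMod.intCast_eq_intCast_iff_dvd_sub]
    push_cast
    rw [ZMod.natCast_zmod_val, ZMod.natCast_zmod_val, ZMod.natCast_zmod_val]
  obtain ⟨S, hS⟩ : ∃ S : Finset (ZMod M), S = (spec M I s η).image (fun t : ℕ => (t : ZMod M)) := ⟨_, rfl⟩
  have hScard : S.card ≤ (spec M I s η).card := by rw [hS]; exact card_image_le
  have hconv := conv_le M (fun t => ‖P t.val‖) (fun t => norm_nonneg _) (fun d => ‖R (d.val : ℤ)‖) I.card (η * I.card)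
    (Nat.cast_nonneg _) (fun d => hRx _) S (by
      intro d hd
      by_contra hcon
      push Not at hcon
      apply hd
      rw [hS, mem_image]
      refine ⟨d.val, ?_, ZMod.natCast_zmod_val d⟩
      unfold spec
      rw [mem_filter, mem_range]
      refine ⟨ZMod.val_lt d, ?_⟩
      rw [hR] at hcon
      exact_mod_cast hcon) (by positivity)
  -- the norms
  have hJinj : ∀ k ∈ J, ∀ k' ∈ J, (M : ℤ) ∣ k - k' → k = k' := by
    intro k hk k' hk' hd
    have := Int.eq_zero_of_abs_lt_dvd hd (hJ k hk k' hk')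
    omega
  have hNinj : ∀ k ∈ N1, ∀ k' ∈ N1, (M : ℤ) ∣ k - k' → k = k' := by
    intro k hk k' hk' hd
    have := Int.eq_zero_of_abs_lt_dvd hd (hN1 k hk k' hk')
    omega
  have hGM : ∑ t ∈ range M, ‖Gh t‖ ^ 2 ≤ M * V := by
    have h4 := parseval_Z J G M hM1 hJinj 1 (Or.inl rfl)
    rw [hGh]
    simp only
    rw [h4]
    exact mul_le_mul_of_nonneg_left hV hM0.le
  have hF1 : (∑ t : ZMod M, ‖P t.val‖) ^ 2 ≤ (M : ℝ) ^ 2 * (W * V) := by
    rw [sum_zmod M (fun t => ‖P t‖)]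
    have h1 : ∀ t ∈ range M, ‖P t‖ = ‖fh t‖ * ‖Gh t‖ := by
      intro t _
      rw [hP]
      exact norm_mul _ _
    rw [sum_congr rfl h1]
    have h2 := sum_mul_sq_le_sq_mul_sq (range M) (fun t => ‖fh t‖) (fun t => ‖Gh t‖)
    have h3 : ∑ t ∈ range M, ‖fh t‖ ^ 2 ≤ M * W := by
      have h3 := parseval_Z N1 f M hM1 hNinj (-1) (Or.inr rfl)
      rw [hfh]
      simp only
      rw [h3]
      exact mul_le_mul_of_nonneg_left hW hM0.le
    refine h2.trans ((mul_le_mul h3 hGM (sum_nonneg fun _ _ => by positivity) (by positivity)).trans (le_of_eq ?_))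
    ring
  have hF2 : ∑ t : ZMod M, ‖P t.val‖ ^ 2 ≤ δ ^ 2 * (M * V) := by
    rw [sum_zmod M (fun t => ‖P t‖ ^ 2)]
    have h1 : ∀ t ∈ range M, ‖P t‖ ^ 2 ≤ δ ^ 2 * ‖Gh t‖ ^ 2 := by
      intro t _
      rw [hP]
      simp only
      rw [norm_mul, mul_pow]
      apply mul_le_mul_of_nonneg_right _ (by positivity)
      apply pow_le_pow_left₀ (norm_nonneg _)
      have h1 : fh t = ∑ n ∈ N1, f n * ee ((n : ℝ) * (-(t : ℝ) / M)) := by
        rw [hfh]
        apply sum_congr rfl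
        intro n _
        congr 2
        push_cast
        ring
      rw [h1]
      exact hf _
    refine (sum_le_sum h1).trans ?_
    rw [← mul_sum]
    exact mul_le_mul_of_nonneg_left hGM (by positivity)
  -- conclusion
  have hx0 : (0 : ℝ) ≤ I.card := Nat.cast_nonneg _
  have hfin : ∑ i ∈ I, ‖∑ t ∈ range M, P t * ee ((t : ℝ) * ((s i : ℝ) / M))‖ ^ 2 ≤
      η * I.card * ((M : ℝ) ^ 2 * (W * V)) + (spec M I s η).card * (I.card * (δ ^ 2 * (M * V))) := by
    refine hsq2.trans ?_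
    rw [hz]
    refine hconv.trans ?_
    apply add_le_add
    · exact mul_le_mul_of_nonneg_left hF1 (by positivity)
    · apply mul_le_mul (by exact_mod_cast hScard) _ _ (Nat.cast_nonneg _)
      · exact mul_le_mul_of_nonneg_left hF2 hx0
      · exact mul_nonneg hx0 (sum_nonneg fun _ _ => by positivity)
  calc ∑ i ∈ I, ‖∑ k ∈ J, if s i + k ∈ N1 then G k * f (s i + k) else 0‖ ^ 2
      ≤ ∑ i ∈ I, (‖∑ t ∈ range M, P t * ee ((t : ℝ) * ((s i : ℝ) / M))‖ / M) ^ 2 :=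
        sum_le_sum fun i _ => pow_le_pow_left₀ (norm_nonneg _) (hcomp _) _
    _ = (∑ i ∈ I, ‖∑ t ∈ range M, P t * ee ((t : ℝ) * ((s i : ℝ) / M))‖ ^ 2) / (M : ℝ) ^ 2 := by
        rw [sum_div]
        exact sum_congr rfl fun i _ => div_pow _ _ _
    _ ≤ (η * I.card * ((M : ℝ) ^ 2 * (W * V)) + (spec M I s η).card * (I.card * (δ ^ 2 * (M * V)))) / (M : ℝ) ^ 2 :=
        div_le_div_of_nonneg_right hfin (by positivity)
    _ = _ := by
        field_simp

end Pool.Agent.K1H51.LP
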