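import Pool.Agent.K1H51.LP.Grid

set_option autoImplicit false

/-! Level of distribution `N / log ^ K N` for families with a small large spectrum. -/

namespace Pool.Agent.K1H51.LP

open Finset Pool.Agent.H373R2.T7
open Pool.Agent.H807R2.Dav
open Pool.Agent.W93.LV (log1_nonneg Fu tau_sq)

set_option maxHeartbeats 4000000 in
lemma step_alg (L N b lX nX Q Y : ℝ) (T U : ℕ) (hN : 0 < N) (hb : 1 ≤ b) (hL : 1024 * b ≤ L) (hlX0 : 0 ≤ lX) (hlX : 1 + lX ≤ 2 * L)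
    (hnX0 : 0 ≤ nX) (hnX : nX ≤ 4 * L) (hQ0 : 0 ≤ Q) (hQ : Q ≤ N / L ^ (T + U + 2)) (hY0 : 0 ≤ Y) (hY : Y ≤ 2 * (N / L ^ (2 * T + 2 * U + 7))) :
    L ^ T * (lX * (Q + (L ^ (T + U + 5) * Y + 2 * (b * N * (1 + lX) ^ 3) / L ^ (T + U + 5))) + Y * (nX * (1 + lX))) ≤ N / L ^ U / 4 := by
  have hb0 : 0 < b := by linarith
  have hL1 : 1024 ≤ L := by linarith
  have hL0 : 0 < L := by linarith
  have hL1' : 1 ≤ L := by linarith
  obtain ⟨t, ht⟩ : ∃ t, t = L ^ T := ⟨_, rfl⟩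
  obtain ⟨u, hu⟩ : ∃ u, u = L ^ U := ⟨_, rfl⟩
  have ht1 : 1 ≤ t := by rw [ht]; exact one_le_pow₀ hL1'
  have hu1 : 1 ≤ u := by rw [hu]; exact one_le_pow₀ hL1'
  have ht0 : 0 < t := by linarith
  have hu0 : 0 < u := by linarith
  have e1 : L ^ (T + U + 2) = t * u * L ^ 2 := by rw [ht, hu]; ring
  have e2 : L ^ (2 * T + 2 * U + 7) = t ^ 2 * u ^ 2 * L ^ 7 := by rw [ht, hu]; ring
  have e3 : L ^ (T + U + 5) = t * u * L ^ 5 := by rw [ht, hu]; ring
  rw [e1] at hQ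
  rw [e2] at hY
  rw [e3, ← ht, ← hu]
  have hlX2 : lX ≤ 2 * L := by linarith
  obtain ⟨G, hG⟩ : ∃ G, G = N / u / 16 := ⟨_, rfl⟩
  have hG0 : 0 < G := by rw [hG]; positivity
  have s1 : t * (lX * Q) ≤ G := by
    calc t * (lX * Q) ≤ t * ((2 * L) * (N / (t * u * L ^ 2))) := by gcongr
      _ = (32 / L) * G := by rw [hG]; field_simp; norm_num
      _ ≤ 1 * G := mul_le_mul_of_nonneg_right (by rw [div_le_one hL0]; linarith) hG0.le
      _ = G := one_mul G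
  have s2 : t * (lX * ((t * u * L ^ 5) * Y)) ≤ G := by
    calc t * (lX * ((t * u * L ^ 5) * Y)) ≤ t * ((2 * L) * ((t * u * L ^ 5) * (2 * (N / (t ^ 2 * u ^ 2 * L ^ 7))))) := by gcongr
      _ = (64 / L) * G := by rw [hG]; field_simp; norm_num
      _ ≤ 1 * G := mul_le_mul_of_nonneg_right (by rw [div_le_one hL0]; linarith) hG0.le
      _ = G := one_mul G
  have s3 : t * (lX * (2 * (b * N * (1 + lX) ^ 3) / (t * u * L ^ 5))) ≤ G := by
    calc t * (lX * (2 * (b * N * (1 + lX) ^ 3) / (t * u * L ^ 5))) ≤ t * ((2 * L) * (2 * (b * N * (2 * L) ^ 3) / (t * u * L ^ 5))) := by gcongr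
      _ = (512 * b / L) * G := by rw [hG]; field_simp; norm_num
      _ ≤ 1 * G := mul_le_mul_of_nonneg_right (by rw [div_le_one hL0]; linarith) hG0.le
      _ = G := one_mul G
  have s4 : t * (Y * (nX * (1 + lX))) ≤ G := by
    calc t * (Y * (nX * (1 + lX))) ≤ t * ((2 * (N / (t ^ 2 * u ^ 2 * L ^ 7))) * ((4 * L) * (2 * L))) := by gcongr
      _ = (256 / (t * u * L ^ 5)) * G := by rw [hG]; field_simp; norm_num
      _ ≤ 1 * G := by
          apply mul_le_mul_of_nonneg_right _ hG0.le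
          rw [div_le_one (by positivity)]
          have h1 : L ≤ L ^ 5 := by
            calc L = L ^ 1 := (pow_one L).symm
              _ ≤ L ^ 5 := pow_le_pow_right₀ hL1' (by norm_num)
          calc (256 : ℝ) ≤ L := by linarith
            _ ≤ L ^ 5 := h1
            _ = 1 * 1 * L ^ 5 := by ring
            _ ≤ t * u * L ^ 5 := by gcongr
      _ = G := one_mul G
  have e4 : t * (lX * (Q + ((t * u * L ^ 5) * Y + 2 * (b * N * (1 + lX) ^ 3) / (t * u * L ^ 5))) + Y * (nX * (1 + lX))) =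
      t * (lX * Q) + t * (lX * ((t * u * L ^ 5) * Y)) + t * (lX * (2 * (b * N * (1 + lX) ^ 3) / (t * u * L ^ 5))) + t * (Y * (nX * (1 + lX))) := by ring
  rw [e4]
  have e5 : N / u / 4 = 4 * G := by rw [hG]; ring
  linarith

set_option maxHeartbeats 4000000 in
lemma point_alg (L N b lX nX Q y c R : ℝ) (T U E0 : ℕ) (hN : 0 < N) (hb : 1 ≤ b) (hL : 1024 * b ≤ L) (hlX0 : 0 ≤ lX) (hlX : 1 + lX ≤ 2 * L)
    (hnX0 : 0 ≤ nX) (hnX : nX ≤ 4 * L) (hQ0 : 0 ≤ Q) (hQ : Q ≤ N / L ^ (T + U + E0 + 3)) (hy0 : 0 ≤ y) (hy : y ≤ b * N)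
    (hc0 : 0 ≤ c) (hc : c ≤ L) (hE0 : T + U + 4 ≤ E0) (hR1 : L ^ E0 ≤ R) (hR2 : R ≤ L ^ (E0 + 1)) :
    L ^ T * (Q * (lX + 2 * (c * R)) + y * (nX * (1 + lX) ^ 2 / R)) ≤ N / L ^ U / 4 := by
  have hb0 : 0 < b := by linarith
  have hL1 : 1024 ≤ L := by linarith
  have hL0 : 0 < L := by linarith
  have hL1' : 1 ≤ L := by linarith
  obtain ⟨t, ht⟩ : ∃ t, t = L ^ T := ⟨_, rfl⟩
  obtain ⟨u, hu⟩ : ∃ u, u = L ^ U := ⟨_, rfl⟩
  obtain ⟨e, he⟩ : ∃ e, e = L ^ E0 := ⟨_, rfl⟩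
  have ht1 : 1 ≤ t := by rw [ht]; exact one_le_pow₀ hL1'
  have hu1 : 1 ≤ u := by rw [hu]; exact one_le_pow₀ hL1'
  have he1 : 1 ≤ e := by rw [he]; exact one_le_pow₀ hL1'
  have ht0 : 0 < t := by linarith
  have hu0 : 0 < u := by linarith
  have he0 : 0 < e := by linarith
  have e1 : L ^ (T + U + E0 + 3) = t * u * e * L ^ 3 := by rw [ht, hu, he]; ring
  have e2 : L ^ (E0 + 1) = e * L := by rw [he, pow_succ]
  have e3 : t * u * L ^ 4 ≤ e := by
    rw [ht, hu, he, ← pow_add, ← pow_add]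
    exact pow_le_pow_right₀ hL1' hE0
  have hR0 : 0 < R := lt_of_lt_of_le (by rw [← he]; exact he0) hR1
  rw [e1] at hQ
  rw [e2] at hR2
  rw [← he] at hR1
  rw [← ht, ← hu]
  obtain ⟨G, hG⟩ : ∃ G, G = N / u / 8 := ⟨_, rfl⟩
  have hG0 : 0 < G := by rw [hG]; positivity
  have s1 : t * (Q * (lX + 2 * (c * R))) ≤ G := by
    have h1 : lX + 2 * (c * R) ≤ 4 * L * (e * L) := by
      have h2 : c * R ≤ L * (e * L) := by gcongr
      have h3 : lX ≤ 2 * (L * (e * L)) := by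
        have h4 : 1 ≤ e * L := by nlinarith
        have h5 : L ≤ L * (e * L) := le_mul_of_one_le_right hL0.le h4
        linarith
      linarith
    calc t * (Q * (lX + 2 * (c * R))) ≤ t * ((N / (t * u * e * L ^ 3)) * (4 * L * (e * L))) := by gcongr
      _ = (32 / L) * G := by rw [hG]; field_simp; norm_num
      _ ≤ 1 * G := mul_le_mul_of_nonneg_right (by rw [div_le_one hL0]; linarith) hG0.le
      _ = G := one_mul G
  have s2 : t * (y * (nX * (1 + lX) ^ 2 / R)) ≤ G := by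
    have hR3 : t * u * L ^ 4 ≤ R := e3.trans hR1
    calc t * (y * (nX * (1 + lX) ^ 2 / R)) ≤ t * ((b * N) * ((4 * L) * (2 * L) ^ 2 / (t * u * L ^ 4))) := by gcongr
      _ = (128 * b / L) * G := by rw [hG]; field_simp; norm_num
      _ ≤ 1 * G := mul_le_mul_of_nonneg_right (by rw [div_le_one hL0]; linarith) hG0.le
      _ = G := one_mul G
  have e4 : N / u / 4 = 2 * G := by rw [hG]; ring
  rw [mul_add, e4]
  linarith

open Classical in
set_option maxHeartbeats 4000000 in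
theorem crit2 (B T U : ℕ) : ∃ U1 : ℕ, ∀ K : ℕ, ∃ K' N₀ : ℕ, ∀ N : ℕ, N₀ ≤ N → ∀ M : ℕ, 3 * ((B + 1) * N) ≤ M →
    ∀ {ι : Type} (I : Finset ι) (s : ι → ℤ),
    ((spec M I s (1 / Real.log N ^ U1)).card : ℝ) * N ≤ Real.log N ^ K * M →
    ∀ lam : ℕ → ℝ, (∀ q, |lam q| ≤ Real.log N ^ T) → ∀ Q : ℕ, (Q : ℝ) ≤ N / Real.log N ^ K' →
    ((I.filter (fun i => (0 < s i ∧ s i ≤ B * N) ∧ ∃ y ≤ B * N, N / Real.log N ^ U < |DD lam Q y (s i).toNat|)).card : ℝ) ≤
      I.card / Real.log N ^ U := by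
  obtain ⟨W, hW⟩ : ∃ W, W = 2 * T + 2 * U + 7 := ⟨_, rfl⟩
  obtain ⟨V, hV⟩ : ∃ V, V = 2 * U + W + 1 := ⟨_, rfl⟩
  refine ⟨2 * T + 2 * V + 16, fun K => ?_⟩
  obtain ⟨E0, hE0, m1, h1⟩ := mom_num B T V K (T + U + 4)
  obtain ⟨m2, h2⟩ := cR_small (E0 + 1)
  obtain ⟨m3, h3⟩ := ev_L' (1024 * ((B : ℝ) + 1) + Real.log ((B : ℝ) + 1) + 1)
  obtain ⟨m4, h4⟩ := ev_log' W 1
  refine ⟨T + U + E0 + 3, m1 + m2 + m3 + m4 + 4, fun N hN M hM ι I s hspec lam hlam Q hQ => ?_⟩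
  have h1 := h1 N (by omega) M hM I s hspec
  have h2 := h2 N (by omega)
  have h3 := h3 N (by omega)
  have h4 := h4 N (by omega)
  have hN4 : 4 ≤ N := by omega
  have hN0 : (0 : ℝ) < N := by exact_mod_cast (by omega : 0 < N)
  obtain ⟨L, hL⟩ : ∃ L, L = Real.log (N : ℝ) := ⟨_, rfl⟩
  rw [← hL] at h1 h2 h3 h4 hlam hQ ⊢
  obtain ⟨b, hb⟩ : ∃ b : ℝ, b = (B : ℝ) + 1 := ⟨_, rfl⟩
  rw [← hb] at h3
  have hb1 : 1 ≤ b := by rw [hb]; linarith [(Nat.cast_nonneg B : (0 : ℝ) ≤ B)]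
  have hb0 : 0 < b := by linarith
  have hlb : 0 ≤ Real.log b := Real.log_nonneg hb1
  have hLb : 1024 * b ≤ L := by linarith
  have hLlb : 1 + Real.log b ≤ L := by linarith
  have hL1 : 1024 ≤ L := by linarith
  have hL0 : 0 < L := by linarith
  have hL1' : 1 ≤ L := by linarith
  obtain ⟨X, hX⟩ : ∃ X : ℕ, X = (B + 1) * N := ⟨_, rfl⟩
  rw [← hX] at hM h1
  have hXr : (X : ℝ) = b * N := by rw [hX, hb]; push_cast; ring
  have hX1 : 1 ≤ X := by
    rw [hX]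
    exact Nat.mul_pos (by omega) (by omega)
  have hNX : N ≤ X := by rw [hX]; exact Nat.le_mul_of_pos_left _ (by omega)
  have hBX : B * N ≤ X := by rw [hX]; exact Nat.mul_le_mul_right _ (by omega)
  have hlogX : Real.log X = Real.log b + L := by rw [hXr, Real.log_mul hb0.ne' hN0.ne', hL]
  have hlX : 1 + Real.log X ≤ 2 * L := by rw [hlogX]; linarith
  have hlX0 : 0 ≤ Real.log (X : ℝ) := Real.log_natCast_nonneg X
  have hnX := nlog X L hX1 hL1' (by linarith)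
  have hnX0 : (0 : ℝ) ≤ (Nat.log 2 X : ℝ) + 1 := by positivity
  have hQ0 : (0 : ℝ) ≤ Q := Nat.cast_nonneg Q
  have hQ1 : (Q : ℝ) ≤ N / L ^ (T + U + 2) := by
    refine hQ.trans ?_
    apply div_le_div_of_nonneg_left hN0.le (by positivity)
    exact pow_le_pow_right₀ hL1' (by omega)
  have hQN : Q ≤ N := by
    have : (Q : ℝ) ≤ N := by
      refine hQ.trans ?_
      rw [div_le_iff₀ (by positivity)]
      exact le_mul_of_one_le_right hN0.le (one_le_pow₀ hL1')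
    exact_mod_cast this
  -- R
  obtain ⟨R, hR⟩ : ∃ R : ℕ, R = ⌈L ^ E0⌉₊ := ⟨_, rfl⟩
  have hLE0 : 1 ≤ L ^ E0 := one_le_pow₀ hL1'
  have hR1 : L ^ E0 ≤ R := by rw [hR]; exact Nat.le_ceil _
  have hR2 : (R : ℝ) ≤ L ^ (E0 + 1) := by
    have q1 : (R : ℝ) < L ^ E0 + 1 := by rw [hR]; exact Nat.ceil_lt_add_one (by positivity)
    rw [pow_succ]
    nlinarith
  have hRn : 1 ≤ R := by
    have : (1 : ℝ) ≤ R := hLE0.trans hR1
    exact_mod_cast this
  have hcR := h2 R hR2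
  have h1 := h1 R hR lam hlam Q
  -- the grid
  obtain ⟨Y, hY⟩ : ∃ Y : ℕ, Y = ⌈(N : ℝ) / L ^ W⌉₊ := ⟨_, rfl⟩
  have hY1 : (N : ℝ) / L ^ W ≤ Y := by rw [hY]; exact Nat.le_ceil _
  have hLW0 : 0 < L ^ W := by positivity
  have hsN : √(N : ℝ) ≤ N / L ^ W := by
    rw [le_div_iff₀ hLW0]
    calc √(N : ℝ) * L ^ W ≤ √(N : ℝ) * √(N : ℝ) := mul_le_mul_of_nonneg_left (by linarith) (Real.sqrt_nonneg _)
      _ = N := Real.mul_self_sqrt hN0.le
  have hs1 : 1 ≤ √(N : ℝ) := by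
    rw [Real.one_le_sqrt]
    exact_mod_cast (by omega : 1 ≤ N)
  have hY2 : (Y : ℝ) ≤ 2 * (N / L ^ W) := by
    have q1 : (Y : ℝ) < N / L ^ W + 1 := by rw [hY]; exact Nat.ceil_lt_add_one (by positivity)
    linarith
  have hYn : 1 ≤ Y := by
    have : (1 : ℝ) ≤ Y := by linarith
    exact_mod_cast this
  obtain ⟨J, hJ⟩ : ∃ J : ℕ, J = B * N / Y := ⟨_, rfl⟩
  have hJr : (J : ℝ) ≤ B * L ^ W := by
    rw [hJ]
    refine Nat.cast_div_le.trans ?_
    rw [div_le_iff₀ (by linarith)]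
    push_cast
    calc (B : ℝ) * N = B * L ^ W * (N / L ^ W) := by field_simp
      _ ≤ B * L ^ W * Y := mul_le_mul_of_nonneg_left hY1 (by positivity)
  -- the bad sets
  obtain ⟨E, hE⟩ : ∃ E : ℕ → Finset ι, E = fun j => (I.filter (fun i => 1 ≤ s i ∧ s i ≤ ((X : ℕ) : ℤ))).filter
      (fun i => N / L ^ U / 2 < ∑ δ ∈ (s i).toNat.divisors, |TT R lam Q (j * Y) δ (s i).toNat|) := ⟨_, rfl⟩
  have hEc : ∀ j ∈ Icc 1 J, ((E j).card : ℝ) ≤ I.card * (2 * L ^ U / L ^ V) := by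
    intro j hj
    rw [mem_Icc] at hj
    have hjY : j * Y ≤ B * N := by
      calc j * Y ≤ J * Y := Nat.mul_le_mul_right _ hj.2
        _ ≤ B * N := by rw [hJ]; exact Nat.div_mul_le_self _ _
    have g1 := h1 (j * Y) (by
      refine hsN.trans (hY1.trans ?_)
      exact_mod_cast Nat.le_mul_of_pos_left Y (by omega)) (hjY.trans hBX)
    have g2 : ((E j).card : ℝ) * (N / L ^ U / 2) ≤ ∑ i ∈ E j, ∑ δ ∈ (s i).toNat.divisors, |TT R lam Q (j * Y) δ (s i).toNat| := by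
      rw [← nsmul_eq_mul]
      apply card_nsmul_le_sum
      intro i hi
      rw [hE] at hi
      exact (mem_filter.1 hi).2.le
    have g3 : ∑ i ∈ E j, ∑ δ ∈ (s i).toNat.divisors, |TT R lam Q (j * Y) δ (s i).toNat| ≤
        ∑ i ∈ I.filter (fun i => 1 ≤ s i ∧ s i ≤ ((X : ℕ) : ℤ)), ∑ δ ∈ (s i).toNat.divisors, |TT R lam Q (j * Y) δ (s i).toNat| := by
      apply sum_le_sum_of_subset_of_nonneg
      · rw [hE]
        exact filter_subset _ _
      · intro _ _ _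
        exact sum_nonneg fun _ _ => abs_nonneg _
    have g4 := g2.trans (g3.trans g1)
    have g5 : 0 < (N : ℝ) / L ^ U / 2 := by positivity
    rw [← le_div_iff₀ g5] at g4
    refine g4.trans (le_of_eq ?_)
    field_simp
  -- the union
  have hcover : I.filter (fun i => (0 < s i ∧ s i ≤ B * N) ∧ ∃ y ≤ B * N, N / L ^ U < |DD lam Q y (s i).toNat|) ⊆
      (Icc 1 J).biUnion E := by
    intro i hi
    rw [mem_filter] at hi
    obtain ⟨hiI, ⟨hs0, hs1'⟩, y, hy, hlt⟩ := hi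
    by_contra hcon
    have hgood : ∀ j ∈ Icc 1 J, ∑ δ ∈ (s i).toNat.divisors, |TT R lam Q (j * Y) δ (s i).toNat| ≤ N / L ^ U / 2 := by
      intro j hj
      by_contra h
      push Not at h
      apply hcon
      rw [mem_biUnion]
      refine ⟨j, hj, ?_⟩
      rw [hE]
      simp only
      rw [mem_filter, mem_filter]
      refine ⟨⟨hiI, by omega, ?_⟩, h⟩
      refine hs1'.trans ?_
      exact_mod_cast hBX
    obtain ⟨a, ha⟩ : ∃ a, a = (s i).toNat := ⟨_, rfl⟩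
    rw [← ha] at hgood hlt
    have ha1 : 1 ≤ a := by omega
    have haX : a ≤ X := by
      have : a ≤ B * N := by
        rw [ha]
        have : s i ≤ ((B * N : ℕ) : ℤ) := by push_cast; exact hs1'
        omega
      omega
    obtain ⟨j, hj⟩ : ∃ j, j = y / Y := ⟨_, rfl⟩
    have hj1 : j * Y ≤ y := by rw [hj]; exact Nat.div_mul_le_self _ _
    have hj2 : y ≤ j * Y + Y := by
      rw [hj]
      have := Nat.lt_div_mul_add hYn (a := y)
      omega
    have hstep := step lam (L ^ T) hlam Q a (j * Y) y X Y (L ^ (T + U + 5)) (by positivity) hj1 hj2 (hy.trans hBX) ha1 haX (hQN.trans hNX)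
    rw [hXr] at hstep
    rw [← hXr] at hstep
    have halg := step_alg L N b (Real.log X) ((Nat.log 2 X : ℝ) + 1) Q Y T U hN0 hb1 hLb hlX0 hlX hnX0 hnX hQ0 hQ1 (Nat.cast_nonneg Y)
      (by rw [← hW]; exact hY2)
    have hstep2 : |DD lam Q y a - DD lam Q (j * Y) a| ≤ N / L ^ U / 4 := by
      refine hstep.trans ?_
      rw [← hXr] at halg
      exact halg
    rcases Nat.eq_zero_or_pos j with h0 | h0
    · rw [h0, zero_mul, DD_zero, sub_zero] at hstep2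
      have : 0 < (N : ℝ) / L ^ U := by positivity
      linarith
    · have hjJ : j ∈ Icc 1 J := by
        rw [mem_Icc]
        refine ⟨h0, ?_⟩
        rw [hj, hJ]
        exact Nat.div_le_div_right hy
      have g1 := hgood j hjJ
      have g2 := pointwise lam (L ^ T) hlam Q (j * Y) a R X hRn ha1 haX (hQN.trans hNX)
      have g3 := point_alg L N b (Real.log X) ((Nat.log 2 X : ℝ) + 1) Q ((j * Y : ℕ) : ℝ) (cR R) R T U E0 hN0 hb1 hLb hlX0 hlX hnX0 hnX hQ0 hQ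
        (Nat.cast_nonneg _) (by rw [← hXr]; exact_mod_cast hj1.trans (hy.trans hBX)) (cR_nonneg R) hcR hE0 hR1 hR2
      have g4 : |DD lam Q (j * Y) a| ≤ 3 / 4 * (N / L ^ U) := by
        refine g2.trans ((add_le_add g1 g3).trans (le_of_eq ?_))
        ring
      have g5 : |DD lam Q y a| ≤ |DD lam Q y a - DD lam Q (j * Y) a| + |DD lam Q (j * Y) a| := by
        have := abs_add_le (DD lam Q y a - DD lam Q (j * Y) a) (DD lam Q (j * Y) a)
        rwa [sub_add_cancel] at this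
      linarith
  have hfin : ((I.filter (fun i => (0 < s i ∧ s i ≤ B * N) ∧ ∃ y ≤ B * N, N / L ^ U < |DD lam Q y (s i).toNat|)).card : ℝ) ≤
      J * (I.card * (2 * L ^ U / L ^ V)) := by
    calc ((I.filter (fun i => (0 < s i ∧ s i ≤ B * N) ∧ ∃ y ≤ B * N, N / L ^ U < |DD lam Q y (s i).toNat|)).card : ℝ)
        ≤ ∑ j ∈ Icc 1 J, ((E j).card : ℝ) := by
          rw [← Nat.cast_sum]
          apply Nat.cast_le.2
          exact (card_le_card hcover).trans card_biUnion_le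
      _ ≤ ∑ _j ∈ Icc 1 J, (I.card * (2 * L ^ U / L ^ V) : ℝ) := sum_le_sum hEc
      _ = J * (I.card * (2 * L ^ U / L ^ V)) := by
          rw [sum_const, Nat.card_Icc, nsmul_eq_mul, Nat.add_sub_cancel]
  refine hfin.trans ?_
  have hVe : L ^ V = L ^ U * L ^ U * L ^ W * L := by
    rw [hV, ← pow_add, ← pow_add, ← pow_succ]
    congr 1
    ring
  calc (J : ℝ) * (I.card * (2 * L ^ U / L ^ V)) ≤ (B * L ^ W) * (I.card * (2 * L ^ U / L ^ V)) := mul_le_mul_of_nonneg_right hJr (by positivity)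
    _ = (2 * B / L) * (I.card / L ^ U) := by
        rw [hVe]
        field_simp
    _ ≤ 1 * (I.card / L ^ U) := by
        apply mul_le_mul_of_nonneg_right _ (by positivity)
        rw [div_le_one hL0]
        have : (B : ℝ) ≤ b := by rw [hb]; linarith
        linarith
    _ = _ := one_mul _

end Pool.Agent.K1H51.LP
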