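import Pool.Agent.K1H51.LP.Pt

set_option autoImplicit false

/-! All the `y`. -/

namespace Pool.Agent.K1H51.LP

open Finset Pool.Agent.H373R2.T7
open Pool.Agent.H807R2.Dav
open Pool.Agent.W93.LV (log1_nonneg Fu tau_sq)

/-- the sum of the weighted discrepancies -/
noncomputable def DD (lam : ℕ → ℝ) (Q y a : ℕ) : ℝ := ∑ q ∈ (Icc 1 Q).filter (fun q => a.Coprime q), lam q *
      (Fu (fun n => ArithmeticFunction.vonMangoldt n) y q a - (y : ℝ) / Nat.totient q)

lemma DD_zero (lam : ℕ → ℝ) (Q a : ℕ) : DD lam Q 0 a = 0 := by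
  unfold DD
  apply sum_eq_zero
  intro q _
  unfold Fu
  simp

lemma sum_dst (X a : ℕ) (ha : 1 ≤ a) (haX : a ≤ X) (g : ℕ → ℝ) (hg : ∀ m, 0 ≤ g m) :
    ∑ n ∈ (Icc 1 X).filter (fun n => n ≠ a), g (dst n a) ≤ 2 * ∑ m ∈ Icc 1 X, g m := by
  have h1 : (Icc 1 X).filter (fun n => n ≠ a) ⊆ (Ico 1 a) ∪ (Ioc a X) := by
    intro n hn
    rw [mem_filter, mem_Icc] at hn
    rw [mem_union, mem_Ico, mem_Ioc]
    omega
  have h2 : Disjoint (Ico 1 a) (Ioc a X) := by
    rw [disjoint_left]
    intro n hn hn2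
    rw [mem_Ico] at hn
    rw [mem_Ioc] at hn2
    omega
  refine (sum_le_sum_of_subset_of_nonneg h1 (fun _ _ _ => hg _)).trans ?_
  rw [sum_union h2, two_mul]
  apply add_le_add
  · have h3 : ∑ n ∈ Ico 1 a, g (dst n a) = ∑ m ∈ (Ico 1 a).image (fun n => a - n), g m := by
      rw [sum_image]
      · apply sum_congr rfl
        intro n hn
        rw [mem_Ico] at hn
        congr 1
        unfold dst
        omega
      · intro n hn n' hn' h
        rw [mem_coe, mem_Ico] at hn hn'
        simp only at h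
        omega
    rw [h3]
    apply sum_le_sum_of_subset_of_nonneg _ (fun _ _ _ => hg _)
    intro m hm
    rw [mem_image] at hm
    obtain ⟨n, hn, rfl⟩ := hm
    rw [mem_Ico] at hn
    rw [mem_Icc]
    omega
  · have h3 : ∑ n ∈ Ioc a X, g (dst n a) = ∑ m ∈ (Ioc a X).image (fun n => n - a), g m := by
      rw [sum_image]
      · apply sum_congr rfl
        intro n hn
        rw [mem_Ioc] at hn
        congr 1
        unfold dst
        omega
      · intro n hn n' hn' h
        rw [mem_coe, mem_Ioc] at hn hn'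
        simp only at h
        omega
    rw [h3]
    apply sum_le_sum_of_subset_of_nonneg _ (fun _ _ _ => hg _)
    intro m hm
    rw [mem_image] at hm
    obtain ⟨n, hn, rfl⟩ := hm
    rw [mem_Ioc] at hn
    rw [mem_Icc]
    omega

lemma step (lam : ℕ → ℝ) (A : ℝ) (hlam : ∀ q, |lam q| ≤ A) (Q a y0 y X Y : ℕ) (H : ℝ) (hH : 0 < H) (h01 : y0 ≤ y) (h02 : y ≤ y0 + Y)
    (hyX : y ≤ X) (ha : 1 ≤ a) (haX : a ≤ X) (hQX : Q ≤ X) :
    |DD lam Q y a - DD lam Q y0 a| ≤ A * (Real.log X * (Q + (H * Y + 2 * (X * (1 + Real.log X) ^ 3) / H)) +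
      Y * ((Nat.log 2 X + 1) * (1 + Real.log X))) := by
  have hA : 0 ≤ A := (abs_nonneg _).trans (hlam 0)
  have hlX : 0 ≤ Real.log (X : ℝ) := Real.log_natCast_nonneg X
  obtain ⟨F, hF⟩ : ∃ F, F = (Icc 1 Q).filter (fun q => a.Coprime q) := ⟨_, rfl⟩
  have hFc : (F.card : ℝ) ≤ Q := by
    have : F.card ≤ Q := by
      rw [hF]
      exact (card_filter_le _ _).trans (by simp)
    exact_mod_cast this
  have hyY : (y : ℝ) - y0 ≤ Y := by
    have : (y : ℝ) ≤ y0 + Y := by exact_mod_cast h02
    linarith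
  have hyy : (0 : ℝ) ≤ (y : ℝ) - y0 := by
    have : (y0 : ℝ) ≤ y := by exact_mod_cast h01
    linarith
  have e1 : DD lam Q y a - DD lam Q y0 a = ∑ q ∈ F, lam q * ∑ n ∈ (Ioc y0 y).filter (fun n => n ≡ a [MOD q]), ArithmeticFunction.vonMangoldt n -
      ∑ q ∈ F, lam q * ((y - y0) * (1 / Nat.totient q)) := by
    unfold DD
    rw [← hF, ← sum_sub_distrib, ← sum_sub_distrib]
    apply sum_congr rfl
    intro q _
    have h1 : Fu (fun n => ArithmeticFunction.vonMangoldt n) y q a = Fu (fun n => ArithmeticFunction.vonMangoldt n) y0 q a +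
        ∑ n ∈ (Ioc y0 y).filter (fun n => n ≡ a [MOD q]), ArithmeticFunction.vonMangoldt n := by
      unfold Fu
      have h2 : Icc 1 y = Icc 1 y0 ∪ Ioc y0 y := by
        ext n
        rw [mem_union, mem_Icc, mem_Icc, mem_Ioc]
        omega
      have h3 : Disjoint (Icc 1 y0) (Ioc y0 y) := by
        rw [disjoint_left]
        intro n hn hn2
        rw [mem_Icc] at hn
        rw [mem_Ioc] at hn2
        omega
      rw [h2, filter_union, sum_union (disjoint_filter_filter h3)]
    rw [h1]
    ring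
  have e2 : ∑ q ∈ F, lam q * ∑ n ∈ (Ioc y0 y).filter (fun n => n ≡ a [MOD q]), ArithmeticFunction.vonMangoldt n =
      ∑ n ∈ Ioc y0 y, ArithmeticFunction.vonMangoldt n * ∑ q ∈ F.filter (fun q => n ≡ a [MOD q]), lam q := by
    have h1 : ∀ q ∈ F, lam q * ∑ n ∈ (Ioc y0 y).filter (fun n => n ≡ a [MOD q]), ArithmeticFunction.vonMangoldt n =
        ∑ n ∈ Ioc y0 y, if n ≡ a [MOD q] then lam q * ArithmeticFunction.vonMangoldt n else 0 := by
      intro q _
      rw [mul_sum, sum_filter]
    rw [sum_congr rfl h1, sum_comm]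
    apply sum_congr rfl
    intro n _
    rw [← sum_filter, mul_sum]
    apply sum_congr rfl
    intro q _
    ring
  have b1 : ∀ n ∈ Ioc y0 y, |ArithmeticFunction.vonMangoldt n * ∑ q ∈ F.filter (fun q => n ≡ a [MOD q]), lam q| ≤
      (A * Real.log X) * (if n = a then (Q : ℝ) else ((dst n a).divisors.card : ℝ)) := by
    intro n hn
    rw [mem_Ioc] at hn
    rw [abs_mul, abs_of_nonneg ArithmeticFunction.vonMangoldt_nonneg]
    have h1 : ArithmeticFunction.vonMangoldt n ≤ Real.log X := by
      refine ArithmeticFunction.vonMangoldt_le_log.trans ?_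
      exact Real.log_le_log (by exact_mod_cast (by omega : 0 < n)) (by exact_mod_cast hn.2.trans hyX)
    have h2 : |∑ q ∈ F.filter (fun q => n ≡ a [MOD q]), lam q| ≤ A * (if n = a then (Q : ℝ) else ((dst n a).divisors.card : ℝ)) := by
      refine (abs_sum_le_sum_abs _ _).trans ((sum_le_sum fun q _ => hlam q).trans ?_)
      rw [sum_const, nsmul_eq_mul, mul_comm]
      apply mul_le_mul_of_nonneg_left _ hA
      split_ifs with h
      · refine le_trans ?_ hFc
        exact_mod_cast card_filter_le _ _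
      · have : (F.filter (fun q => n ≡ a [MOD q])).card ≤ (dst n a).divisors.card := by
          apply card_le_card
          intro q hq
          rw [mem_filter, modEq_dst] at hq
          rw [Nat.mem_divisors]
          exact ⟨hq.2, by have := dst_pos n a h; omega⟩
        exact_mod_cast this
    calc ArithmeticFunction.vonMangoldt n * |∑ q ∈ F.filter (fun q => n ≡ a [MOD q]), lam q| ≤
        Real.log X * (A * (if n = a then (Q : ℝ) else ((dst n a).divisors.card : ℝ))) :=
          mul_le_mul h1 h2 (abs_nonneg _) hlX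
      _ = _ := by ring
  have b2 : |∑ n ∈ Ioc y0 y, ArithmeticFunction.vonMangoldt n * ∑ q ∈ F.filter (fun q => n ≡ a [MOD q]), lam q| ≤
      (A * Real.log X) * (Q + (H * Y + 2 * (X * (1 + Real.log X) ^ 3) / H)) := by
    refine (abs_sum_le_sum_abs _ _).trans ((sum_le_sum b1).trans ?_)
    rw [← mul_sum]
    apply mul_le_mul_of_nonneg_left _ (by positivity)
    have h1 : ∀ n ∈ Ioc y0 y, (if n = a then (Q : ℝ) else ((dst n a).divisors.card : ℝ)) ≤
        (if n = a then (Q : ℝ) else 0) + (H + (if n ≠ a then ((dst n a).divisors.card : ℝ) ^ 2 / H else 0)) := by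
      intro n _
      by_cases h : n = a
      · rw [if_pos h, if_pos h, if_neg (not_not.2 h)]
        linarith
      · rw [if_neg h, if_neg h, if_pos h]
        obtain ⟨t, ht⟩ : ∃ t : ℝ, t = ((dst n a).divisors.card : ℝ) := ⟨_, rfl⟩
        rw [← ht]
        have h2 : H + t ^ 2 / H - t = ((t - H / 2) ^ 2 + 3 / 4 * H ^ 2) / H := by
          field_simp
          ring
        have h3 : 0 ≤ ((t - H / 2) ^ 2 + 3 / 4 * H ^ 2) / H := by positivity
        linarith
    refine (sum_le_sum h1).trans ?_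
    rw [sum_add_distrib, sum_add_distrib]
    apply add_le_add
    · rw [sum_ite_eq']
      split_ifs
      · exact le_rfl
      · exact Nat.cast_nonneg _
    · apply add_le_add
      · rw [sum_const, Nat.card_Ioc, nsmul_eq_mul, mul_comm]
        apply mul_le_mul_of_nonneg_left _ hH.le
        exact_mod_cast (by omega : y - y0 ≤ Y)
      · rw [← sum_filter, ← sum_div]
        apply div_le_div_of_nonneg_right _ hH.le
        have h2 : ∑ n ∈ (Ioc y0 y).filter (fun n => n ≠ a), ((dst n a).divisors.card : ℝ) ^ 2 ≤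
            ∑ n ∈ (Icc 1 X).filter (fun n => n ≠ a), ((dst n a).divisors.card : ℝ) ^ 2 := by
          apply sum_le_sum_of_subset_of_nonneg
          · intro n hn
            rw [mem_filter, mem_Ioc] at hn
            rw [mem_filter, mem_Icc]
            exact ⟨⟨by omega, by omega⟩, hn.2⟩
          · intro _ _ _
            positivity
        refine h2.trans ((sum_dst X a ha haX (fun m => (m.divisors.card : ℝ) ^ 2) (fun _ => by positivity)).trans ?_)
        apply mul_le_mul_of_nonneg_left _ (by norm_num)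
        exact tau_sq X
  have b3 : |∑ q ∈ F, lam q * ((y - y0) * (1 / Nat.totient q))| ≤ A * (Y * ((Nat.log 2 X + 1) * (1 + Real.log X))) := by
    have h1 : ∀ q ∈ F, |lam q * (((y : ℝ) - y0) * (1 / Nat.totient q))| ≤ A * (Y * ((Nat.log 2 X + 1) * (1 / q))) := by
      intro q hq
      rw [hF, mem_filter, mem_Icc] at hq
      rw [abs_mul, abs_of_nonneg (show 0 ≤ ((y : ℝ) - y0) * (1 / Nat.totient q) by positivity)]
      apply mul_le_mul (hlam q) _ (by positivity) hA
      exact mul_le_mul hyY (inv_phi_log q X hq.1.1 (hq.1.2.trans hQX)) (by positivity) (Nat.cast_nonneg _)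
    refine (abs_sum_le_sum_abs _ _).trans ((sum_le_sum h1).trans ?_)
    rw [← mul_sum, ← mul_sum, ← mul_sum]
    apply mul_le_mul_of_nonneg_left _ hA
    apply mul_le_mul_of_nonneg_left _ (Nat.cast_nonneg _)
    apply mul_le_mul_of_nonneg_left _ (by positivity)
    refine le_trans ?_ (sum_inv_Icc' X)
    apply sum_le_sum_of_subset_of_nonneg
    · intro q hq
      rw [hF, mem_filter, mem_Icc] at hq
      rw [mem_Icc]
      exact ⟨hq.1.1, hq.1.2.trans hQX⟩
    · intro _ _ _
      positivity
  rw [e1, e2]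
  refine (abs_sub _ _).trans ((add_le_add b2 b3).trans (le_of_eq ?_))
  ring

/-- the number of the binary digits -/
lemma nlog (X : ℕ) (L : ℝ) (hX : 1 ≤ X) (hL : 1 ≤ L) (h : Real.log X ≤ 2 * L) : (Nat.log 2 X : ℝ) + 1 ≤ 4 * L := by
  have h4 : (2 : ℝ) ^ (Nat.log 2 X) ≤ X := by
    exact_mod_cast Nat.pow_log_le_self 2 (by omega)
  have h5 := Real.log_le_log (by positivity) h4
  rw [Real.log_pow] at h5
  have h6 := Real.log_two_gt_d9
  have h7 : (0 : ℝ) ≤ Nat.log 2 X := Nat.cast_nonneg _
  nlinarith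

end Pool.Agent.K1H51.LP
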