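import Pool.Agent.K1H51.LP.Core
import Pool.Agent.K1H51.LP.Alg
import Pool.Agent.W93.LV2

set_option autoImplicit false

/-! The first moment of the discrepancies along a family with a small large spectrum. -/

namespace Pool.Agent.K1H51.LP

open Finset Pool.Agent.H373R2.T7
open Pool.Agent.H807R2.Dav
open Pool.Agent.W93.LV (tau_sum tau_div_sum tau_mul tau_sq log1_nonneg harm harm_le dir)

/-- the difference -/
noncomputable def fR (R n : ℕ) : ℝ := ArithmeticFunction.vonMangoldt n - lamR R n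

/-- the weight of `m` -/
noncomputable def Wd (lam : ℕ → ℝ) (Q δ m : ℕ) : ℝ := ∑ q ∈ (Icc 1 Q).filter (fun q => δ ∣ q ∧ q ∣ m), lam q

/-- the distance -/
def dst (n a : ℕ) : ℕ := ((n : ℤ) - a).natAbs

/-- the sum over the multiples of `δ` -/
noncomputable def TT (R : ℕ) (lam : ℕ → ℝ) (Q y δ a : ℕ) : ℝ :=
  ∑ n ∈ (Icc 1 y).filter (fun n => n ≠ a ∧ δ ∣ n), fR R n * Wd lam Q δ (dst n a)

lemma fR_le (R n X : ℕ) (hn : 1 ≤ n) (hX : n ≤ X) : |fR R n| ≤ (Real.log X + cR R) * n.divisors.card := by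
  unfold fR
  refine (abs_sub _ _).trans ?_
  rw [add_mul]
  apply add_le_add _ (lamR_le R n hn)
  rw [abs_of_nonneg ArithmeticFunction.vonMangoldt_nonneg]
  have h1 : ArithmeticFunction.vonMangoldt n ≤ Real.log X := by
    refine ArithmeticFunction.vonMangoldt_le_log.trans ?_
    exact Real.log_le_log (by exact_mod_cast hn) (by exact_mod_cast hX)
  have h2 : (1 : ℝ) ≤ n.divisors.card := by
    have : 0 < n.divisors.card := card_pos.2 ⟨1, Nat.one_mem_divisors.2 (by omega)⟩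
    exact_mod_cast this
  have h3 : 0 ≤ Real.log (X : ℝ) := Real.log_natCast_nonneg X
  calc ArithmeticFunction.vonMangoldt n ≤ Real.log X * 1 := by rw [mul_one]; exact h1
    _ ≤ _ := mul_le_mul_of_nonneg_left h2 h3

lemma Wd_zero (lam : ℕ → ℝ) (Q δ m : ℕ) (h : ¬ δ ∣ m) : Wd lam Q δ m = 0 := by
  unfold Wd
  rw [filter_eq_empty_iff.2, sum_empty]
  intro q _ h2
  exact h (h2.1.trans h2.2)

lemma Wd_le (lam : ℕ → ℝ) (Q δ m : ℕ) (hδ : 1 ≤ δ) (hm : 1 ≤ m) (A : ℝ) (hlam : ∀ q, |lam q| ≤ A) :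
    |Wd lam Q δ (δ * m)| ≤ A * m.divisors.card := by
  have hA : 0 ≤ A := (abs_nonneg _).trans (hlam 0)
  unfold Wd
  refine (abs_sum_le_sum_abs _ _).trans ((sum_le_sum fun q _ => hlam q).trans ?_)
  rw [sum_const, nsmul_eq_mul, mul_comm]
  apply mul_le_mul_of_nonneg_left _ hA
  have : ((Icc 1 Q).filter (fun q => δ ∣ q ∧ q ∣ δ * m)).card ≤ m.divisors.card := by
    apply card_le_card_of_injOn (fun q => q / δ)
    · intro q hq
      rw [mem_coe, mem_filter] at hq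
      obtain ⟨_, ⟨e, he⟩, h2⟩ := hq
      rw [mem_coe, Nat.mem_divisors]
      simp only
      rw [he, Nat.mul_div_cancel_left _ (by omega)]
      refine ⟨?_, by omega⟩
      rw [he] at h2
      exact Nat.dvd_of_mul_dvd_mul_left (by omega) h2
    · intro q hq q' hq' h
      rw [mem_coe, mem_filter] at hq hq'
      simp only at h
      rw [← Nat.div_mul_cancel hq.2.1, ← Nat.div_mul_cancel hq'.2.1, h]
  exact_mod_cast this

/-- sums over the multiples, squares -/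
lemma mult_sq (X y δ : ℕ) (hδ : 1 ≤ δ) (hy : y ≤ X) :
    ∑ n ∈ (Icc 1 y).filter (fun n => δ ∣ n), (n.divisors.card : ℝ) ^ 2 ≤ (δ.divisors.card : ℝ) ^ 2 * ((X : ℝ) / δ * (1 + Real.log X) ^ 3) := by
  rw [sum_multR y δ hδ]
  have h1 : ∀ m ∈ Icc 1 (y / δ), ((δ * m).divisors.card : ℝ) ^ 2 ≤ (δ.divisors.card : ℝ) ^ 2 * (m.divisors.card : ℝ) ^ 2 := by
    intro m _
    rw [← mul_pow]
    apply pow_le_pow_left₀ (Nat.cast_nonneg _)
    exact_mod_cast tau_mul δ m
  refine (sum_le_sum h1).trans ?_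
  rw [← mul_sum]
  apply mul_le_mul_of_nonneg_left _ (by positivity)
  refine (tau_sq (y / δ)).trans ?_
  have h2 : ((y / δ : ℕ) : ℝ) ≤ X / δ := by
    refine Nat.cast_div_le.trans ?_
    apply div_le_div_of_nonneg_right _ (Nat.cast_nonneg _)
    exact_mod_cast hy
  have h3 : 1 + Real.log ((y / δ : ℕ) : ℝ) ≤ 1 + Real.log X := by
    rcases Nat.eq_zero_or_pos (y / δ) with h | h
    · rw [h]
      have := Real.log_natCast_nonneg X
      simp only [Nat.cast_zero, Real.log_zero]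
      linarith
    · have := Real.log_le_log (by exact_mod_cast h : (0 : ℝ) < ((y / δ : ℕ) : ℝ)) (by exact_mod_cast (Nat.div_le_self _ _).trans hy : ((y / δ : ℕ) : ℝ) ≤ X)
      linarith
  have h4 := log1_nonneg (y / δ)
  gcongr

/-- sums over the multiples -/
lemma mult_one (X y δ : ℕ) (hδ : 1 ≤ δ) (hy : y ≤ X) :
    ∑ n ∈ (Icc 1 y).filter (fun n => δ ∣ n), (n.divisors.card : ℝ) ≤ (δ.divisors.card : ℝ) * ((X : ℝ) / δ * (1 + Real.log X)) := by
  rw [sum_multR y δ hδ]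
  have h1 : ∀ m ∈ Icc 1 (y / δ), ((δ * m).divisors.card : ℝ) ≤ (δ.divisors.card : ℝ) * (m.divisors.card : ℝ) := by
    intro m _
    exact_mod_cast tau_mul δ m
  refine (sum_le_sum h1).trans ?_
  rw [← mul_sum]
  apply mul_le_mul_of_nonneg_left _ (by positivity)
  refine (tau_sum X (y / δ) ((Nat.div_le_self _ _).trans hy)).trans ?_
  apply mul_le_mul_of_nonneg_right _ (log1_nonneg X)
  refine Nat.cast_div_le.trans ?_
  apply div_le_div_of_nonneg_right _ (Nat.cast_nonneg _)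
  exact_mod_cast hy

/-- the sum of `τ(n)² / n` -/
lemma tau_sq_div (X : ℕ) : ∑ n ∈ Icc 1 X, (n.divisors.card : ℝ) ^ 2 / n ≤ (1 + Real.log X) ^ 4 := by
  have e1 := dir X (fun d m => ((d.divisors.card : ℝ) / d) * ((m.divisors.card : ℝ) / m))
  have e2 : ∀ n ∈ Icc 1 X, (n.divisors.card : ℝ) ^ 2 / n ≤ ∑ d ∈ n.divisors, ((d.divisors.card : ℝ) / d) * (((n / d).divisors.card : ℝ) / ((n / d : ℕ) : ℝ)) := by
    intro n hn
    rw [mem_Icc] at hn
    have e3 : ∀ d ∈ n.divisors, (n.divisors.card : ℝ) / n ≤ ((d.divisors.card : ℝ) / d) * (((n / d).divisors.card : ℝ) / ((n / d : ℕ) : ℝ)) := by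
      intro d hd
      have h1 := Nat.dvd_of_mem_divisors hd
      have hd0 : (0 : ℝ) < d := by exact_mod_cast Nat.pos_of_mem_divisors hd
      have hnd : (0 : ℝ) < ((n / d : ℕ) : ℝ) := by
        exact_mod_cast Nat.div_pos (Nat.le_of_dvd (by omega) h1) (Nat.pos_of_mem_divisors hd)
      have h2 := tau_mul d (n / d)
      rw [Nat.mul_div_cancel' h1] at h2
      have h3 : (n : ℝ) = d * ((n / d : ℕ) : ℝ) := by exact_mod_cast (Nat.mul_div_cancel' h1).symm
      rw [div_mul_div_comm, ← h3]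
      apply div_le_div_of_nonneg_right _ (Nat.cast_nonneg _)
      exact_mod_cast h2
    have e4 := sum_le_sum e3
    rw [sum_const, nsmul_eq_mul] at e4
    calc (n.divisors.card : ℝ) ^ 2 / n = n.divisors.card * (n.divisors.card / n) := by ring
      _ ≤ _ := e4
  refine (sum_le_sum e2).trans ?_
  rw [e1]
  have e3 : ∀ d ∈ Icc 1 X, ∑ m ∈ Icc 1 (X / d), ((d.divisors.card : ℝ) / d) * ((m.divisors.card : ℝ) / m) ≤
      ((d.divisors.card : ℝ) / d) * (1 + Real.log X) ^ 2 := by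
    intro d _
    rw [← mul_sum]
    apply mul_le_mul_of_nonneg_left _ (by positivity)
    refine le_trans ?_ (tau_div_sum X)
    exact sum_le_sum_of_subset_of_nonneg (Icc_subset_Icc_right (Nat.div_le_self _ _)) (fun _ _ _ => by positivity)
  refine (sum_le_sum e3).trans ?_
  rw [← sum_mul]
  calc (∑ d ∈ Icc 1 X, (d.divisors.card : ℝ) / d) * (1 + Real.log X) ^ 2 ≤ (1 + Real.log X) ^ 2 * (1 + Real.log X) ^ 2 :=
        mul_le_mul_of_nonneg_right (tau_div_sum X) (by positivity)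
    _ = _ := by ring

/-- restriction to the multiples does not increase the supremum of the exponential sum -/
lemma sup_mult (F : ℕ → ℝ) (y δ : ℕ) (hδ : 1 ≤ δ) (S : ℝ) (hS : ∀ α : ℝ, ‖∑ n ∈ Icc 1 y, ((F n : ℝ) : ℂ) * ee ((n : ℝ) * α)‖ ≤ S) (α : ℝ) :
    ‖∑ n ∈ (Icc 1 y).filter (fun n => δ ∣ n), ((F n : ℝ) : ℂ) * ee ((n : ℝ) * α)‖ ≤ S := by
  have hδ0 : (0 : ℝ) < δ := by exact_mod_cast hδ
  have h1 : (δ : ℂ) * ∑ n ∈ (Icc 1 y).filter (fun n => δ ∣ n), ((F n : ℝ) : ℂ) * ee ((n : ℝ) * α) =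
      ∑ j ∈ range δ, ∑ n ∈ Icc 1 y, ((F n : ℝ) : ℂ) * ee ((n : ℝ) * (α + j / δ)) := by
    rw [sum_comm, sum_filter, mul_sum]
    apply sum_congr rfl
    intro n _
    have h2 : ∀ j ∈ range δ, ((F n : ℝ) : ℂ) * ee ((n : ℝ) * (α + j / δ)) = ((F n : ℝ) : ℂ) * ee ((n : ℝ) * α) * ee ((j : ℝ) * (((n : ℤ) : ℝ) / δ)) := by
      intro j _
      rw [mul_assoc, ← ee_add]
      congr 2
      push_cast
      ring
    rw [sum_congr rfl h2, ← mul_sum, orth δ hδ]
    by_cases h : δ ∣ n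
    · rw [if_pos h, if_pos (by exact_mod_cast h)]
      ring
    · rw [if_neg h, if_neg (by exact_mod_cast h)]
      ring
  have h2 : (δ : ℝ) * ‖∑ n ∈ (Icc 1 y).filter (fun n => δ ∣ n), ((F n : ℝ) : ℂ) * ee ((n : ℝ) * α)‖ ≤ δ * S := by
    have h3 : (δ : ℝ) * ‖∑ n ∈ (Icc 1 y).filter (fun n => δ ∣ n), ((F n : ℝ) : ℂ) * ee ((n : ℝ) * α)‖ =
        ‖(δ : ℂ) * ∑ n ∈ (Icc 1 y).filter (fun n => δ ∣ n), ((F n : ℝ) : ℂ) * ee ((n : ℝ) * α)‖ := by
      rw [norm_mul, Complex.norm_natCast]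
    rw [h3, h1]
    refine (norm_sum_le _ _).trans ((sum_le_sum fun j _ => hS _).trans (le_of_eq ?_))
    rw [sum_const, card_range, nsmul_eq_mul]
  exact le_of_mul_le_mul_left h2 hδ0

/-- the set of the shifts -/
noncomputable def JJ (X : ℕ) : Finset ℤ := (Icc (-(X : ℤ)) X).erase 0

/-- passage from integers to natural numbers -/
lemma sum_int (y : ℕ) (g : ℤ → ℂ) : ∑ n ∈ Icc (1 : ℤ) y, g n = ∑ n ∈ Icc 1 y, g (n : ℤ) := by
  symm
  apply sum_bij (fun (n : ℕ) _ => (n : ℤ))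
  · intro n hn
    rw [mem_Icc] at hn ⊢
    omega
  · intro n _ n' _ h
    exact_mod_cast h
  · intro n hn
    rw [mem_Icc] at hn
    refine ⟨n.toNat, ?_, ?_⟩
    · rw [mem_Icc]; omega
    · omega
  · intro n _
    rfl

lemma sum_intR (y : ℕ) (g : ℤ → ℝ) : ∑ n ∈ Icc (1 : ℤ) y, g n = ∑ n ∈ Icc 1 y, g (n : ℤ) := by
  symm
  apply sum_bij (fun (n : ℕ) _ => (n : ℤ))
  · intro n hn
    rw [mem_Icc] at hn ⊢
    omega
  · intro n _ n' _ h
    exact_mod_cast h
  · intro n hn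
    rw [mem_Icc] at hn
    refine ⟨n.toNat, ?_, ?_⟩
    · rw [mem_Icc]; omega
    · omega
  · intro n _
    rfl

/-- the correlation is a sum over the shifts -/
lemma TT_eq (R : ℕ) (lam : ℕ → ℝ) (Q y δ a X : ℕ) (ha : 1 ≤ a) (haX : a ≤ X) (hyX : y ≤ X) :
    ((TT R lam Q y δ a : ℝ) : ℂ) = ∑ k ∈ JJ X, if (a : ℤ) + k ∈ Icc (1 : ℤ) y then
      ((Wd lam Q δ k.natAbs : ℝ) : ℂ) * (if δ ∣ ((a : ℤ) + k).toNat then ((fR R ((a : ℤ) + k).toNat : ℝ) : ℂ) else 0) else 0 := by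
  rw [← sum_filter]
  unfold TT
  push_cast
  have h1 : (Icc 1 y).filter (fun n => n ≠ a ∧ δ ∣ n) = ((Icc 1 y).filter (fun n => n ≠ a)).filter (fun n => δ ∣ n) := by
    rw [filter_filter]
  rw [h1, sum_filter]
  apply sum_bij (fun (n : ℕ) _ => (n : ℤ) - a)
  · intro n hn
    rw [mem_filter, mem_Icc] at hn
    unfold JJ
    rw [mem_filter, mem_erase, mem_Icc, mem_Icc]
    refine ⟨⟨?_, ?_, ?_⟩, ?_, ?_⟩
    · intro h; apply hn.2; omega
    · omega
    · omega
    · omega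
    · omega
  · intro n _ n' _ h
    omega
  · intro k hk
    unfold JJ at hk
    rw [mem_filter, mem_erase, mem_Icc, mem_Icc] at hk
    refine ⟨((a : ℤ) + k).toNat, ?_, ?_⟩
    · rw [mem_filter, mem_Icc]
      refine ⟨⟨?_, ?_⟩, ?_⟩
      · omega
      · omega
      · intro h
        apply hk.1.1
        omega
    · omega
  · intro n _
    have h2 : ((a : ℤ) + ((n : ℤ) - a)).toNat = n := by omega
    rw [h2]
    unfold dst
    split_ifs
    · ring
    · ring

/-- the second moment for one `δ` -/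
lemma one_delta {ι : Type*} (I : Finset ι) (s : ι → ℤ) (M X y Q R δ : ℕ) (hM : 3 * X ≤ M) (hX : 1 ≤ X) (hyX : y ≤ X) (hδ : 1 ≤ δ)
    (lam : ℕ → ℝ) (A : ℝ) (hlam : ∀ q, |lam q| ≤ A) (η S : ℝ) (hη : 0 ≤ η)
    (hS : ∀ α : ℝ, ‖∑ n ∈ (Icc 1 y).filter (fun n => δ ∣ n), ((fR R n : ℝ) : ℂ) * ee ((n : ℝ) * α)‖ ≤ S) :
    ∑ i ∈ I.filter (fun i => 1 ≤ s i ∧ s i ≤ X), TT R lam Q y δ (s i).toNat ^ 2 ≤
      I.card * (2 * A ^ 2 * (X / δ * (1 + Real.log X) ^ 3)) *
        (η * ((Real.log X + cR R) ^ 2 * ((δ.divisors.card : ℝ) ^ 2 * ((X : ℝ) / δ * (1 + Real.log X) ^ 3))) + (spec M I s η).card / M * S ^ 2) := by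
  classical
  have hM1 : 1 ≤ M := by omega
  have hM0 : (0 : ℝ) < M := by exact_mod_cast hM1
  have hc0 : 0 ≤ Real.log X + cR R := add_nonneg (Real.log_natCast_nonneg X) (cR_nonneg R)
  have hA : 0 ≤ A := (abs_nonneg _).trans (hlam 0)
  have hℓ := log1_nonneg X
  have hδ0 : (0 : ℝ) < δ := by exact_mod_cast hδ
  have key := core2 I s M hM1 (JJ X) (Icc (1 : ℤ) y) (by
      intro k hk k' hk' n hn n' hn'
      unfold JJ at hk hk'
      rw [mem_erase, mem_Icc] at hk hk'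
      rw [mem_Icc] at hn hn'
      rw [abs_lt]
      constructor <;> omega) (by
      intro k hk k' hk'
      unfold JJ at hk hk'
      rw [mem_erase, mem_Icc] at hk hk'
      rw [abs_lt]
      constructor <;> omega) (by
      intro n hn n' hn'
      rw [mem_Icc] at hn hn'
      rw [abs_lt]
      constructor <;> omega)
    (fun n => if δ ∣ n.toNat then ((fR R n.toNat : ℝ) : ℂ) else 0) (fun k => ((Wd lam Q δ k.natAbs : ℝ) : ℂ)) η S
    ((Real.log X + cR R) ^ 2 * ((δ.divisors.card : ℝ) ^ 2 * ((X : ℝ) / δ * (1 + Real.log X) ^ 3)))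
    (2 * A ^ 2 * (X / δ * (1 + Real.log X) ^ 3)) hη (by
      intro α
      rw [sum_int]
      simp only [Int.toNat_natCast]
      refine le_trans (le_of_eq ?_) (hS α)
      congr 1
      rw [sum_filter]
      apply sum_congr rfl
      intro n _
      split_ifs
      · push_cast; ring
      · ring) (by
      rw [sum_intR]
      simp only [Int.toNat_natCast]
      have h1 : ∀ n ∈ Icc 1 y, ‖(if δ ∣ n then ((fR R n : ℝ) : ℂ) else 0)‖ ^ 2 ≤
          if δ ∣ n then (Real.log X + cR R) ^ 2 * (n.divisors.card : ℝ) ^ 2 else 0 := by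
        intro n hn
        rw [mem_Icc] at hn
        split_ifs
        · rw [Complex.norm_real, Real.norm_eq_abs, ← mul_pow]
          exact pow_le_pow_left₀ (abs_nonneg _) (fR_le R n X hn.1 (hn.2.trans hyX)) 2
        · simp
      refine (sum_le_sum h1).trans ?_
      rw [← sum_filter, ← mul_sum]
      exact mul_le_mul_of_nonneg_left (mult_sq X y δ hδ hyX) (by positivity)) (by
      -- the weights
      have h1 : ∀ σ : ℤ, (σ = 1 ∨ σ = -1) → ∑ m ∈ Icc 1 X, ‖((Wd lam Q δ (σ * (m : ℤ)).natAbs : ℝ) : ℂ)‖ ^ 2 ≤ A ^ 2 * (X / δ * (1 + Real.log X) ^ 3) := by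
        intro σ hσ
        have h2 : ∀ m ∈ Icc 1 X, ‖((Wd lam Q δ (σ * (m : ℤ)).natAbs : ℝ) : ℂ)‖ ^ 2 = if δ ∣ m then (Wd lam Q δ m) ^ 2 else 0 := by
          intro m _
          have h3 : (σ * (m : ℤ)).natAbs = m := by
            rcases hσ with h | h
            · rw [h]; simp
            · rw [h]; simp
          rw [h3, Complex.norm_real, Real.norm_eq_abs, sq_abs]
          split_ifs with h
          · rfl
          · rw [Wd_zero lam Q δ m h]; simp
        rw [sum_congr rfl h2, ← sum_filter, sum_multR X δ hδ]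
        have h4 : ∀ m ∈ Icc 1 (X / δ), Wd lam Q δ (δ * m) ^ 2 ≤ A ^ 2 * (m.divisors.card : ℝ) ^ 2 := by
          intro m hm
          rw [mem_Icc] at hm
          rw [← sq_abs, ← mul_pow]
          exact pow_le_pow_left₀ (abs_nonneg _) (Wd_le lam Q δ m hδ hm.1 A hlam) 2
        refine (sum_le_sum h4).trans ?_
        rw [← mul_sum]
        apply mul_le_mul_of_nonneg_left _ (by positivity)
        have h5 := mult_sq X X 1 le_rfl le_rfl
        refine (tau_sq (X / δ)).trans ?_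
        have h6 : ((X / δ : ℕ) : ℝ) ≤ X / δ := Nat.cast_div_le
        have h7 : 1 + Real.log ((X / δ : ℕ) : ℝ) ≤ 1 + Real.log X := by
          rcases Nat.eq_zero_or_pos (X / δ) with h | h
          · rw [h]
            have := Real.log_natCast_nonneg X
            simp only [Nat.cast_zero, Real.log_zero]
            linarith
          · have := Real.log_le_log (by exact_mod_cast h : (0 : ℝ) < ((X / δ : ℕ) : ℝ)) (by exact_mod_cast (Nat.div_le_self _ _) : ((X / δ : ℕ) : ℝ) ≤ X)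
            linarith
        have h8 := log1_nonneg (X / δ)
        gcongr
      have h9 : ∑ k ∈ JJ X, ‖((Wd lam Q δ k.natAbs : ℝ) : ℂ)‖ ^ 2 ≤
          ∑ m ∈ Icc 1 X, ‖((Wd lam Q δ (1 * (m : ℤ)).natAbs : ℝ) : ℂ)‖ ^ 2 + ∑ m ∈ Icc 1 X, ‖((Wd lam Q δ (-1 * (m : ℤ)).natAbs : ℝ) : ℂ)‖ ^ 2 := by
        have h10 : JJ X ⊆ (Icc (1 : ℤ) X) ∪ (Icc (1 : ℤ) X).image (fun k => -k) := by
          intro k hk
          unfold JJ at hk
          rw [mem_erase, mem_Icc] at hk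
          rw [mem_union, mem_Icc, mem_image]
          rcases lt_or_gt_of_ne hk.1 with h | h
          · right
            exact ⟨-k, by rw [mem_Icc]; omega, by ring⟩
          · left
            omega
        refine (sum_le_sum_of_subset_of_nonneg h10 (fun _ _ _ => by positivity)).trans ?_
        have h13 := sum_union_inter (s₁ := Icc (1 : ℤ) X) (s₂ := (Icc (1 : ℤ) X).image (fun k => -k))
          (f := fun k : ℤ => ‖((Wd lam Q δ k.natAbs : ℝ) : ℂ)‖ ^ 2)
        have h14 : 0 ≤ ∑ k ∈ (Icc (1 : ℤ) X) ∩ (Icc (1 : ℤ) X).image (fun k => -k), ‖((Wd lam Q δ k.natAbs : ℝ) : ℂ)‖ ^ 2 :=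
          sum_nonneg fun _ _ => by positivity
        refine le_trans (b := ∑ k ∈ Icc (1 : ℤ) X, ‖((Wd lam Q δ k.natAbs : ℝ) : ℂ)‖ ^ 2 +
          ∑ k ∈ (Icc (1 : ℤ) X).image (fun k => -k), ‖((Wd lam Q δ k.natAbs : ℝ) : ℂ)‖ ^ 2) (by linarith) ?_
        apply add_le_add
        · rw [sum_intR]
          simp only [one_mul]
          exact le_rfl
        · rw [sum_image (fun a _ b _ h => by simpa using h), sum_intR]
          simp only [neg_mul, one_mul]
          exact le_rfl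
      have h11 := h1 1 (Or.inl rfl)
      have h12 := h1 (-1) (Or.inr rfl)
      calc ∑ k ∈ JJ X, ‖((Wd lam Q δ k.natAbs : ℝ) : ℂ)‖ ^ 2 ≤ A ^ 2 * (X / δ * (1 + Real.log X) ^ 3) + A ^ 2 * (X / δ * (1 + Real.log X) ^ 3) :=
            h9.trans (add_le_add h11 h12)
        _ = _ := by ring)
  have h1 : ∀ i ∈ I.filter (fun i => 1 ≤ s i ∧ s i ≤ X), TT R lam Q y δ (s i).toNat ^ 2 =
      ‖∑ k ∈ JJ X, if s i + k ∈ Icc (1 : ℤ) y then
        ((Wd lam Q δ k.natAbs : ℝ) : ℂ) * (if δ ∣ (s i + k).toNat then ((fR R (s i + k).toNat : ℝ) : ℂ) else 0) else 0‖ ^ 2 := by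
    intro i hi
    rw [mem_filter] at hi
    have h2 := TT_eq R lam Q y δ (s i).toNat X (by omega) (by omega) hyX
    have h3 : (((s i).toNat : ℕ) : ℤ) = s i := Int.toNat_of_nonneg (by omega)
    rw [h3] at h2
    rw [← h2, Complex.norm_real, Real.norm_eq_abs, sq_abs]
  rw [sum_congr rfl h1]
  refine (sum_le_sum_of_subset_of_nonneg (filter_subset _ _) (fun _ _ _ => by positivity)).trans ?_
  refine key.trans (le_of_eq ?_)
  ring

end Pool.Agent.K1H51.LP
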