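import Pool.Agent.K1H51.LP.Mom

set_option autoImplicit false

/-! The first moment of the discrepancies along a family with a small large spectrum, sum over `δ`. -/

namespace Pool.Agent.K1H51.LP

open Finset Pool.Agent.H373R2.T7
open Pool.Agent.H807R2.Dav
open Pool.Agent.W93.LV (tau_sum tau_div_sum tau_mul tau_sq log1_nonneg harm harm_le dir)

set_option maxHeartbeats 1000000 in
theorem moment {ι : Type*} (I : Finset ι) (s : ι → ℤ) (M X y Q R Δ : ℕ) (hM : 3 * X ≤ M) (hX : 1 ≤ X) (hyX : y ≤ X) (hΔ : 1 ≤ Δ)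
    (lam : ℕ → ℝ) (A : ℝ) (hlam : ∀ q, |lam q| ≤ A) (η S0 θ : ℝ) (hη : 0 ≤ η) (hθ : 0 < θ)
    (hS : ∀ α : ℝ, ‖∑ n ∈ Icc 1 y, ((fR R n : ℝ) : ℂ) * ee ((n : ℝ) * α)‖ ≤ S0) :
    ∑ i ∈ I.filter (fun i => 1 ≤ s i ∧ s i ≤ X), ∑ δ ∈ (s i).toNat.divisors, |TT R lam Q y δ (s i).toNat| ≤
      I.card / 2 * (θ * (1 + Real.log X) + (2 * A ^ 2 * X * (1 + Real.log X) ^ 3 / θ) *
        (η * (Real.log X + cR R) ^ 2 * (X * (1 + Real.log X) ^ 7) +
          (spec M I s η).card / M * (Δ * S0 ^ 2 + (Real.log X + cR R) ^ 2 * X ^ 2 * (1 + Real.log X) ^ 6 / Δ))) := by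
  classical
  have hM1 : 1 ≤ M := by omega
  have hM0 : (0 : ℝ) < M := by exact_mod_cast hM1
  have hX0 : (0 : ℝ) < X := by exact_mod_cast hX
  have hΔ0 : (0 : ℝ) < Δ := by exact_mod_cast hΔ
  have hS00 : 0 ≤ S0 := (norm_nonneg _).trans (hS 0)
  obtain ⟨c, hc⟩ : ∃ c, c = Real.log X + cR R := ⟨_, rfl⟩
  obtain ⟨ℓ, hℓ⟩ : ∃ ℓ, ℓ = 1 + Real.log X := ⟨_, rfl⟩
  have hc0 : 0 ≤ c := by rw [hc]; exact add_nonneg (Real.log_natCast_nonneg X) (cR_nonneg R)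
  have hℓ0 : 0 ≤ ℓ := by rw [hℓ]; exact log1_nonneg X
  rw [← hc, ← hℓ]
  obtain ⟨I', hI'⟩ : ∃ I', I' = I.filter (fun i => 1 ≤ s i ∧ s i ≤ X) := ⟨_, rfl⟩
  rw [← hI']
  obtain ⟨ρ, hρ⟩ : ∃ ρ : ℝ, ρ = (spec M I s η).card / M := ⟨_, rfl⟩
  have hρ0 : 0 ≤ ρ := by rw [hρ]; positivity
  rw [← hρ]
  have hI'c : (I'.card : ℝ) ≤ I.card := by
    rw [hI']
    exact_mod_cast card_filter_le _ _
  -- all `δ`
  have h1 : ∑ i ∈ I', ∑ δ ∈ (s i).toNat.divisors, |TT R lam Q y δ (s i).toNat| ≤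
      ∑ δ ∈ Icc 1 X, ∑ i ∈ I', |TT R lam Q y δ (s i).toNat| := by
    rw [sum_comm (s := Icc 1 X)]
    apply sum_le_sum
    intro i hi
    apply sum_le_sum_of_subset_of_nonneg
    · intro δ hδ
      rw [hI', mem_filter] at hi
      have h2 := Nat.divisor_le hδ
      rw [mem_Icc]
      exact ⟨Nat.pos_of_mem_divisors hδ, by omega⟩
    · intro _ _ _
      exact abs_nonneg _
  refine h1.trans ?_
  -- the supremum for one `δ`
  obtain ⟨Sd, hSd⟩ : ∃ Sd : ℕ → ℝ, Sd = fun δ : ℕ => if δ ≤ Δ then S0 else c * ((δ.divisors.card : ℝ) * ((X : ℝ) / δ * ℓ)) := ⟨_, rfl⟩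
  have hsup : ∀ δ ∈ Icc 1 X, ∀ α : ℝ, ‖∑ n ∈ (Icc 1 y).filter (fun n => δ ∣ n), ((fR R n : ℝ) : ℂ) * ee ((n : ℝ) * α)‖ ≤ Sd δ := by
    intro δ hδ α
    rw [mem_Icc] at hδ
    rw [hSd]
    simp only
    split_ifs with h
    · exact sup_mult (fR R) y δ hδ.1 S0 hS α
    · refine (norm_sum_le _ _).trans ?_
      have h2 : ∀ n ∈ (Icc 1 y).filter (fun n => δ ∣ n), ‖((fR R n : ℝ) : ℂ) * ee ((n : ℝ) * α)‖ ≤ c * n.divisors.card := by
        intro n hn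
        rw [mem_filter, mem_Icc] at hn
        rw [norm_mul, norm_ee, mul_one, Complex.norm_real, Real.norm_eq_abs, hc]
        exact fR_le R n X hn.1.1 (hn.1.2.trans hyX)
      refine (sum_le_sum h2).trans ?_
      rw [← mul_sum]
      apply mul_le_mul_of_nonneg_left _ hc0
      rw [hℓ]
      exact mult_one X y δ hδ.1 hyX
  have h2 : ∀ δ ∈ Icc 1 X, ∑ i ∈ I', |TT R lam Q y δ (s i).toNat| ≤ I.card / 2 * (θ * (1 / δ) + (2 * A ^ 2 * X * ℓ ^ 3 / θ) *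
      (η * c ^ 2 * (X * ℓ ^ 3) * ((δ.divisors.card : ℝ) ^ 2 / δ) + ρ * Sd δ ^ 2)) := by
    intro δ hδ
    have hsup' := hsup δ hδ
    rw [mem_Icc] at hδ
    have hδ0 : (0 : ℝ) < δ := by exact_mod_cast hδ.1
    have h3 := one_delta I s M X y Q R δ hM hX hyX hδ.1 lam A hlam η (Sd δ) hη hsup'
    rw [← hI', ← hc, ← hℓ, ← hρ] at h3
    have h4 : ∀ i ∈ I', |TT R lam Q y δ (s i).toNat| ≤ θ * (1 / δ) / 2 + (δ / θ) * TT R lam Q y δ (s i).toNat ^ 2 / 2 := by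
      intro i _
      obtain ⟨t, ht⟩ : ∃ t, t = |TT R lam Q y δ (s i).toNat| := ⟨_, rfl⟩
      have ht2 : TT R lam Q y δ (s i).toNat ^ 2 = t ^ 2 := by rw [ht, sq_abs]
      rw [ht2, ← ht]
      have h5 : θ * (1 / δ) / 2 + (δ / θ) * t ^ 2 / 2 - t = (δ * t - θ) ^ 2 / (2 * δ * θ) := by
        field_simp
        ring
      have h6 : 0 ≤ (δ * t - θ) ^ 2 / (2 * δ * θ) := by positivity
      linarith
    refine (sum_le_sum h4).trans ?_
    rw [sum_add_distrib, sum_const, nsmul_eq_mul, ← sum_div, ← mul_sum]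
    have h7 : (I'.card : ℝ) * (θ * (1 / δ) / 2) ≤ I.card * (θ * (1 / δ) / 2) := mul_le_mul_of_nonneg_right hI'c (by positivity)
    have h8 : (δ / θ) * (∑ i ∈ I', TT R lam Q y δ (s i).toNat ^ 2) / 2 ≤ (δ / θ) * (I.card * (2 * A ^ 2 * (X / δ * ℓ ^ 3)) *
        (η * (c ^ 2 * ((δ.divisors.card : ℝ) ^ 2 * ((X : ℝ) / δ * ℓ ^ 3))) + ρ * Sd δ ^ 2)) / 2 := by
      apply div_le_div_of_nonneg_right _ (by norm_num)
      exact mul_le_mul_of_nonneg_left h3 (by positivity)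
    refine (add_le_add h7 h8).trans (le_of_eq ?_)
    field_simp
  refine (sum_le_sum h2).trans ?_
  rw [← mul_sum]
  apply mul_le_mul_of_nonneg_left _ (by positivity)
  rw [sum_add_distrib, ← mul_sum, ← mul_sum, sum_add_distrib, ← mul_sum, ← mul_sum]
  apply add_le_add
  · apply mul_le_mul_of_nonneg_left _ hθ.le
    rw [hℓ]
    exact harm X
  · apply mul_le_mul_of_nonneg_left _ (by positivity)
    apply add_le_add
    · have h3 : ∑ δ ∈ Icc 1 X, (δ.divisors.card : ℝ) ^ 2 / δ ≤ ℓ ^ 4 := by rw [hℓ]; exact tau_sq_div X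
      calc η * c ^ 2 * (X * ℓ ^ 3) * ∑ δ ∈ Icc 1 X, (δ.divisors.card : ℝ) ^ 2 / δ ≤ η * c ^ 2 * (X * ℓ ^ 3) * ℓ ^ 4 :=
            mul_le_mul_of_nonneg_left h3 (by positivity)
        _ = _ := by ring
    · apply mul_le_mul_of_nonneg_left _ hρ0
      have h4 : ∀ δ ∈ Icc 1 X, Sd δ ^ 2 ≤ (if δ ≤ Δ then S0 ^ 2 else 0) + (c ^ 2 * X ^ 2 * ℓ ^ 2 / Δ) * ((δ.divisors.card : ℝ) ^ 2 / δ) := by
        intro δ hδ
        rw [mem_Icc] at hδ
        have hδ0 : (0 : ℝ) < δ := by exact_mod_cast hδ.1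
        rw [hSd]
        simp only
        split_ifs with h
        · have : 0 ≤ (c ^ 2 * X ^ 2 * ℓ ^ 2 / Δ) * ((δ.divisors.card : ℝ) ^ 2 / δ) := by positivity
          linarith
        · rw [zero_add]
          have h5 : (Δ : ℝ) ≤ δ := by exact_mod_cast (by omega : Δ ≤ δ)
          have h6 : (c * ((δ.divisors.card : ℝ) * ((X : ℝ) / δ * ℓ))) ^ 2 = (c ^ 2 * X ^ 2 * ℓ ^ 2) * ((δ.divisors.card : ℝ) ^ 2 / δ) * (1 / δ) := by
            field_simp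
          have h7 : (c ^ 2 * X ^ 2 * ℓ ^ 2 / Δ) * ((δ.divisors.card : ℝ) ^ 2 / δ) = (c ^ 2 * X ^ 2 * ℓ ^ 2) * ((δ.divisors.card : ℝ) ^ 2 / δ) * (1 / Δ) := by
            field_simp
          rw [h6, h7]
          apply mul_le_mul_of_nonneg_left _ (by positivity)
          exact one_div_le_one_div_of_le hΔ0 h5
      refine (sum_le_sum h4).trans ?_
      rw [sum_add_distrib, ← mul_sum]
      apply add_le_add
      · rw [← sum_filter, sum_const, nsmul_eq_mul]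
        apply mul_le_mul_of_nonneg_right _ (by positivity)
        have : ((Icc 1 X).filter (fun δ => δ ≤ Δ)).card ≤ Δ := by
          calc ((Icc 1 X).filter (fun δ => δ ≤ Δ)).card ≤ (Icc 1 Δ).card := by
                apply card_le_card
                intro δ hδ
                rw [mem_filter, mem_Icc] at hδ
                rw [mem_Icc]
                omega
            _ = Δ := by simp
        exact_mod_cast this
      · have h3 : ∑ δ ∈ Icc 1 X, (δ.divisors.card : ℝ) ^ 2 / δ ≤ ℓ ^ 4 := by rw [hℓ]; exact tau_sq_div X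
        calc (c ^ 2 * X ^ 2 * ℓ ^ 2 / Δ) * ∑ δ ∈ Icc 1 X, (δ.divisors.card : ℝ) ^ 2 / δ ≤ (c ^ 2 * X ^ 2 * ℓ ^ 2 / Δ) * ℓ ^ 4 :=
              mul_le_mul_of_nonneg_left h3 (by positivity)
          _ = _ := by ring

end Pool.Agent.K1H51.LP
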