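import Pool.Agent.K1H51.LP.Ap

set_option autoImplicit false

/-! The exponential sum of the von Mangoldt function minus its truncated Ramanujan expansion. -/

namespace Pool.Agent.K1H51.LP

open Finset
open Pool.Agent.H373R2.T7
open Pool.Agent.H807R2.Dav

/-- the coefficients are small for a truncation at a power of the logarithm -/
lemma cR_small (E : ℕ) : ∃ N0 : ℕ, ∀ N : ℕ, N0 ≤ N → ∀ R : ℕ, (R : ℝ) ≤ Real.log N ^ E → cR R ≤ Real.log N := by
  have hlim : Filter.Tendsto (fun N : ℕ => Real.log (N : ℝ)) Filter.atTop Filter.atTop :=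
    Real.tendsto_log_atTop.comp (tendsto_natCast_atTop_atTop (R := ℝ))
  have h1 : ∀ᶠ N : ℕ in Filter.atTop, 1 ≤ Real.log (Real.log N) :=
    (Real.tendsto_log_atTop.comp hlim).eventually_ge_atTop 1
  have h2 : ∀ᶠ N : ℕ in Filter.atTop, ((2 * (E : ℝ) + 1) ^ 2 * (E + 1)) * Real.log (Real.log N) ^ 3 ≤ Real.log N := by
    have h3 := (Real.isLittleO_pow_log_id_atTop (n := 3)).bound (show (0 : ℝ) < 1 / ((2 * (E : ℝ) + 1) ^ 2 * (E + 1)) by positivity)
    have h4 := hlim.eventually h3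
    filter_upwards [h4, hlim.eventually_ge_atTop 1, h1] with N h5 h6 h7
    simp only [id] at h5
    rw [Real.norm_of_nonneg (by positivity), Real.norm_of_nonneg (by linarith), one_div, inv_mul_eq_div,
      le_div_iff₀ (by positivity)] at h5
    linarith
  obtain ⟨N0, h0⟩ := Filter.eventually_atTop.1 (h2.and (h1.and (hlim.eventually_ge_atTop 1)))
  refine ⟨N0, fun N hN R hR => ?_⟩
  obtain ⟨hb, hℓ, hL⟩ := h0 N hN
  obtain ⟨ℓ, hℓd⟩ : ∃ ℓ, ℓ = Real.log (Real.log N) := ⟨_, rfl⟩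
  rw [← hℓd] at hb hℓ
  refine le_trans ?_ hb
  have hE0 : (0 : ℝ) ≤ E := Nat.cast_nonneg _
  have hlogR : Real.log R ≤ E * ℓ := by
    rcases Nat.eq_zero_or_pos R with h | h
    · rw [h]
      simp only [Nat.cast_zero, Real.log_zero]
      positivity
    · have h4 := Real.log_le_log (by exact_mod_cast h : (0 : ℝ) < R) hR
      rw [Real.log_pow, ← hℓd] at h4
      exact h4
  have hlog2 : (Nat.log 2 R : ℝ) ≤ 2 * (E * ℓ) := by
    rcases Nat.eq_zero_or_pos R with h | h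
    · rw [h]
      simp only [Nat.log_zero_right, Nat.cast_zero]
      positivity
    · have h4 : (2 : ℝ) ^ (Nat.log 2 R) ≤ R := by
        exact_mod_cast Nat.pow_log_le_self 2 (by omega)
      have h5 := Real.log_le_log (by positivity) h4
      rw [Real.log_pow] at h5
      have h6 := Real.log_two_gt_d9
      have h7 : (0 : ℝ) ≤ Nat.log 2 R := Nat.cast_nonneg _
      nlinarith
  unfold cR
  have hR0 : 0 ≤ Real.log (R : ℝ) := Real.log_natCast_nonneg R
  have hl0 : (0 : ℝ) ≤ Nat.log 2 R := Nat.cast_nonneg _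
  have a1 : (Nat.log 2 R : ℝ) + 1 ≤ (2 * E + 1) * ℓ := by nlinarith
  have a2 : 1 + Real.log R ≤ (E + 1) * ℓ := by nlinarith
  calc ((Nat.log 2 R : ℝ) + 1) ^ 2 * (1 + Real.log R) ≤ ((2 * E + 1) * ℓ) ^ 2 * ((E + 1) * ℓ) := by gcongr
    _ = _ := by ring

lemma lamR_minor (E U : ℕ) : ∃ N0 : ℕ, ∀ N : ℕ, N0 ≤ N → ∀ R : ℕ, 1 ≤ R → (R : ℝ) ≤ Real.log N ^ E →
    ∀ q : ℕ, Real.log N ^ (U + 5) ≤ q → (q : ℝ) ≤ N / Real.log N ^ (U + 5) →
    ∀ c : ℤ, IsCoprime c (q : ℤ) → ∀ α : ℝ, |α - c / q| ≤ 1 / (q : ℝ) ^ 2 →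
    ‖∑ n ∈ Icc 1 N, ((lamR R n : ℝ) : ℂ) * ee ((n : ℝ) * α)‖ ≤ N / Real.log N ^ U := by
  obtain ⟨n0, h0⟩ := cR_small E
  obtain ⟨n1, h1⟩ := ev_log' (E + U + 5) 1
  obtain ⟨n2, h2⟩ := ev_L' 10000
  refine ⟨n0 + n1 + n2 + 1, fun N hN R hR1 hRE q hq1 hq2 c hcop α hα => ?_⟩
  have hc := h0 N (by omega) R hRE
  have a1 := h1 N (by omega)
  have hL := h2 N (by omega)
  have hN1 : 1 ≤ N := by omega
  have hNr : (1 : ℝ) ≤ N := by exact_mod_cast hN1
  have hN0 : (0 : ℝ) < N := by linarith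
  obtain ⟨L, hLd⟩ : ∃ L, L = Real.log (N : ℝ) := ⟨_, rfl⟩
  rw [← hLd] at hc a1 hL hRE hq1 hq2 ⊢
  have hL0 : 0 < L := by linarith
  have hL1 : 1 ≤ L := by linarith
  have hLB : 1 ≤ L ^ (U + 5) := one_le_pow₀ (by linarith)
  have hq0 : (0 : ℝ) < q := by linarith
  have hqn : 1 ≤ q := by exact_mod_cast hq0
  have hqr : (1 : ℝ) ≤ q := by exact_mod_cast hqn
  have hqN : (q : ℝ) ≤ N := hq2.trans (div_le_self hN0.le hLB)
  have hlq : Real.log q ≤ L := by rw [hLd]; exact Real.log_le_log hq0 hqN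
  have hlq0 : 0 ≤ Real.log q := Real.log_nonneg hqr
  have hR0 : (0 : ℝ) < R := by exact_mod_cast hR1
  have hsum : ‖∑ n ∈ Icc 1 N, ((lamR R n : ℝ) : ℂ) * ee ((n : ℝ) * α)‖ ≤ cR R * ∑ d ∈ Icc 1 R, KK (2 * N / d) (d * α) := by
    have h4 : ∑ n ∈ Icc 1 N, ((lamR R n : ℝ) : ℂ) * ee ((n : ℝ) * α) =
        ∑ d ∈ Icc 1 R, (aR R d : ℂ) * ∑ m ∈ Icc 1 (N / d), ee ((m : ℝ) * (d * α)) := by
      have h5 : ∀ n ∈ Icc 1 N, ((lamR R n : ℝ) : ℂ) * ee ((n : ℝ) * α) =
          ∑ d ∈ Icc 1 R, if d ∣ n then (aR R d : ℂ) * ee ((n : ℝ) * α) else 0 := by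
        intro n _
        unfold lamR
        rw [← sum_filter]
        push_cast
        rw [sum_mul]
      rw [sum_congr rfl h5, sum_comm]
      apply sum_congr rfl
      intro d hd
      rw [← sum_filter, ← mul_sum, sum_mult N d (mem_Icc.1 hd).1]
      congr 1
      apply sum_congr rfl
      intro m _
      congr 1
      push_cast
      ring
    rw [h4]
    refine (norm_sum_le _ _).trans ?_
    rw [mul_sum]
    apply sum_le_sum
    intro d hd
    rw [mem_Icc] at hd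
    have hd0 : (0 : ℝ) < d := by exact_mod_cast hd.1
    rw [norm_mul, Complex.norm_real, Real.norm_eq_abs]
    apply mul_le_mul (aR_le R d hd.1 hd.2) _ (norm_nonneg _) (cR_nonneg R)
    have h8 : Icc 1 (N / d) = Ico 1 (N / d + 1) := by ext x; rw [mem_Icc, mem_Ico]; omega
    rw [h8]
    apply geo_bound _ _ (Nat.le_add_left 1 _)
    push_cast
    have h9 : ((N / d : ℕ) : ℝ) ≤ N / d := Nat.cast_div_le
    have h10 : 0 ≤ (N : ℝ) / d := by positivity
    have h11 : 2 * (N : ℝ) / d = 2 * (N / d) := by ring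
    rw [h11]
    linarith
  have htI := typeI_lin hqn hcop hα N R hN1 hR1
  have hRN : (R : ℝ) ≤ N / L ^ (U + 5) := by
    rw [le_div_iff₀ (by positivity)]
    rw [one_mul, show E + U + 5 = E + (U + 5) by ring, pow_add] at a1
    have hsq : √(N : ℝ) ≤ N := by
      rw [Real.sqrt_le_left hN0.le]
      nlinarith
    calc (R : ℝ) * L ^ (U + 5) ≤ L ^ E * L ^ (U + 5) := mul_le_mul_of_nonneg_right hRE (by positivity)
      _ ≤ √(N : ℝ) := a1
      _ ≤ N := hsq
  have hlog2 : (Nat.log 2 R : ℝ) ≤ 2 * L := by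
    have h4 : (2 : ℝ) ^ Nat.log 2 R ≤ R := by exact_mod_cast Nat.pow_log_le_self 2 (by omega : R ≠ 0)
    have h5 : (R : ℝ) ≤ N := hRN.trans (div_le_self hN0.le hLB)
    have h6 := Real.log_le_log (by positivity) (h4.trans h5)
    rw [Real.log_pow, ← hLd] at h6
    have := Real.log_two_gt_d9
    have h7 : (0 : ℝ) ≤ Nat.log 2 R := Nat.cast_nonneg _
    nlinarith
  have hNq : (N : ℝ) / q ≤ N / L ^ (U + 5) := div_le_div_of_nonneg_left hN0.le (by positivity) hq1
  have hP : 0 ≤ (N : ℝ) / L ^ (U + 5) := by positivity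
  have hKK : 0 ≤ ∑ d ∈ Icc 1 R, KK (2 * N / d) (d * α) := sum_nonneg fun d _ => KK_nonneg (by positivity) _
  calc ‖∑ n ∈ Icc 1 N, ((lamR R n : ℝ) : ℂ) * ee ((n : ℝ) * α)‖
      ≤ L * (600 * (2 * L + 1) * (3 * (N / L ^ (U + 5))) * (1 + L)) := by
        refine hsum.trans (mul_le_mul hc (htI.trans ?_) hKK hL0.le)
        gcongr
        linarith
    _ = (1800 * (2 * L + 1) * (1 + L) / L ^ 4) * (N / L ^ U) := by
        field_simp
        ring
    _ ≤ 1 * (N / L ^ U) := by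
        apply mul_le_mul_of_nonneg_right _ (by positivity)
        have h5 : 1800 * (2 * L + 1) * (1 + L) / L ^ 4 ≤ 1 / 2 := by
          rw [div_le_iff₀ (by positivity)]
          have h6 : (10000 : ℝ) * L ^ 2 ≤ L ^ 3 := by nlinarith [sq_nonneg L]
          have h7 : (10000 : ℝ) * L ^ 3 ≤ L ^ 4 := by nlinarith [pow_pos hL0 3]
          nlinarith [sq_nonneg L]
        linarith
    _ = N / L ^ U := one_mul _

/-- the local model in progressions -/
lemma loc_ap (q y c : ℕ) (hq : 1 ≤ q) :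
    |∑ n ∈ (Icc 1 y).filter (fun n => n ≡ c [MOD q]), (if n.Coprime q then (q : ℝ) / Nat.totient q else 0) -
      (if c.Coprime q then (y : ℝ) / (Nat.totient q : ℝ) else 0)| ≤ q := by
  have hq0 : (0 : ℝ) < q := by exact_mod_cast hq
  have hphi : (1 : ℝ) ≤ Nat.totient q := by exact_mod_cast Nat.totient_pos.2 hq
  have hcopn : ∀ n ∈ (Icc 1 y).filter (fun n => n ≡ c [MOD q]), (n.Coprime q ↔ c.Coprime q) := by
    intro n hn
    rw [mem_filter] at hn
    unfold Nat.Coprime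
    rw [hn.2.gcd_eq]
  by_cases hc : c.Coprime q
  · rw [if_pos hc]
    have h1 : ∑ n ∈ (Icc 1 y).filter (fun n => n ≡ c [MOD q]), (if n.Coprime q then (q : ℝ) / Nat.totient q else 0) =
        (((Icc 1 y).filter (fun n => n ≡ c [MOD q])).card : ℝ) * ((q : ℝ) / Nat.totient q) := by
      rw [sum_congr rfl (fun n hn => if_pos ((hcopn n hn).2 hc)), sum_const, nsmul_eq_mul]
    rw [h1]
    have h2 := count_class y q c hq
    have h3 : (((Icc 1 y).filter (fun n => n ≡ c [MOD q])).card : ℝ) * ((q : ℝ) / Nat.totient q) - (y : ℝ) / (Nat.totient q : ℝ) =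
        ((((Icc 1 y).filter (fun n => n ≡ c [MOD q])).card : ℝ) - y / q) * ((q : ℝ) / Nat.totient q) := by
      field_simp
    rw [h3, abs_mul, abs_of_nonneg (show 0 ≤ (q : ℝ) / Nat.totient q by positivity)]
    calc _ ≤ 1 * ((q : ℝ) / Nat.totient q) := mul_le_mul_of_nonneg_right h2 (by positivity)
      _ ≤ q := by
          rw [one_mul]
          exact div_le_self hq0.le hphi
  · rw [if_neg hc, sum_congr rfl (fun n hn => if_neg (fun h => hc ((hcopn n hn).1 h))), sum_const_zero, sub_zero, abs_zero]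
    exact hq0.le

set_option maxHeartbeats 4000000 in
theorem sup_lamR (U : ℕ) : ∃ B : ℕ, ∀ E : ℕ, ∃ N0 : ℕ, ∀ N : ℕ, N0 ≤ N → ∀ R : ℕ, Real.log N ^ B ≤ R →
    (R : ℝ) ≤ Real.log N ^ E → ∀ α : ℝ,
    ‖∑ n ∈ Icc 1 N, ((ArithmeticFunction.vonMangoldt n - lamR R n : ℝ) : ℂ) * ee ((n : ℝ) * α)‖ ≤ N / Real.log N ^ U := by
  obtain ⟨B1, m1, hmin⟩ := minor_primes (U + 1)
  obtain ⟨B, hB⟩ : ∃ B, B = B1 + U + 6 := ⟨_, rfl⟩
  refine ⟨B, fun E => ?_⟩
  obtain ⟨m2, hlz⟩ := lamR_minor E (U + 1)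
  obtain ⟨m3, hap⟩ := lam_ap B (2 * B + U + 1)
  obtain ⟨m4, h4⟩ := cR_small E
  obtain ⟨m5, h5⟩ := ev_log' B 2
  obtain ⟨m6, h6⟩ := ev_L' 40
  obtain ⟨m7, h7⟩ := ev_log' (B + U + 1 + (3 * B + E + 1)) 3
  refine ⟨m1 + m2 + m3 + m4 + m5 + m6 + m7 + 4, fun N hN R hR1 hR2 α => ?_⟩
  have a5 := h5 N (by omega)
  have hL := h6 N (by omega)
  have a7 := h7 N (by omega)
  have a4 := h4 N (by omega) R hR2
  have hN4 : 4 ≤ N := by omega
  have hNr : (4 : ℝ) ≤ N := by exact_mod_cast hN4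
  have hN0 : (0 : ℝ) < N := by linarith
  have hmin := hmin N (by omega)
  have hlz := hlz N (by omega)
  have hap := hap N (by omega)
  obtain ⟨L, hLd⟩ : ∃ L, L = Real.log (N : ℝ) := ⟨_, rfl⟩
  rw [← hLd] at a5 hL a7 a4 hR1 hR2 hmin hlz hap ⊢
  have hL0 : 0 < L := by linarith
  have hL1 : 1 ≤ L := by linarith
  have hLB1 : 1 ≤ L ^ B := one_le_pow₀ hL1
  have hLB0 : 0 < L ^ B := by positivity
  have hsN : √(N : ℝ) ≤ N := by
    rw [Real.sqrt_le_left (by positivity)]; nlinarith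
  have h2LB : 2 * L ^ B ≤ N := a5.trans hsN
  have hRn : 1 ≤ R := by
    have : (1 : ℝ) ≤ R := hLB1.trans hR1
    exact_mod_cast this
  -- Dirichlet
  obtain ⟨Q, hQ⟩ : ∃ Q : ℕ, Q = ⌊(N : ℝ) / L ^ B⌋₊ := ⟨_, rfl⟩
  have hNLB : 2 ≤ (N : ℝ) / L ^ B := by rw [le_div_iff₀ hLB0]; exact h2LB
  have hQpos : 0 < Q := by
    rw [hQ, Nat.floor_pos]
    linarith
  obtain ⟨r, hr1, hr2⟩ := Real.exists_rat_abs_sub_le_and_den_le α hQpos
  obtain ⟨q, hq⟩ : ∃ q : ℕ, q = r.den := ⟨_, rfl⟩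
  have hq1 : 1 ≤ q := by rw [hq]; exact r.den_pos
  have hq0 : (0 : ℝ) < q := by exact_mod_cast hq1
  have hrq : ((r : ℚ) : ℝ) = (r.num : ℝ) / q := by
    rw [hq]; exact_mod_cast (Rat.num_div_den r).symm
  rw [hrq, ← hq] at hr1
  rw [← hq] at hr2
  have hcop : IsCoprime r.num (q : ℤ) := by
    rw [Int.isCoprime_iff_gcd_eq_one, hq]
    have := r.reduced
    rw [Nat.Coprime] at this
    rw [Int.gcd]
    simpa using this
  have hqQ : (q : ℝ) ≤ N / L ^ B := by
    have h1 : (q : ℝ) ≤ Q := by exact_mod_cast hr2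
    rw [hQ] at h1
    exact h1.trans (Nat.floor_le (by positivity))
  have hsplit : ∑ n ∈ Icc 1 N, ((ArithmeticFunction.vonMangoldt n - lamR R n : ℝ) : ℂ) * ee ((n : ℝ) * α) =
      ∑ n ∈ Icc 1 N, ((ArithmeticFunction.vonMangoldt n : ℝ) : ℂ) * ee ((n : ℝ) * α) -
      ∑ n ∈ Icc 1 N, ((lamR R n : ℝ) : ℂ) * ee ((n : ℝ) * α) := by
    rw [← sum_sub_distrib]
    apply sum_congr rfl
    intro n _
    push_cast
    ring
  rcases le_or_gt (L ^ B) (q : ℝ) with hqb | hqs
  · -- minor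
    have hα : |α - (r.num : ℝ) / q| ≤ 1 / (q : ℝ) ^ 2 := by
      refine hr1.trans ?_
      rw [pow_two]
      apply one_div_le_one_div_of_le (by positivity)
      apply mul_le_mul_of_nonneg_right _ hq0.le
      have h1 : (q : ℝ) ≤ Q := by exact_mod_cast hr2
      linarith
    have hB1 : L ^ B1 ≤ L ^ B := pow_le_pow_right₀ hL1 (by omega)
    have hB2 : L ^ (U + 1 + 5) ≤ L ^ B := pow_le_pow_right₀ hL1 (by omega)
    have h1 := hmin q (hB1.trans hqb) (hqQ.trans (div_le_div_of_nonneg_left hN0.le (by positivity) hB1)) r.num hcop α hα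
    have h2 := hlz R hRn hR2 q (hB2.trans hqb) (hqQ.trans (div_le_div_of_nonneg_left hN0.le (by positivity) hB2)) r.num hcop α hα
    rw [hsplit]
    refine (norm_sub_le _ _).trans ((add_le_add h1 h2).trans ?_)
    calc (N : ℝ) / L ^ (U + 1) + N / L ^ (U + 1) = 2 / L * (N / L ^ U) := by rw [pow_succ]; field_simp; ring
      _ ≤ 1 * (N / L ^ U) := by
          apply mul_le_mul_of_nonneg_right _ (by positivity)
          rw [div_le_one hL0]; linarith
      _ = _ := one_mul _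
  · -- major
    have hqR : q ≤ R := by
      have : (q : ℝ) ≤ R := hqs.le.trans hR1
      exact_mod_cast this
    have hqr1 : (1 : ℝ) ≤ q := by exact_mod_cast hq1
    have hpoly : (q : ℝ) * q + q ^ 3 + q * (cR R * R) ≤ N / L ^ (B + U + 1) := by
      rw [le_div_iff₀ (by positivity)]
      have hcR : cR R * R ≤ L * L ^ E := mul_le_mul a4 hR2 (Nat.cast_nonneg _) hL0.le
      have e1 : (q : ℝ) * q ≤ L ^ (3 * B + E + 1) := by
        calc (q : ℝ) * q ≤ L ^ B * L ^ B := mul_le_mul hqs.le hqs.le hq0.le hLB0.le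
          _ = L ^ (2 * B) := by rw [two_mul, pow_add]
          _ ≤ _ := pow_le_pow_right₀ hL1 (by omega)
      have e2 : (q : ℝ) ^ 3 ≤ L ^ (3 * B + E + 1) := by
        calc (q : ℝ) ^ 3 ≤ (L ^ B) ^ 3 := pow_le_pow_left₀ hq0.le hqs.le 3
          _ = L ^ (3 * B) := by rw [← pow_mul, mul_comm]
          _ ≤ _ := pow_le_pow_right₀ hL1 (by omega)
      have e3 : (q : ℝ) * (cR R * R) ≤ L ^ (3 * B + E + 1) := by
        have hc0 : 0 ≤ cR R * R := mul_nonneg (cR_nonneg R) (Nat.cast_nonneg _)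
        calc (q : ℝ) * (cR R * R) ≤ L ^ B * (L * L ^ E) := mul_le_mul hqs.le hcR hc0 hLB0.le
          _ = L ^ (B + E + 1) := by rw [pow_succ, pow_add]; ring
          _ ≤ _ := pow_le_pow_right₀ hL1 (by omega)
      calc ((q : ℝ) * q + q ^ 3 + q * (cR R * R)) * L ^ (B + U + 1) ≤ (3 * L ^ (3 * B + E + 1)) * L ^ (B + U + 1) := by
            apply mul_le_mul_of_nonneg_right _ (by positivity)
            linarith
        _ = 3 * L ^ (B + U + 1 + (3 * B + E + 1)) := by rw [pow_add L (B + U + 1)]; ring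
        _ ≤ √(N : ℝ) := a7
        _ ≤ N := hsN
    have hpart : ∀ y : ℕ, y ≤ N → ‖∑ n ∈ Icc 1 y, ((ArithmeticFunction.vonMangoldt n - lamR R n : ℝ) : ℂ) * ee (n * ((r.num : ℝ) / q))‖ ≤
        2 * (N / L ^ (B + U + 1)) := by
      intro y hy
      have h1 := rat_twist (fun n => ArithmeticFunction.vonMangoldt n - (if n.Coprime q then (q : ℝ) / Nat.totient q else 0)) y q hq1 r.num
        (N / L ^ (2 * B + U + 1) + q) (by
          intro c
          have e1 := hap q hq1 hqs.le c y hy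
          have e2 := loc_ap q y c hq1
          have e3 : ∑ n ∈ (Icc 1 y).filter (fun n => n ≡ c [MOD q]), (ArithmeticFunction.vonMangoldt n - (if n.Coprime q then (q : ℝ) / Nat.totient q else 0)) =
              (∑ n ∈ (Icc 1 y).filter (fun n => n ≡ c [MOD q]), ArithmeticFunction.vonMangoldt n -
                (if c.Coprime q then (y : ℝ) / (Nat.totient q : ℝ) else 0)) -
              (∑ n ∈ (Icc 1 y).filter (fun n => n ≡ c [MOD q]), (if n.Coprime q then (q : ℝ) / Nat.totient q else 0) -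
                (if c.Coprime q then (y : ℝ) / (Nat.totient q : ℝ) else 0)) := by
            rw [sum_sub_distrib]
            ring
          rw [e3]
          exact (abs_sub _ _).trans (add_le_add e1 e2))
      have h2 := loc_twist q y hq1 r.num hcop
      have h3 := lamR_twist R q y hq1 hqR r.num hcop
      have h8 : ∑ n ∈ Icc 1 y, ((ArithmeticFunction.vonMangoldt n - lamR R n : ℝ) : ℂ) * ee (n * ((r.num : ℝ) / q)) =
          ∑ n ∈ Icc 1 y, ((ArithmeticFunction.vonMangoldt n - (if n.Coprime q then (q : ℝ) / Nat.totient q else 0) : ℝ) : ℂ) * ee (n * ((r.num : ℝ) / q)) +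
          (∑ n ∈ Icc 1 y, (((if n.Coprime q then (q : ℝ) / Nat.totient q else 0) : ℝ) : ℂ) * ee ((n : ℝ) * ((r.num : ℝ) / q)) -
            ((y * (((ArithmeticFunction.moebius q : ℤ) : ℝ) / (Nat.totient q : ℝ)) : ℝ) : ℂ)) -
          (∑ n ∈ Icc 1 y, ((lamR R n : ℝ) : ℂ) * ee ((n : ℝ) * ((r.num : ℝ) / q)) -
            ((y * (((ArithmeticFunction.moebius q : ℤ) : ℝ) / (Nat.totient q : ℝ)) : ℝ) : ℂ)) := by
        have h9 : ∑ n ∈ Icc 1 y, ((ArithmeticFunction.vonMangoldt n - lamR R n : ℝ) : ℂ) * ee (n * ((r.num : ℝ) / q)) =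
            ∑ n ∈ Icc 1 y, ((ArithmeticFunction.vonMangoldt n - (if n.Coprime q then (q : ℝ) / Nat.totient q else 0) : ℝ) : ℂ) * ee (n * ((r.num : ℝ) / q)) +
            ∑ n ∈ Icc 1 y, (((if n.Coprime q then (q : ℝ) / Nat.totient q else 0) : ℝ) : ℂ) * ee ((n : ℝ) * ((r.num : ℝ) / q)) -
            ∑ n ∈ Icc 1 y, ((lamR R n : ℝ) : ℂ) * ee ((n : ℝ) * ((r.num : ℝ) / q)) := by
          rw [← sum_add_distrib, ← sum_sub_distrib]
          apply sum_congr rfl
          intro n _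
          push_cast
          ring
        rw [h9]
        ring
      rw [h8]
      refine (norm_sub_le _ _).trans ((add_le_add ((norm_add_le _ _).trans (add_le_add h1 h2)) h3).trans ?_)
      have e4 : (q : ℝ) * (N / L ^ (2 * B + U + 1)) ≤ N / L ^ (B + U + 1) := by
        calc (q : ℝ) * (N / L ^ (2 * B + U + 1)) ≤ L ^ B * (N / L ^ (2 * B + U + 1)) :=
              mul_le_mul_of_nonneg_right hqs.le (by positivity)
          _ = N / L ^ (B + U + 1) := by
              have e : L ^ (2 * B + U + 1) = L ^ B * L ^ (B + U + 1) := by rw [← pow_add]; congr 1; ring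
              rw [e]
              field_simp
      calc (q : ℝ) * (N / L ^ (2 * B + U + 1) + q) + q ^ 3 + q * (cR R * R) =
            q * (N / L ^ (2 * B + U + 1)) + (q * q + q ^ 3 + q * (cR R * R)) := by ring
        _ ≤ N / L ^ (B + U + 1) + N / L ^ (B + U + 1) := add_le_add e4 hpoly
        _ = _ := by ring
    obtain ⟨γ, hγ⟩ : ∃ γ : ℝ, γ = α - (r.num : ℝ) / q := ⟨_, rfl⟩
    have h1 := abel_ee (fun n => ((ArithmeticFunction.vonMangoldt n - lamR R n : ℝ) : ℂ) * ee (n * ((r.num : ℝ) / q))) γ (2 * (N / L ^ (B + U + 1))) N hpart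
    have h2 : ∑ n ∈ Icc 1 N, ((ArithmeticFunction.vonMangoldt n - lamR R n : ℝ) : ℂ) * ee ((n : ℝ) * α) =
        ∑ n ∈ Icc 1 N, (((ArithmeticFunction.vonMangoldt n - lamR R n : ℝ) : ℂ) * ee (n * ((r.num : ℝ) / q))) * ee (n * γ) := by
      apply sum_congr rfl
      intro n _
      rw [mul_assoc, ← ee_add]
      congr 2
      rw [hγ]
      ring
    rw [h2]
    refine h1.trans ?_
    rw [← hγ] at hr1
    have hβ : |γ| ≤ L ^ B / N := by
      refine hr1.trans ?_
      rw [div_le_div_iff₀ (by positivity) hN0, one_mul]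
      have h3 : (N : ℝ) / L ^ B ≤ (Q : ℝ) + 1 := by rw [hQ]; exact (Nat.lt_floor_add_one _).le
      rw [div_le_iff₀ hLB0] at h3
      have h5 : ((Q : ℝ) + 1) * L ^ B ≤ ((Q : ℝ) + 1) * L ^ B * q := le_mul_of_one_le_right (by positivity) hqr1
      calc (N : ℝ) ≤ ((Q : ℝ) + 1) * L ^ B := h3
        _ ≤ ((Q : ℝ) + 1) * L ^ B * q := h5
        _ = L ^ B * (((Q : ℝ) + 1) * q) := by ring
    have h3 : (N : ℝ) * ‖ee γ - 1‖ ≤ 7 * L ^ B := by
      have h4 : ‖ee γ - 1‖ ≤ 2 * Real.pi * |γ| := by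
        have := dd_le γ
        unfold dd at this
        rw [norm_sub_rev] at this
        exact this
      have h5 : |γ| * N ≤ L ^ B := by
        rw [le_div_iff₀ hN0] at hβ
        exact hβ
      have hpi : Real.pi < 3.15 := Real.pi_lt_d2
      have h6 : 0 ≤ |γ| * N := by positivity
      calc (N : ℝ) * ‖ee γ - 1‖ ≤ N * (2 * Real.pi * |γ|) := by gcongr
        _ = 2 * Real.pi * (|γ| * N) := by ring
        _ ≤ 7 * (|γ| * N) := by
            apply mul_le_mul_of_nonneg_right _ h6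
            linarith
        _ ≤ 7 * L ^ B := by linarith
    calc 2 * (N / L ^ (B + U + 1)) * (1 + N * ‖ee γ - 1‖) ≤ 2 * (N / L ^ (B + U + 1)) * (8 * L ^ B) := by
          apply mul_le_mul_of_nonneg_left _ (by positivity)
          linarith
      _ = (16 / L) * (N / L ^ U) := by
          have e : L ^ (B + U + 1) = L ^ B * L ^ U * L := by rw [← pow_add, ← pow_succ]
          rw [e]
          field_simp
          ring
      _ ≤ 1 * (N / L ^ U) := by
          apply mul_le_mul_of_nonneg_right _ (by positivity)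
          rw [div_le_one hL0]
          linarith
      _ = N / L ^ U := one_mul _

end Pool.Agent.K1H51.LP
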