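import Pool.Agent.K1H51.LP.Mom2
import Pool.Agent.K1H51.LP.Sup

set_option autoImplicit false

/-! The first moment of the discrepancies along a family with a small large spectrum, with explicit powers of
the logarithm. -/

namespace Pool.Agent.K1H51.LP

open Finset Pool.Agent.H373R2.T7
open Pool.Agent.H807R2.Dav
open Pool.Agent.W93.LV (log1_nonneg)

set_option maxHeartbeats 4000000 in
lemma num_alg (L N b X c ℓ ρ Δ : ℝ) (T V K : ℕ) (hN : 0 < N) (hb : 1 ≤ b) (hL : 18432 * b ^ 3 ≤ L) (hX : X = b * N)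
    (hc0 : 0 ≤ c) (hc : c ≤ 3 * L) (hℓ0 : 0 ≤ ℓ) (hℓ : ℓ ≤ 2 * L) (hρ0 : 0 ≤ ρ) (hρ : ρ * N ≤ L ^ K)
    (hΔ1 : L ^ (2 * T + 2 * V + K + 15) ≤ Δ) (hΔ2 : Δ ≤ 2 * L ^ (2 * T + 2 * V + K + 15)) :
    (N / L ^ (V + 2)) * ℓ + (2 * (L ^ T) ^ 2 * X * ℓ ^ 3 / (N / L ^ (V + 2))) *
        ((1 / L ^ (2 * T + 2 * V + 16)) * c ^ 2 * (X * ℓ ^ 7) +
          ρ * (Δ * (N / L ^ (3 * T + 3 * V + 2 * K + 19)) ^ 2 + c ^ 2 * X ^ 2 * ℓ ^ 6 / Δ)) ≤ 2 * (N / L ^ V) := by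
  have hb0 : 0 < b := by linarith
  have hb3 : 1 ≤ b ^ 3 := one_le_pow₀ hb
  have hb2 : 1 ≤ b ^ 2 := one_le_pow₀ hb
  have hb23 : b ^ 2 ≤ b ^ 3 := pow_le_pow_right₀ hb (by norm_num)
  have hb13 : b ≤ b ^ 3 := by
    calc b = b ^ 1 := (pow_one b).symm
      _ ≤ b ^ 3 := pow_le_pow_right₀ hb (by norm_num)
  have hL1 : 18432 ≤ L := by linarith
  have hL0 : 0 < L := by linarith
  have hL1' : 1 ≤ L := by linarith
  subst hX
  obtain ⟨p, hp⟩ : ∃ p, p = L ^ V := ⟨_, rfl⟩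
  obtain ⟨t, ht⟩ : ∃ t, t = L ^ T := ⟨_, rfl⟩
  obtain ⟨k, hk⟩ : ∃ k, k = L ^ K := ⟨_, rfl⟩
  have hp0 : 0 < p := by rw [hp]; positivity
  have ht0 : 0 < t := by rw [ht]; positivity
  have hk0 : 0 < k := by rw [hk]; positivity
  have hp1 : 1 ≤ p := by rw [hp]; exact one_le_pow₀ hL1'
  have ht1 : 1 ≤ t := by rw [ht]; exact one_le_pow₀ hL1'
  have hk1 : 1 ≤ k := by rw [hk]; exact one_le_pow₀ hL1'
  have e1 : L ^ (V + 2) = p * L ^ 2 := by rw [hp]; ring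
  have e2 : L ^ (2 * T + 2 * V + 16) = t ^ 2 * p ^ 2 * L ^ 16 := by rw [hp, ht]; ring
  have e3 : L ^ (3 * T + 3 * V + 2 * K + 19) = t ^ 3 * p ^ 3 * k ^ 2 * L ^ 19 := by rw [hp, ht, hk]; ring
  have e4 : L ^ (2 * T + 2 * V + K + 15) = t ^ 2 * p ^ 2 * k * L ^ 15 := by rw [hp, ht, hk]; ring
  rw [e4] at hΔ1 hΔ2
  rw [← hk] at hρ
  rw [e1, e2, e3, ← ht, ← hp]
  have hΔ0 : 0 < Δ := lt_of_lt_of_le (by positivity) hΔ1
  obtain ⟨G, hG⟩ : ∃ G, G = N / (p * L) := ⟨_, rfl⟩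
  have hG0 : 0 < G := by rw [hG]; positivity
  have s1 : N / (p * L ^ 2) * ℓ ≤ 2 * G := by
    calc N / (p * L ^ 2) * ℓ ≤ N / (p * L ^ 2) * (2 * L) := mul_le_mul_of_nonneg_left hℓ (by positivity)
      _ = 2 * G := by rw [hG]; field_simp
  have hP : 2 * t ^ 2 * (b * N) * ℓ ^ 3 / (N / (p * L ^ 2)) ≤ 16 * b * (t ^ 2 * p * L ^ 5) := by
    calc 2 * t ^ 2 * (b * N) * ℓ ^ 3 / (N / (p * L ^ 2)) ≤ 2 * t ^ 2 * (b * N) * (2 * L) ^ 3 / (N / (p * L ^ 2)) := by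
          gcongr
      _ = _ := by field_simp; ring
  obtain ⟨P, hPd⟩ : ∃ P, P = 2 * t ^ 2 * (b * N) * ℓ ^ 3 / (N / (p * L ^ 2)) := ⟨_, rfl⟩
  have hP0 : 0 ≤ P := by rw [hPd]; positivity
  rw [← hPd] at hP ⊢
  have q1 : 1 / (t ^ 2 * p ^ 2 * L ^ 16) * c ^ 2 * ((b * N) * ℓ ^ 7) ≤ 1152 * b * N * L ^ 9 / (t ^ 2 * p ^ 2 * L ^ 16) := by
    calc 1 / (t ^ 2 * p ^ 2 * L ^ 16) * c ^ 2 * ((b * N) * ℓ ^ 7) ≤ 1 / (t ^ 2 * p ^ 2 * L ^ 16) * (3 * L) ^ 2 * ((b * N) * (2 * L) ^ 7) := by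
          gcongr
      _ = _ := by field_simp; ring
  have q2 : ρ * (Δ * (N / (t ^ 3 * p ^ 3 * k ^ 2 * L ^ 19)) ^ 2) ≤ 2 * N / (t ^ 4 * p ^ 4 * k ^ 2 * L ^ 23) := by
    have h1 : ρ * (Δ * (N / (t ^ 3 * p ^ 3 * k ^ 2 * L ^ 19)) ^ 2) = (ρ * N) * (Δ * (N / (t ^ 3 * p ^ 3 * k ^ 2 * L ^ 19) ^ 2)) := by
      field_simp
    rw [h1]
    calc (ρ * N) * (Δ * (N / (t ^ 3 * p ^ 3 * k ^ 2 * L ^ 19) ^ 2)) ≤ k * ((2 * (t ^ 2 * p ^ 2 * k * L ^ 15)) * (N / (t ^ 3 * p ^ 3 * k ^ 2 * L ^ 19) ^ 2)) := by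
          gcongr
      _ = _ := by field_simp
  have q3 : ρ * (c ^ 2 * (b * N) ^ 2 * ℓ ^ 6 / Δ) ≤ 576 * b ^ 2 * N / (t ^ 2 * p ^ 2 * L ^ 7) := by
    have h1 : ρ * (c ^ 2 * (b * N) ^ 2 * ℓ ^ 6 / Δ) = (ρ * N) * (c ^ 2 * (b ^ 2 * N) * ℓ ^ 6 / Δ) := by ring
    rw [h1]
    calc (ρ * N) * (c ^ 2 * (b ^ 2 * N) * ℓ ^ 6 / Δ) ≤ k * ((3 * L) ^ 2 * (b ^ 2 * N) * (2 * L) ^ 6 / (t ^ 2 * p ^ 2 * k * L ^ 15)) := by
          gcongr
      _ = _ := by field_simp; ring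
  have r1 : P * (1 / (t ^ 2 * p ^ 2 * L ^ 16) * c ^ 2 * ((b * N) * ℓ ^ 7)) ≤ G := by
    calc P * (1 / (t ^ 2 * p ^ 2 * L ^ 16) * c ^ 2 * ((b * N) * ℓ ^ 7)) ≤ (16 * b * (t ^ 2 * p * L ^ 5)) * (1152 * b * N * L ^ 9 / (t ^ 2 * p ^ 2 * L ^ 16)) :=
          mul_le_mul hP q1 (by positivity) (by positivity)
      _ = (18432 * b ^ 2 / L) * G := by rw [hG]; field_simp; ring
      _ ≤ 1 * G := by
          apply mul_le_mul_of_nonneg_right _ hG0.le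
          rw [div_le_one hL0]
          linarith
      _ = G := one_mul G
  have r2 : P * (ρ * (Δ * (N / (t ^ 3 * p ^ 3 * k ^ 2 * L ^ 19)) ^ 2)) ≤ G := by
    calc P * (ρ * (Δ * (N / (t ^ 3 * p ^ 3 * k ^ 2 * L ^ 19)) ^ 2)) ≤ (16 * b * (t ^ 2 * p * L ^ 5)) * (2 * N / (t ^ 4 * p ^ 4 * k ^ 2 * L ^ 23)) :=
          mul_le_mul hP q2 (by positivity) (by positivity)
      _ = (32 * b / (t ^ 2 * p ^ 2 * k ^ 2 * L ^ 17)) * G := by rw [hG]; field_simp; ring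
      _ ≤ 1 * G := by
          apply mul_le_mul_of_nonneg_right _ hG0.le
          rw [div_le_one (by positivity)]
          have h1 : 32 * b ≤ L := by linarith
          have h2 : L ≤ L ^ 17 := by
            calc L = L ^ 1 := (pow_one L).symm
              _ ≤ L ^ 17 := pow_le_pow_right₀ hL1' (by norm_num)
          have h3 : 1 ≤ t ^ 2 * p ^ 2 * k ^ 2 := by
            have a1 : 1 ≤ t ^ 2 := one_le_pow₀ ht1
            have a2 : 1 ≤ p ^ 2 := one_le_pow₀ hp1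
            have a3 : 1 ≤ k ^ 2 := one_le_pow₀ hk1
            calc (1 : ℝ) = 1 * 1 * 1 := by ring
              _ ≤ t ^ 2 * p ^ 2 * k ^ 2 := by gcongr
          calc 32 * b ≤ L := h1
            _ ≤ L ^ 17 := h2
            _ = 1 * L ^ 17 := (one_mul _).symm
            _ ≤ t ^ 2 * p ^ 2 * k ^ 2 * L ^ 17 := mul_le_mul_of_nonneg_right h3 (by positivity)
      _ = G := one_mul G
  have r3 : P * (ρ * (c ^ 2 * (b * N) ^ 2 * ℓ ^ 6 / Δ)) ≤ G := by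
    calc P * (ρ * (c ^ 2 * (b * N) ^ 2 * ℓ ^ 6 / Δ)) ≤ (16 * b * (t ^ 2 * p * L ^ 5)) * (576 * b ^ 2 * N / (t ^ 2 * p ^ 2 * L ^ 7)) :=
          mul_le_mul hP q3 (by positivity) (by positivity)
      _ = (9216 * b ^ 3 / L) * G := by rw [hG]; field_simp; ring
      _ ≤ 1 * G := by
          apply mul_le_mul_of_nonneg_right _ hG0.le
          rw [div_le_one hL0]
          linarith
      _ = G := one_mul G
  have hfin : P * ((1 / (t ^ 2 * p ^ 2 * L ^ 16)) * c ^ 2 * ((b * N) * ℓ ^ 7) +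
          ρ * (Δ * (N / (t ^ 3 * p ^ 3 * k ^ 2 * L ^ 19)) ^ 2 + c ^ 2 * (b * N) ^ 2 * ℓ ^ 6 / Δ)) ≤ 3 * G := by
    have : P * ((1 / (t ^ 2 * p ^ 2 * L ^ 16)) * c ^ 2 * ((b * N) * ℓ ^ 7) +
          ρ * (Δ * (N / (t ^ 3 * p ^ 3 * k ^ 2 * L ^ 19)) ^ 2 + c ^ 2 * (b * N) ^ 2 * ℓ ^ 6 / Δ)) =
        P * (1 / (t ^ 2 * p ^ 2 * L ^ 16) * c ^ 2 * ((b * N) * ℓ ^ 7)) + P * (ρ * (Δ * (N / (t ^ 3 * p ^ 3 * k ^ 2 * L ^ 19)) ^ 2)) +
        P * (ρ * (c ^ 2 * (b * N) ^ 2 * ℓ ^ 6 / Δ)) := by ring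
    rw [this]
    linarith
  have hGN : 5 * G ≤ 2 * (N / p) := by
    have h1 : G = (1 / L) * (N / p) := by rw [hG]; field_simp
    rw [h1]
    have h2 : 5 * (1 / L) ≤ 2 := by
      rw [mul_one_div, div_le_iff₀ hL0]
      linarith
    have h3 : 0 < N / p := by positivity
    nlinarith
  linarith

set_option maxHeartbeats 4000000 in
theorem mom_num (B T V K E1 : ℕ) : ∃ E0 : ℕ, E1 ≤ E0 ∧ ∃ N0 : ℕ, ∀ N : ℕ, N0 ≤ N → ∀ M : ℕ, 3 * ((B + 1) * N) ≤ M →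
    ∀ {ι : Type*} (I : Finset ι) (s : ι → ℤ),
    ((spec M I s (1 / Real.log N ^ (2 * T + 2 * V + 16))).card : ℝ) * N ≤ Real.log N ^ K * M →
    ∀ R : ℕ, R = ⌈Real.log N ^ E0⌉₊ → ∀ lam : ℕ → ℝ, (∀ q, |lam q| ≤ Real.log N ^ T) → ∀ Q y : ℕ, √(N : ℝ) ≤ y →
    y ≤ (B + 1) * N →
    ∑ i ∈ I.filter (fun i => 1 ≤ s i ∧ s i ≤ (((B + 1) * N : ℕ) : ℤ)), ∑ δ ∈ (s i).toNat.divisors, |TT R lam Q y δ (s i).toNat| ≤
      I.card * (N / Real.log N ^ V) := by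
  obtain ⟨W, hW⟩ : ∃ W, W = 3 * T + 3 * V + 2 * K + 19 := ⟨_, rfl⟩
  obtain ⟨B0, h0⟩ := sup_lamR (W + 1)
  obtain ⟨E0, hE0⟩ : ∃ E0, E0 = E1 + B0 + 1 := ⟨_, rfl⟩
  obtain ⟨m1, h1⟩ := h0 (E0 + 2)
  obtain ⟨m2, h2⟩ := cR_small (E0 + 1)
  obtain ⟨m3, h3⟩ := ev_L' (18432 * ((B : ℝ) + 1) ^ 3 + Real.log ((B : ℝ) + 1) + 2 ^ (E0 + 2) + ((B : ℝ) + 1) * 2 ^ (W + 1) + 2 ^ B0)
  refine ⟨E0, by omega, m1 ^ 2 + m2 + m3 + 4, fun N hN M hM ι I s hspec R hR lam hlam Q y hy1 hy2 => ?_⟩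
  have h2 := h2 N (by nlinarith)
  have h3 := h3 N (by nlinarith)
  have hN4 : 4 ≤ N := by nlinarith
  have hN0 : (0 : ℝ) < N := by exact_mod_cast (by omega : 0 < N)
  obtain ⟨L, hL⟩ : ∃ L, L = Real.log (N : ℝ) := ⟨_, rfl⟩
  rw [← hL] at h2 h3 hspec hR hlam ⊢
  obtain ⟨b, hb⟩ : ∃ b : ℝ, b = (B : ℝ) + 1 := ⟨_, rfl⟩
  rw [← hb] at h3
  have hb1 : 1 ≤ b := by rw [hb]; linarith [(Nat.cast_nonneg B : (0 : ℝ) ≤ B)]
  have hb0 : 0 < b := by linarith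
  have hb3 : 1 ≤ b ^ 3 := one_le_pow₀ hb1
  have hlb : 0 ≤ Real.log b := Real.log_nonneg hb1
  have hp1 : (0 : ℝ) ≤ 2 ^ (E0 + 2) := by positivity
  have hp2 : (0 : ℝ) ≤ b * 2 ^ (W + 1) := by positivity
  have hp3 : (0 : ℝ) ≤ 2 ^ B0 := by positivity
  have hLb : 18432 * b ^ 3 ≤ L := by linarith
  have hLlb : 1 + Real.log b ≤ L := by linarith
  have hLE : (2 : ℝ) ^ (E0 + 2) ≤ L := by linarith
  have hLW : b * 2 ^ (W + 1) ≤ L := by linarith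
  have hLB : (2 : ℝ) ^ B0 ≤ L := by linarith
  have hL1 : 2 ≤ L := by linarith
  have hL0 : 0 < L := by linarith
  have hL1' : 1 ≤ L := by linarith
  obtain ⟨X, hX⟩ : ∃ X : ℕ, X = (B + 1) * N := ⟨_, rfl⟩
  rw [← hX] at hM hy2 ⊢
  have hXr : (X : ℝ) = b * N := by rw [hX, hb]; push_cast; ring
  have hX1 : 1 ≤ X := by
    rw [hX]
    exact Nat.mul_pos (by omega) (by omega)
  have hlogX : Real.log X = Real.log b + L := by rw [hXr, Real.log_mul hb0.ne' hN0.ne', hL]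
  have hlX : 1 + Real.log X ≤ 2 * L := by rw [hlogX]; linarith
  have hlX0 : 0 ≤ Real.log (X : ℝ) := Real.log_natCast_nonneg X
  -- R
  have hLE0 : 1 ≤ L ^ E0 := one_le_pow₀ hL1'
  have hR1 : L ^ E0 ≤ R := by rw [hR]; exact Nat.le_ceil _
  have hR2 : (R : ℝ) ≤ L ^ (E0 + 1) := by
    have q1 : (R : ℝ) < L ^ E0 + 1 := by rw [hR]; exact Nat.ceil_lt_add_one (by positivity)
    rw [pow_succ]
    nlinarith
  have hcR := h2 R hR2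
  -- y
  have hsN : (0 : ℝ) < √(N : ℝ) := Real.sqrt_pos.2 hN0
  have hy0 : (0 : ℝ) < y := lt_of_lt_of_le hsN hy1
  have hlogy1 : L / 2 ≤ Real.log y := by
    have := Real.log_le_log hsN hy1
    rw [Real.log_sqrt hN0.le, ← hL] at this
    exact this
  have hlogy2 : Real.log y ≤ 2 * L := by
    have := Real.log_le_log hy0 (by exact_mod_cast hy2 : (y : ℝ) ≤ X)
    linarith
  have hlogy0 : 0 < Real.log y := by linarith
  have hym : m1 ≤ y := by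
    have a1 : (m1 : ℝ) ≤ √(N : ℝ) := by
      rw [Real.le_sqrt (Nat.cast_nonneg _) hN0.le]
      exact_mod_cast (by omega : m1 ^ 2 ≤ N)
    exact_mod_cast a1.trans hy1
  have hS : ∀ α : ℝ, ‖∑ n ∈ Icc 1 y, ((fR R n : ℝ) : ℂ) * ee ((n : ℝ) * α)‖ ≤ N / L ^ W := by
    intro α
    have a1 := h1 y hym R (by
      calc Real.log y ^ B0 ≤ (2 * L) ^ B0 := pow_le_pow_left₀ hlogy0.le hlogy2 _
        _ = 2 ^ B0 * L ^ B0 := mul_pow _ _ _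
        _ ≤ L * L ^ B0 := mul_le_mul_of_nonneg_right hLB (by positivity)
        _ = L ^ (B0 + 1) := by rw [pow_succ]; ring
        _ ≤ L ^ E0 := pow_le_pow_right₀ hL1' (by omega)
        _ ≤ R := hR1) (by
      refine hR2.trans ?_
      calc L ^ (E0 + 1) ≤ (L / 2) ^ (E0 + 2) := by
            rw [div_pow, le_div_iff₀ (by positivity), pow_succ L (E0 + 1)]
            exact mul_le_mul_of_nonneg_left hLE (by positivity)
        _ ≤ Real.log y ^ (E0 + 2) := pow_le_pow_left₀ (by positivity) hlogy1 _) α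
    unfold fR
    refine a1.trans ?_
    have a2 : (L / 2) ^ (W + 1) ≤ Real.log y ^ (W + 1) := pow_le_pow_left₀ (by positivity) hlogy1 _
    have a3 : (y : ℝ) ≤ b * N := by rw [← hXr]; exact_mod_cast hy2
    calc (y : ℝ) / Real.log y ^ (W + 1) ≤ (b * N) / (L / 2) ^ (W + 1) := by
          apply div_le_div₀ (by positivity) a3 (by positivity) a2
      _ = (b * 2 ^ (W + 1) / L) * (N / L ^ W) := by
          rw [div_pow, pow_succ L W]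
          field_simp
      _ ≤ 1 * (N / L ^ W) := by
          apply mul_le_mul_of_nonneg_right _ (by positivity)
          rw [div_le_one hL0]
          exact hLW
      _ = N / L ^ W := one_mul _
  obtain ⟨D, hD⟩ : ∃ D, D = 2 * T + 2 * V + K + 15 := ⟨_, rfl⟩
  obtain ⟨Δ, hΔ⟩ : ∃ Δ : ℕ, Δ = ⌈L ^ D⌉₊ := ⟨_, rfl⟩
  have hLD : 1 ≤ L ^ D := one_le_pow₀ hL1'
  have hΔ1 : L ^ D ≤ Δ := by rw [hΔ]; exact Nat.le_ceil _
  have hΔ2 : (Δ : ℝ) ≤ 2 * L ^ D := by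
    have q1 : (Δ : ℝ) < L ^ D + 1 := by rw [hΔ]; exact Nat.ceil_lt_add_one (by positivity)
    linarith
  have hΔn : 1 ≤ Δ := by
    have : (1 : ℝ) ≤ Δ := hLD.trans hΔ1
    exact_mod_cast this
  have hM0 : (0 : ℝ) < M := by exact_mod_cast (by omega : 0 < M)
  have key := moment I s M X y Q R Δ hM hX1 hy2 hΔn lam (L ^ T) hlam (1 / L ^ (2 * T + 2 * V + 16)) (N / L ^ W)
    (N / L ^ (V + 2)) (by positivity) (by positivity) hS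
  refine key.trans ?_
  have halg := num_alg L N b X (Real.log X + cR R) (1 + Real.log X) ((spec M I s (1 / L ^ (2 * T + 2 * V + 16))).card / M) Δ T V K
    hN0 hb1 hLb hXr (add_nonneg hlX0 (cR_nonneg R)) (by linarith) (log1_nonneg X) hlX (by positivity) (by
      rw [div_mul_eq_mul_div, div_le_iff₀ hM0]
      exact hspec) (by rw [← hD]; exact hΔ1) (by rw [← hD]; exact hΔ2)
  rw [← hW] at halg
  calc (I.card : ℝ) / 2 * _ ≤ (I.card : ℝ) / 2 * (2 * (N / L ^ V)) := mul_le_mul_of_nonneg_left halg (by positivity)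
    _ = I.card * (N / L ^ V) := by ring

end Pool.Agent.K1H51.LP
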