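import Pool.Agent.K1H51.LP.Num
import Pool.Agent.K1H51.LP.Ap
import Pool.Agent.W93.LV4

set_option autoImplicit false

/-! The discrepancies of one residue. -/

namespace Pool.Agent.K1H51.LP

open Finset Pool.Agent.H373R2.T7
open Pool.Agent.H807R2.Dav
open Pool.Agent.W93.LV (log1_nonneg Fu)

lemma coprime_ind (a q : ℕ) (ha : 1 ≤ a) (hq : 1 ≤ q) :
    ∑ δ ∈ a.divisors.filter (fun δ => δ ∣ q), ((ArithmeticFunction.moebius δ : ℤ) : ℝ) = if a.Coprime q then 1 else 0 := by
  have h1 : a.divisors.filter (fun δ => δ ∣ q) = (a.gcd q).divisors := by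
    ext δ
    rw [mem_filter, Nat.mem_divisors, Nat.mem_divisors, Nat.dvd_gcd_iff]
    constructor
    · rintro ⟨⟨h2, h3⟩, h4⟩
      exact ⟨⟨h2, h4⟩, (Nat.gcd_pos_of_pos_left q (by omega)).ne'⟩
    · rintro ⟨⟨h2, h3⟩, h4⟩
      exact ⟨⟨h2, by omega⟩, h3⟩
  rw [h1, sum_mu _ (Nat.gcd_pos_of_pos_left q (by omega))]

lemma modEq_dst (n a q : ℕ) : n ≡ a [MOD q] ↔ q ∣ dst n a := by
  unfold dst
  rw [← Int.natCast_modEq_iff, Int.modEq_comm, Int.modEq_iff_dvd, ← Int.natAbs_dvd_natAbs, Int.natAbs_natCast]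

lemma dst_le (n a X : ℕ) (hn : n ≤ X) (ha : a ≤ X) : dst n a ≤ X := by
  unfold dst
  omega

lemma dst_pos (n a : ℕ) (h : n ≠ a) : 1 ≤ dst n a := by
  unfold dst
  omega

/-- the weight of `n`, by Moebius inversion -/
lemma weight_eq (lam : ℕ → ℝ) (Q n a : ℕ) (ha : 1 ≤ a) :
    ∑ q ∈ ((Icc 1 Q).filter (fun q => a.Coprime q)).filter (fun q => n ≡ a [MOD q]), lam q =
      ∑ δ ∈ a.divisors, ((ArithmeticFunction.moebius δ : ℤ) : ℝ) * Wd lam Q δ (dst n a) := by
  have h1 : ∀ δ ∈ a.divisors, ((ArithmeticFunction.moebius δ : ℤ) : ℝ) * Wd lam Q δ (dst n a) =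
      ∑ q ∈ (Icc 1 Q).filter (fun q => q ∣ dst n a), if δ ∣ q then ((ArithmeticFunction.moebius δ : ℤ) : ℝ) * lam q else 0 := by
    intro δ _
    unfold Wd
    rw [← sum_filter, filter_filter, mul_sum]
    apply sum_congr _ (fun _ _ => rfl)
    apply filter_congr
    intro q _
    exact and_comm
  rw [sum_congr rfl h1, sum_comm, filter_filter]
  have h2 : (Icc 1 Q).filter (fun q => a.Coprime q ∧ n ≡ a [MOD q]) = ((Icc 1 Q).filter (fun q => q ∣ dst n a)).filter (fun q => a.Coprime q) := by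
    rw [filter_filter]
    apply filter_congr
    intro q _
    rw [modEq_dst]
    exact and_comm
  rw [h2, sum_filter]
  apply sum_congr rfl
  intro q hq
  rw [mem_filter, mem_Icc] at hq
  rw [← sum_filter, ← sum_mul, coprime_ind a q ha hq.1.1]
  split_ifs <;> simp

lemma TT_sum (R : ℕ) (lam : ℕ → ℝ) (Q y a : ℕ) (ha : 1 ≤ a) :
    ∑ n ∈ (Icc 1 y).filter (fun n => n ≠ a), fR R n *
      ∑ q ∈ ((Icc 1 Q).filter (fun q => a.Coprime q)).filter (fun q => n ≡ a [MOD q]), lam q =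
      ∑ δ ∈ a.divisors, ((ArithmeticFunction.moebius δ : ℤ) : ℝ) * TT R lam Q y δ a := by
  have h1 : ∀ n ∈ (Icc 1 y).filter (fun n => n ≠ a), fR R n *
      ∑ q ∈ ((Icc 1 Q).filter (fun q => a.Coprime q)).filter (fun q => n ≡ a [MOD q]), lam q =
      ∑ δ ∈ a.divisors, ((ArithmeticFunction.moebius δ : ℤ) : ℝ) * (fR R n * Wd lam Q δ (dst n a)) := by
    intro n _
    rw [weight_eq lam Q n a ha, mul_sum]
    apply sum_congr rfl
    intro δ _
    ring
  rw [sum_congr rfl h1, sum_comm]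
  apply sum_congr rfl
  intro δ hδ
  rw [← mul_sum]
  congr 1
  unfold TT
  rw [← filter_filter]
  symm
  apply sum_subset (filter_subset _ _)
  intro n hn hn2
  rw [mem_filter, not_and] at hn2
  have h3 := hn2 hn
  rw [Wd_zero lam Q δ (dst n a), mul_zero]
  intro h4
  apply h3
  have h5 : δ ∣ a := Nat.dvd_of_mem_divisors hδ
  have h6 : (δ : ℤ) ∣ (n : ℤ) - a := by
    unfold dst at h4
    exact Int.natCast_dvd.2 h4
  have h7 : (δ : ℤ) ∣ (a : ℤ) := Int.natCast_dvd_natCast.2 h5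
  have h8 := dvd_add h6 h7
  rw [sub_add_cancel] at h8
  exact Int.natCast_dvd_natCast.1 h8

/-- the missing part of the main term -/
lemma tail_hh (Q X R : ℕ) (hQX : Q ≤ X) (hR : 1 ≤ R) :
    ∑ q ∈ Icc 1 Q, 1 / (q : ℝ) * ∑ r ∈ q.divisors.filter (fun r => R < r), hh r ≤
      (Nat.log 2 X + 1) * (1 + Real.log X) ^ 2 / R := by
  have hR0 : (0 : ℝ) < R := by exact_mod_cast hR
  have h1 : ∀ q ∈ Icc 1 Q, 1 / (q : ℝ) * ∑ r ∈ q.divisors.filter (fun r => R < r), hh r ≤
      ∑ r ∈ (Icc 1 X).filter (fun r => R < r), if r ∣ q then hh r * (1 / q) else 0 := by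
    intro q hq
    rw [mem_Icc] at hq
    rw [mul_sum, ← sum_filter]
    have h2 : ∑ r ∈ q.divisors.filter (fun r => R < r), 1 / (q : ℝ) * hh r = ∑ r ∈ q.divisors.filter (fun r => R < r), hh r * (1 / (q : ℝ)) :=
      sum_congr rfl fun _ _ => mul_comm _ _
    rw [h2]
    apply sum_le_sum_of_subset_of_nonneg
    · intro r hr
      rw [mem_filter, Nat.mem_divisors] at hr
      rw [mem_filter, mem_filter, mem_Icc]
      have h3 := Nat.pos_of_dvd_of_pos hr.1.1 hq.1
      have h4 := Nat.le_of_dvd hq.1 hr.1.1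
      exact ⟨⟨⟨h3, by omega⟩, hr.2⟩, hr.1.1⟩
    · intro r _ _
      exact mul_nonneg (hh_nonneg r) (by positivity)
  refine (sum_le_sum h1).trans ?_
  rw [sum_comm]
  have h2 : ∀ r ∈ (Icc 1 X).filter (fun r => R < r), ∑ q ∈ Icc 1 Q, (if r ∣ q then hh r * (1 / (q : ℝ)) else 0) ≤ hh r * ((1 + Real.log X) / R) := by
    intro r hr
    rw [mem_filter, mem_Icc] at hr
    rw [← sum_filter, ← mul_sum]
    apply mul_le_mul_of_nonneg_left _ (hh_nonneg r)
    rw [sum_multR Q r hr.1.1 (fun q => 1 / (q : ℝ))]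
    have hr0 : (0 : ℝ) < r := by exact_mod_cast hr.1.1
    have h3 : ∀ m ∈ Icc 1 (Q / r), 1 / ((r * m : ℕ) : ℝ) ≤ (1 / R) * (1 / m) := by
      intro m hm
      rw [mem_Icc] at hm
      have hm0 : (0 : ℝ) < m := by exact_mod_cast hm.1
      have hRr : (R : ℝ) ≤ r := by exact_mod_cast hr.2.le
      rw [one_div_mul_one_div, Nat.cast_mul]
      apply one_div_le_one_div_of_le (by positivity)
      exact mul_le_mul_of_nonneg_right hRr hm0.le
    refine (sum_le_sum h3).trans ?_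
    rw [← mul_sum]
    have h4 : ∑ m ∈ Icc 1 (Q / r), 1 / (m : ℝ) ≤ 1 + Real.log X := by
      refine le_trans ?_ (sum_inv_Icc' X)
      exact sum_le_sum_of_subset_of_nonneg (Icc_subset_Icc_right ((Nat.div_le_self _ _).trans hQX)) (fun _ _ _ => by positivity)
    calc 1 / (R : ℝ) * ∑ m ∈ Icc 1 (Q / r), 1 / (m : ℝ) ≤ 1 / (R : ℝ) * (1 + Real.log X) := mul_le_mul_of_nonneg_left h4 (by positivity)
      _ = _ := by ring
  refine (sum_le_sum h2).trans ?_
  rw [← sum_mul]
  have h3 : ∑ r ∈ (Icc 1 X).filter (fun r => R < r), hh r ≤ (Nat.log 2 X + 1) * (1 + Real.log X) := by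
    refine le_trans ?_ (sum_hh X)
    exact sum_le_sum_of_subset_of_nonneg (filter_subset _ _) (fun r _ _ => hh_nonneg r)
  have h4 := log1_nonneg X
  calc _ ≤ ((Nat.log 2 X + 1) * (1 + Real.log X)) * ((1 + Real.log X) / R) := mul_le_mul_of_nonneg_right h3 (by positivity)
    _ = _ := by ring

lemma phi_split (q R : ℕ) (hq : 1 ≤ q) : 1 / (q : ℝ) * ∑ r ∈ (Icc 1 R).filter (fun r => r ∣ q), hh r =
    1 / (Nat.totient q : ℝ) - 1 / (q : ℝ) * ∑ r ∈ q.divisors.filter (fun r => R < r), hh r := by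
  have hq0 : (0 : ℝ) < q := by exact_mod_cast hq
  have h1 := sum_hh_div q hq
  have h2 : (Icc 1 R).filter (fun r => r ∣ q) = q.divisors.filter (fun r => ¬ R < r) := by
    ext r
    rw [mem_filter, mem_filter, mem_Icc, Nat.mem_divisors]
    constructor
    · rintro ⟨⟨h3, h4⟩, h5⟩
      exact ⟨⟨h5, by omega⟩, by omega⟩
    · rintro ⟨⟨h3, h4⟩, h5⟩
      exact ⟨⟨Nat.pos_of_dvd_of_pos h3 hq, by omega⟩, h3⟩
  have h3 := sum_filter_add_sum_filter_not q.divisors (fun r => R < r) hh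
  rw [h2]
  have h4 : ∑ r ∈ q.divisors.filter (fun r => ¬ R < r), hh r = (q : ℝ) / Nat.totient q - ∑ r ∈ q.divisors.filter (fun r => R < r), hh r := by
    rw [← h1]
    linarith
  rw [h4, mul_sub]
  congr 1
  field_simp

theorem pointwise (lam : ℕ → ℝ) (A : ℝ) (hlam : ∀ q, |lam q| ≤ A) (Q y a R X : ℕ) (hR : 1 ≤ R) (ha : 1 ≤ a) (haX : a ≤ X)
    (hQX : Q ≤ X) :
    |∑ q ∈ (Icc 1 Q).filter (fun q => a.Coprime q), lam q *
      (Fu (fun n => ArithmeticFunction.vonMangoldt n) y q a - (y : ℝ) / Nat.totient q)| ≤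
      ∑ δ ∈ a.divisors, |TT R lam Q y δ a| + A * (Q * (Real.log X + 2 * (cR R * R)) +
        y * ((Nat.log 2 X + 1) * (1 + Real.log X) ^ 2 / R)) := by
  have hA : 0 ≤ A := (abs_nonneg _).trans (hlam 0)
  obtain ⟨F, hF⟩ : ∃ F, F = (Icc 1 Q).filter (fun q => a.Coprime q) := ⟨_, rfl⟩
  have hFc : (F.card : ℝ) ≤ Q := by
    have : F.card ≤ Q := by
      rw [hF]
      exact (card_filter_le _ _).trans (by simp)
    exact_mod_cast this
  rw [← hF]
  have e1 : ∑ q ∈ F, lam q * (Fu (fun n => ArithmeticFunction.vonMangoldt n) y q a - (y : ℝ) / Nat.totient q) =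
      ∑ q ∈ F, lam q * ∑ n ∈ (Icc 1 y).filter (fun n => n ≡ a [MOD q]), fR R n +
      ∑ q ∈ F, lam q * (∑ n ∈ (Icc 1 y).filter (fun n => n ≡ a [MOD q]), lamR R n -
        (y : ℝ) / q * ∑ r ∈ (Icc 1 R).filter (fun r => r ∣ q), hh r) -
      ∑ q ∈ F, lam q * (y * (1 / (q : ℝ) * ∑ r ∈ q.divisors.filter (fun r => R < r), hh r)) := by
    rw [← sum_add_distrib, ← sum_sub_distrib]
    apply sum_congr rfl
    intro q hq
    rw [hF, mem_filter, mem_Icc] at hq
    have h1 := phi_split q R hq.1.1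
    have h2 : (y : ℝ) / q * ∑ r ∈ (Icc 1 R).filter (fun r => r ∣ q), hh r =
        y / Nat.totient q - y * (1 / (q : ℝ) * ∑ r ∈ q.divisors.filter (fun r => R < r), hh r) := by
      calc (y : ℝ) / q * ∑ r ∈ (Icc 1 R).filter (fun r => r ∣ q), hh r = y * (1 / (q : ℝ) * ∑ r ∈ (Icc 1 R).filter (fun r => r ∣ q), hh r) := by ring
        _ = _ := by rw [h1]; ring
    rw [h2]
    have h3 : Fu (fun n => ArithmeticFunction.vonMangoldt n) y q a =
        ∑ n ∈ (Icc 1 y).filter (fun n => n ≡ a [MOD q]), fR R n + ∑ n ∈ (Icc 1 y).filter (fun n => n ≡ a [MOD q]), lamR R n := by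
      unfold Fu fR
      rw [← sum_add_distrib]
      apply sum_congr rfl
      intro n _
      ring
    rw [h3]
    ring
  rw [e1]
  -- the first sum
  have e2 : ∑ q ∈ F, lam q * ∑ n ∈ (Icc 1 y).filter (fun n => n ≡ a [MOD q]), fR R n =
      ∑ n ∈ Icc 1 y, fR R n * ∑ q ∈ F.filter (fun q => n ≡ a [MOD q]), lam q := by
    have h1 : ∀ q ∈ F, lam q * ∑ n ∈ (Icc 1 y).filter (fun n => n ≡ a [MOD q]), fR R n =
        ∑ n ∈ Icc 1 y, if n ≡ a [MOD q] then lam q * fR R n else 0 := by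
      intro q _
      rw [mul_sum, sum_filter]
    rw [sum_congr rfl h1, sum_comm]
    apply sum_congr rfl
    intro n _
    rw [← sum_filter, mul_sum]
    apply sum_congr rfl
    intro q _
    ring
  have e3 : ∑ n ∈ Icc 1 y, fR R n * ∑ q ∈ F.filter (fun q => n ≡ a [MOD q]), lam q =
      ∑ n ∈ (Icc 1 y).filter (fun n => n = a), fR R n * ∑ q ∈ F.filter (fun q => n ≡ a [MOD q]), lam q +
      ∑ n ∈ (Icc 1 y).filter (fun n => n ≠ a), fR R n * ∑ q ∈ F.filter (fun q => n ≡ a [MOD q]), lam q :=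
    (sum_filter_add_sum_filter_not _ _ _).symm
  have b1 : |∑ n ∈ (Icc 1 y).filter (fun n => n = a), fR R n * ∑ q ∈ F.filter (fun q => n ≡ a [MOD q]), lam q| ≤
      (Real.log X + cR R * R) * (A * Q) := by
    have h0 : 0 ≤ (Real.log X + cR R * R) * (A * Q) := by
      have := cR_nonneg R
      have := Real.log_natCast_nonneg X
      positivity
    by_cases hay : a ∈ Icc 1 y
    · have h1 : (Icc 1 y).filter (fun n => n = a) = {a} := by
        ext n
        rw [mem_filter, mem_singleton]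
        constructor
        · exact fun h => h.2
        · rintro rfl
          exact ⟨hay, rfl⟩
      rw [h1, sum_singleton, abs_mul]
      apply mul_le_mul _ _ (abs_nonneg _) (by have := cR_nonneg R; have := Real.log_natCast_nonneg X; positivity)
      · unfold fR
        refine (abs_sub _ _).trans (add_le_add ?_ (lamR_le' R a))
        rw [abs_of_nonneg ArithmeticFunction.vonMangoldt_nonneg]
        refine ArithmeticFunction.vonMangoldt_le_log.trans ?_
        exact Real.log_le_log (by exact_mod_cast ha) (by exact_mod_cast haX)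
      · refine (abs_sum_le_sum_abs _ _).trans ((sum_le_sum fun q _ => hlam q).trans ?_)
        rw [sum_const, nsmul_eq_mul, mul_comm]
        apply mul_le_mul_of_nonneg_left _ hA
        refine le_trans ?_ hFc
        exact_mod_cast card_filter_le _ _
    · have h1 : (Icc 1 y).filter (fun n => n = a) = ∅ := by
        rw [filter_eq_empty_iff]
        rintro n hn rfl
        exact hay hn
      rw [h1, sum_empty, abs_zero]
      exact h0
  have b2 : |∑ n ∈ (Icc 1 y).filter (fun n => n ≠ a), fR R n * ∑ q ∈ F.filter (fun q => n ≡ a [MOD q]), lam q| ≤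
      ∑ δ ∈ a.divisors, |TT R lam Q y δ a| := by
    rw [hF, TT_sum R lam Q y a ha]
    refine (abs_sum_le_sum_abs _ _).trans (sum_le_sum fun δ _ => ?_)
    rw [abs_mul]
    have h1 : |((ArithmeticFunction.moebius δ : ℤ) : ℝ)| ≤ 1 := by
      exact_mod_cast ArithmeticFunction.abs_moebius_le_one
    calc |((ArithmeticFunction.moebius δ : ℤ) : ℝ)| * |TT R lam Q y δ a| ≤ 1 * |TT R lam Q y δ a| := mul_le_mul_of_nonneg_right h1 (abs_nonneg _)
      _ = _ := one_mul _
  have b3 : |∑ q ∈ F, lam q * (∑ n ∈ (Icc 1 y).filter (fun n => n ≡ a [MOD q]), lamR R n -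
        (y : ℝ) / q * ∑ r ∈ (Icc 1 R).filter (fun r => r ∣ q), hh r)| ≤ A * (Q * (cR R * R)) := by
    have h1 : ∀ q ∈ F, |lam q * (∑ n ∈ (Icc 1 y).filter (fun n => n ≡ a [MOD q]), lamR R n -
        (y : ℝ) / q * ∑ r ∈ (Icc 1 R).filter (fun r => r ∣ q), hh r)| ≤ A * (cR R * R) := by
      intro q hq
      rw [hF, mem_filter, mem_Icc] at hq
      rw [abs_mul]
      exact mul_le_mul (hlam q) (lamR_ap R q y a hq.1.1 hq.2) (abs_nonneg _) hA
    refine (abs_sum_le_sum_abs _ _).trans ((sum_le_sum h1).trans ?_)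
    rw [sum_const, nsmul_eq_mul]
    have h2 : 0 ≤ A * (cR R * R) := by have := cR_nonneg R; positivity
    calc (F.card : ℝ) * (A * (cR R * R)) ≤ Q * (A * (cR R * R)) := mul_le_mul_of_nonneg_right hFc h2
      _ = _ := by ring
  have b4 : |∑ q ∈ F, lam q * (y * (1 / (q : ℝ) * ∑ r ∈ q.divisors.filter (fun r => R < r), hh r))| ≤
      A * (y * ((Nat.log 2 X + 1) * (1 + Real.log X) ^ 2 / R)) := by
    have h1 : ∀ q ∈ F, |lam q * (y * (1 / (q : ℝ) * ∑ r ∈ q.divisors.filter (fun r => R < r), hh r))| ≤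
        A * (y * (1 / (q : ℝ) * ∑ r ∈ q.divisors.filter (fun r => R < r), hh r)) := by
      intro q _
      have h2 : 0 ≤ (y : ℝ) * (1 / (q : ℝ) * ∑ r ∈ q.divisors.filter (fun r => R < r), hh r) := by
        have := sum_nonneg (s := q.divisors.filter (fun r => R < r)) (f := hh) fun r _ => hh_nonneg r
        positivity
      rw [abs_mul, abs_of_nonneg h2]
      exact mul_le_mul_of_nonneg_right (hlam q) h2
    refine (abs_sum_le_sum_abs _ _).trans ((sum_le_sum h1).trans ?_)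
    rw [← mul_sum, ← mul_sum]
    apply mul_le_mul_of_nonneg_left _ hA
    apply mul_le_mul_of_nonneg_left _ (Nat.cast_nonneg _)
    refine le_trans ?_ (tail_hh Q X R hQX hR)
    rw [hF]
    apply sum_le_sum_of_subset_of_nonneg (filter_subset _ _)
    intro q _ _
    have := sum_nonneg (s := q.divisors.filter (fun r => R < r)) (f := hh) fun r _ => hh_nonneg r
    positivity
  rw [e2, e3]
  refine (abs_sub _ _).trans ((add_le_add ((abs_add_le _ _).trans (add_le_add (abs_add_le _ _) le_rfl)) le_rfl).trans ?_)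
  refine (add_le_add (add_le_add (add_le_add b1 b2) b3) b4).trans (le_of_eq ?_)
  ring

end Pool.Agent.K1H51.LP
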